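import Pool.Agent.Helper5.BEC.C.Defs
/-! Stage C, piece Comp: completion by swaps, one vertex after the other. -/
set_option autoImplicit false
namespace Pool.Agent.Helper5.BEC.C
open Finset Pool.Agent.Helper5.BEC

variable {n k : ℕ} {A B : Nb n}

/-- the step of the completion -/
theorem complete_aux (hA : ∀ v, #(A.N v) ≤ k) (P : Finset (Fin n)) (σ : Fin n → Fin n) (c : ℝ)
    (hc : ∀ X : Finset (Fin n), #X ≤ k → ∀ y, c * n ≤
      #(P.filter fun u => σ u ∈ Av B X ∧ ∀ p ∈ A.N u, p ∈ P → σ p ∉ B.N y))
    (hI : 2 * (k + 1) * (#(univ \ P) : ℝ) + k < c * n) :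
    ∀ (m : ℕ) (P' : Finset (Fin n)) (σ' : Fin n → Fin n) (Ch : Finset (Fin n)),
      #(univ \ P') = m → #Ch + 2 * m ≤ 2 * #(univ \ P) →
      (∀ u ∈ P, u ∉ Ch → u ∈ P' ∧ σ' u = σ u) → (∀ u ∈ P', u ∉ Ch → u ∈ P) →
      Set.InjOn σ' (P' : Set (Fin n)) →
      (∀ u ∈ P', ∀ v ∈ P', v ∈ A.N u → σ' v ∉ B.N (σ' u)) →
      ∃ τ : Equiv.Perm (Fin n), ∀ u v, u ∈ A.N v → τ u ∉ B.N (τ v) := by
  intro m
  induction m with
  | zero =>
    intro P' σ' Ch hm _ _ _ hinj hval
    have hP' : ∀ u, u ∈ P' := by
      intro u
      by_contra hu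
      have : u ∈ univ \ P' := by simp [hu]
      rw [Finset.card_eq_zero] at hm
      rw [hm] at this
      simp at this
    have hbij : Function.Bijective σ' := by
      rw [← Finite.injective_iff_bijective]
      intro a b hab
      exact hinj (Finset.mem_coe.2 (hP' a)) (Finset.mem_coe.2 (hP' b)) hab
    refine ⟨Equiv.ofBijective σ' hbij, fun u v huv => ?_⟩
    simp only [Equiv.ofBijective_apply]
    exact hval v (hP' v) u (hP' u) huv
  | succ m ih =>
    intro P' σ' Ch hm hCh hag hback hinj hval
    -- an unplaced vertex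
    have hne : (univ \ P').Nonempty := by
      rw [← Finset.card_pos]
      omega
    obtain ⟨v, hv⟩ := hne
    have hvP' : v ∉ P' := by
      simpa using hv
    -- an unused position
    have hcard : #(P'.image σ') < #(univ : Finset (Fin n)) := by
      calc #(P'.image σ') ≤ #P' := Finset.card_image_le
        _ < #(univ : Finset (Fin n)) := by
          apply Finset.card_lt_card
          rw [Finset.ssubset_univ_iff]
          intro h
          rw [h] at hvP'
          exact hvP' (Finset.mem_univ v)
    obtain ⟨y, -, hy⟩ := Finset.exists_mem_notMem_of_card_lt_card hcard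
    have hy' : ∀ u ∈ P', σ' u ≠ y := by
      intro u hu h
      exact hy (Finset.mem_image.2 ⟨u, hu, h⟩)
    set X : Finset (Fin n) := ((A.N v).filter fun w => w ∈ P').image σ' with hX
    have hXk : #X ≤ k :=
      (Finset.card_image_le.trans (Finset.card_filter_le _ _)).trans (hA v)
    set C := P.filter fun u => σ u ∈ Av B X ∧ ∀ p ∈ A.N u, p ∈ P → σ p ∉ B.N y with hCdef
    have hCc := hc X hXk y
    -- the excluded vertices
    set Bad : Finset (Fin n) := (Ch ∪ Ch.biUnion A.N) ∪ A.N v with hBad
    have hBadc : (#Bad : ℝ) ≤ 2 * (k + 1) * (#(univ \ P) : ℝ) + k := by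
      have h1 : #Bad ≤ (#Ch + #Ch * k) + k := by
        calc #Bad ≤ #(Ch ∪ Ch.biUnion A.N) + #(A.N v) := Finset.card_union_le _ _
          _ ≤ (#Ch + #(Ch.biUnion A.N)) + k := Nat.add_le_add (Finset.card_union_le _ _) (hA v)
          _ ≤ (#Ch + #Ch * k) + k := by
            have : #(Ch.biUnion A.N) ≤ #Ch * k := Finset.card_biUnion_le_card_mul _ _ _ fun w _ => hA w
            omega
      have h2 : #Ch ≤ 2 * #(univ \ P) := by omega
      have h3 : (#Bad : ℝ) ≤ ((#Ch : ℝ) + (#Ch : ℝ) * k) + k := by exact_mod_cast h1
      have h4 : (#Ch : ℝ) ≤ 2 * (#(univ \ P) : ℝ) := by exact_mod_cast h2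
      have h5 : (0 : ℝ) ≤ k := Nat.cast_nonneg k
      nlinarith
    have hlt : #Bad < #C := by
      have : (#Bad : ℝ) < (#C : ℝ) := by linarith
      exact_mod_cast this
    obtain ⟨u, huC, huB⟩ := Finset.exists_mem_notMem_of_card_lt_card hlt
    rw [hCdef, Finset.mem_filter] at huC
    obtain ⟨huP, huAv, hup⟩ := huC
    have huCh : u ∉ Ch := fun h => huB (by
      rw [hBad]
      exact Finset.mem_union_left _ (Finset.mem_union_left _ h))
    have huN : ∀ w ∈ A.N u, w ∉ Ch := by
      intro w hw hwC
      apply huB
      rw [hBad]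
      refine Finset.mem_union_left _ (Finset.mem_union_right _ (Finset.mem_biUnion.2 ⟨w, hwC, ?_⟩))
      exact A.symm _ _ hw
    have huv : u ∉ A.N v := fun h => huB (by
      rw [hBad]
      exact Finset.mem_union_right _ h)
    have hvu : v ∉ A.N u := fun h => huv (A.symm _ _ h)
    obtain ⟨huP', hσu⟩ := hag u huP huCh
    have hne : v ≠ u := fun h => hvP' (h ▸ huP')
    -- the new placement
    let σ'' : Fin n → Fin n := fun w => if w = v then σ' u else if w = u then y else σ' w
    have s1 : σ'' v = σ' u := by simp [σ'']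
    have s2 : σ'' u = y := by simp [σ'', hne.symm]
    have s3 : ∀ w, w ≠ v → w ≠ u → σ'' w = σ' w := by
      intro w h1 h2
      simp [σ'', h1, h2]
    have hmem : ∀ w, w ∈ insert v P' → w ≠ v → w ∈ P' := by
      intro w hw h
      exact (Finset.mem_insert.1 hw).resolve_left h
    refine ih (insert v P') σ'' (insert u (insert v Ch)) ?_ ?_ ?_ ?_ ?_ ?_
    · have : univ \ insert v P' = (univ \ P').erase v := by
        ext w
        simp only [Finset.mem_sdiff, Finset.mem_univ, true_and, Finset.mem_insert, not_or,
          Finset.mem_erase]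
      rw [this, Finset.card_erase_of_mem hv, hm]
      rfl
    · have h1 : #(insert u (insert v Ch)) ≤ #Ch + 2 := by
        calc #(insert u (insert v Ch)) ≤ #(insert v Ch) + 1 := Finset.card_insert_le _ _
          _ ≤ (#Ch + 1) + 1 := Nat.add_le_add_right (Finset.card_insert_le _ _) 1
      omega
    · intro w hw hwC
      rw [Finset.mem_insert, Finset.mem_insert, not_or, not_or] at hwC
      obtain ⟨h1, h2, h3⟩ := hwC
      obtain ⟨h4, h5⟩ := hag w hw h3
      exact ⟨Finset.mem_insert_of_mem h4, by rw [s3 w h2 h1, h5]⟩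
    · intro w hw hwC
      rw [Finset.mem_insert, Finset.mem_insert, not_or, not_or] at hwC
      obtain ⟨h1, h2, h3⟩ := hwC
      exact hback w (hmem w hw h2) h3
    · intro a ha b hb hab
      rw [Finset.mem_coe] at ha hb
      by_cases hav : a = v
      · by_cases hbv : b = v
        · rw [hav, hbv]
        · have hb' := hmem b hb hbv
          rw [hav, s1] at hab
          by_cases hbu : b = u
          · rw [hbu, s2] at hab
            exact absurd hab (hy' u huP')
          · rw [s3 b hbv hbu] at hab
            have := hinj (Finset.mem_coe.2 huP') (Finset.mem_coe.2 hb') hab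
            exact absurd this.symm hbu
      · have ha' := hmem a ha hav
        by_cases hau : a = u
        · rw [hau, s2] at hab
          by_cases hbv : b = v
          · rw [hbv, s1] at hab
            exact absurd hab.symm (hy' u huP')
          · have hb' := hmem b hb hbv
            by_cases hbu : b = u
            · rw [hau, hbu]
            · rw [s3 b hbv hbu] at hab
              exact absurd hab.symm (hy' b hb')
        · rw [s3 a hav hau] at hab
          by_cases hbv : b = v
          · rw [hbv, s1] at hab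
            have := hinj (Finset.mem_coe.2 ha') (Finset.mem_coe.2 huP') hab
            exact absurd this hau
          · have hb' := hmem b hb hbv
            by_cases hbu : b = u
            · rw [hbu, s2] at hab
              exact absurd hab (hy' a ha')
            · rw [s3 b hbv hbu] at hab
              exact hinj (Finset.mem_coe.2 ha') (Finset.mem_coe.2 hb') hab
    · -- validity
      have key : ∀ a ∈ insert v P', ∀ b ∈ insert v P', b ∈ A.N a → (a = v ∨ a = u) →
          σ'' b ∉ B.N (σ'' a) := by
        intro a ha b hb hba hor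
        rcases hor with rfl | rfl
        · have hbv : b ≠ a := fun h => A.irr a (h ▸ hba)
          have hbu : b ≠ u := fun h => huv (h ▸ hba)
          have hb' := hmem b hb hbv
          rw [s1, s3 b hbv hbu, hσu]
          have hx : σ' b ∈ X := by
            rw [hX]
            exact Finset.mem_image.2 ⟨b, Finset.mem_filter.2 ⟨hba, hb'⟩, rfl⟩
          have := (Finset.mem_filter.1 huAv).2 _ hx
          exact fun h => this (B.symm _ _ h)
        · have hbv : b ≠ v := fun h => hvu (h ▸ hba)
          have hbu : b ≠ a := fun h => A.irr a (h ▸ hba)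
          have hb' := hmem b hb hbv
          have hbC := huN b hba
          have hbP := hback b hb' hbC
          rw [s2, s3 b hbv hbu, (hag b hbP hbC).2]
          exact hup b hba hbP
      intro a ha b hb hba
      by_cases h1 : a = v ∨ a = u
      · exact key a ha b hb hba h1
      · by_cases h2 : b = v ∨ b = u
        · have := key b hb a ha (A.symm _ _ hba) h2
          exact fun h => this (B.symm _ _ h)
        · rw [not_or] at h1 h2
          rw [s3 a h1.1 h1.2, s3 b h2.1 h2.2]
          exact hval a (hmem a ha h1.1) b (hmem b hb h2.1) hba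

/-- Induction on the number of unplaced vertices, with a current placement `(P', σ')` that agrees
with `(P, σ)` outside a set `Ch` of at most `2 m` vertices after `m` steps. Next unplaced vertex
`v`, unused position `y`, `X` = positions of the placed neighbours of `v`: choose a candidate `u`
for `(X, y)` with `u ∉ Ch`, `N(u) ∩ Ch = ∅`, `u ∉ N(v)` (at most `2m(k+1) + k < c n` are excluded);
put `v` at `σ u` and `u` at `y`. At the end `σ'` is injective on `univ`, hence a permutation. -/
theorem complete (hA : ∀ v, #(A.N v) ≤ k) (P : Finset (Fin n)) (σ : Fin n → Fin n)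
    (hinj : Set.InjOn σ (P : Set (Fin n)))
    (hval : ∀ u ∈ P, ∀ v ∈ P, v ∈ A.N u → σ v ∉ B.N (σ u)) (c : ℝ)
    (hc : ∀ X : Finset (Fin n), #X ≤ k → ∀ y, c * n ≤
      #(P.filter fun u => σ u ∈ Av B X ∧ ∀ p ∈ A.N u, p ∈ P → σ p ∉ B.N y))
    (hI : 2 * (k + 1) * (#(univ \ P) : ℝ) + k < c * n) :
    ∃ τ : Equiv.Perm (Fin n), ∀ u v, u ∈ A.N v → τ u ∉ B.N (τ v) := by
  refine complete_aux hA P σ c hc hI _ P σ ∅ rfl ?_ ?_ ?_ hinj hval
  · simp
  · intro u hu _
    exact ⟨hu, rfl⟩
  · intro u hu _
    exact hu

end Pool.Agent.Helper5.BEC.C
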