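import Pool.Agent.Helper5.BEC.C.LabA
import Pool.Agent.Helper5.BEC.St.T1
/-! Stage C, piece LabB: existence of the labels. -/
set_option autoImplicit false
namespace Pool.Agent.Helper5.BEC.C
open Finset Pool.Agent.Helper61.LE Pool.Agent.Helper5.BEC

/-- a local count changes by at most `k + 1` if one coordinate changes -/
theorem LabBaux_count_le {n : ℕ} {Ω : Type*} (A : Nb n) (k : ℕ)
    (hk : ∀ v, #(A.N v) ≤ k) (Q : (Fin n → Ω) → Fin n → Prop) [∀ ω, DecidablePred (Q ω)]
    (hQ : ∀ v, ∀ ω ω' : Fin n → Ω, (∀ u ∈ insert v (A.N v), ω u = ω' u) → (Q ω v → Q ω' v))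
    (i : Fin n) (ω : Fin n → Ω) (a b : Ω) :
    (#(univ.filter fun v => Q (Function.update ω i a) v) : ℝ) -
      #(univ.filter fun v => Q (Function.update ω i b) v) ≤ k + 1 := by
  have hsub : (univ.filter fun v => Q (Function.update ω i a) v) ⊆
      (univ.filter fun v => Q (Function.update ω i b) v) ∪ insert i (A.N i) := by
    intro v hv
    rw [mem_union]
    by_cases hvi : v ∈ insert i (A.N i)
    · exact Or.inr hvi
    · left
      rw [mem_filter] at hv ⊢
      refine ⟨mem_univ _, hQ v _ _ ?_ hv.2⟩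
      intro u hu
      have hui : u ≠ i := by
        rintro rfl
        apply hvi
        rw [mem_insert] at hu ⊢
        rcases hu with hu | hu
        · exact Or.inl hu.symm
        · exact Or.inr (A.symm _ _ hu)
      rw [Function.update_of_ne hui, Function.update_of_ne hui]
  have h1 := (card_le_card hsub).trans (card_union_le _ _)
  have h2 := (card_insert_le i (A.N i)).trans (Nat.succ_le_succ (hk i))
  have h3 : #(univ.filter fun v => Q (Function.update ω i a) v) ≤
      #(univ.filter fun v => Q (Function.update ω i b) v) + (k + 1) := by omega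
  have h4 : (#(univ.filter fun v => Q (Function.update ω i a) v) : ℝ) ≤
      #(univ.filter fun v => Q (Function.update ω i b) v) + (k + 1) := by exact_mod_cast h3
  linarith

theorem LabBaux_count_abs {n : ℕ} {Ω : Type*} (A : Nb n) (k : ℕ)
    (hk : ∀ v, #(A.N v) ≤ k) (Q : (Fin n → Ω) → Fin n → Prop) [∀ ω, DecidablePred (Q ω)]
    (hQ : ∀ v, ∀ ω ω' : Fin n → Ω, (∀ u ∈ insert v (A.N v), ω u = ω' u) → (Q ω v → Q ω' v))
    (i : Fin n) (ω : Fin n → Ω) (a b : Ω) :
    |(#(univ.filter fun v => Q (Function.update ω i a) v) : ℝ) -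
      #(univ.filter fun v => Q (Function.update ω i b) v)| ≤ k + 1 := by
  rw [abs_le]
  constructor
  · have := LabBaux_count_le A k hk Q hQ i ω b a
    linarith
  · exact LabBaux_count_le A k hk Q hQ i ω a b

/-- the expectation of a count -/
theorem LabBaux_EE_count {n : ℕ} {Ω : Type*} [Fintype Ω] [DecidableEq Ω] (μ : Fin n → Ω → ℝ)
    (Q : (Fin n → Ω) → Fin n → Prop) [∀ ω, DecidablePred (Q ω)] :
    EE μ (fun ω => (#(univ.filter fun v => Q ω v) : ℝ)) = ∑ v, PP μ (fun ω => Q ω v) := by
  classical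
  unfold PP
  rw [← EE_sum]
  refine EE_congr fun ω => ?_
  rw [card_filter]
  push_cast
  refine sum_congr rfl fun v _ => ?_
  by_cases h : Q ω v <;> simp [h]

/-- finitely many functions are simultaneously close to their means -/
theorem LabBaux_exists {n : ℕ} (hn : 0 < n) {Ω : Type*} [Fintype Ω] [DecidableEq Ω]
    {μ : Fin n → Ω → ℝ} (h : IsProb μ) {κ : Type*} (I : Finset κ) (f : κ → (Fin n → Ω) → ℝ)
    (k : ℕ)
    (hf : ∀ j ∈ I, ∀ i ω a b,
      |f j (Function.update ω i a) - f j (Function.update ω i b)| ≤ k + 1)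
    {δ : ℝ} (hδ : 0 < δ) (hδ1 : δ ≤ 1)
    (hI : (#I : ℝ) * (2 * Real.exp (-(δ ^ 2 * n / (4 * (k + 1) ^ 2)))) < 1) :
    ∃ ω, ∀ j ∈ I, |f j ω - EE μ (f j)| < δ * n := by
  classical
  have hn' : (0 : ℝ) < n := by exact_mod_cast hn
  have hk' : (0 : ℝ) < (k : ℝ) + 1 := by positivity
  have htail : ∀ j ∈ I, PP μ (fun ω => δ * n ≤ |f j ω - EE μ (f j)|) ≤
      2 * Real.exp (-(δ ^ 2 * n / (4 * (k + 1) ^ 2))) := by
    intro j hj
    have h1 := tail h (fun _ _ => ((k : ℝ) + 1) / 2) (f j) (m := ((k : ℝ) + 1) / 2)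
      (L := n * (((k : ℝ) + 1) / 2)) (t := δ * n) (fun _ _ => by positivity)
      (fun _ _ => le_refl _) (by positivity)
      (by
        simp only [← sum_mul, h.sum_one, one_mul]
        rw [sum_const, card_univ, Fintype.card_fin, nsmul_eq_mul])
      (by positivity) (by positivity)
      (by
        have hk0 : (0 : ℝ) ≤ (k : ℝ) := by positivity
        have : δ * n ≤ 1 * n := mul_le_mul_of_nonneg_right hδ1 hn'.le
        nlinarith [mul_nonneg hn'.le hk0])
      (fun i ω a b => by
        have := hf j hj i ω a b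
        linarith)
    refine h1.trans (le_of_eq ?_)
    congr 3
    field_simp
    ring
  have hex := (PP_exists_le h I (fun j ω => δ * n ≤ |f j ω - EE μ (f j)|)).trans
    (sum_le_sum htail)
  rw [sum_const, nsmul_eq_mul] at hex
  have hsplit := PP_split (μ := μ) (fun _ => True)
    (fun ω => ∃ j ∈ I, δ * n ≤ |f j ω - EE μ (f j)|)
  rw [PP_true h] at hsplit
  have h2 : PP μ (fun ω => True ∧ ∃ j ∈ I, δ * n ≤ |f j ω - EE μ (f j)|) < 1 := by
    refine lt_of_le_of_lt (le_trans ?_ hex) hI
    exact PP_mono h fun ω hω => hω.2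
  have h3 : 0 < PP μ (fun ω => True ∧ ¬ ∃ j ∈ I, δ * n ≤ |f j ω - EE μ (f j)|) := by linarith
  obtain ⟨ω, _, _, hω⟩ := exists_of_PP_pos h3
  refine ⟨ω, fun j hj => ?_⟩
  by_contra hcon
  exact hω ⟨j, hj, not_lt.mp hcon⟩

/-- properties of the labels in the first step -/
def LabBaux_Q {n : ℕ} (A : Nb n) (k T : ℕ) :
    Option (Fin (k + 1) ⊕ Fin T) → (Fin n → Fin T) → Fin n → Prop
  | none => fun ω v => ∃ u ∈ A.N v, ω u = ω v
  | some (Sum.inl j) => fun ω v => #((A.N v).filter fun u => ω u < ω v) ≤ j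
  | some (Sum.inr s) => fun ω v => ω v = s

theorem LabBaux_Q_loc {n : ℕ} (A : Nb n) (k T : ℕ) (x : Option (Fin (k + 1) ⊕ Fin T)) (v : Fin n)
    (ω ω' : Fin n → Fin T) (h : ∀ u ∈ insert v (A.N v), ω u = ω' u)
    (hQ : LabBaux_Q A k T x ω v) : LabBaux_Q A k T x ω' v := by
  have hv : ω v = ω' v := h v (mem_insert_self _ _)
  have hu : ∀ u ∈ A.N v, ω u = ω' u := fun u hu => h u (mem_insert_of_mem hu)
  rcases x with _ | (j | s)
  · obtain ⟨u, hu1, hu2⟩ := hQ
    exact ⟨u, hu1, by rw [← hu u hu1, ← hv, hu2]⟩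
  · have h1 : ((A.N v).filter fun u => ω' u < ω' v) = ((A.N v).filter fun u => ω u < ω v) := by
      apply filter_congr
      intro u hu1
      rw [hu u hu1, hv]
    change #((A.N v).filter fun u => ω' u < ω' v) ≤ j
    rw [h1]
    exact hQ
  · change ω' v = s
    rw [← hv]
    exact hQ

/-- the probability that two labels agree -/
theorem LabBaux_eq {n T : ℕ} (hT : 1 ≤ T) {u v : Fin n} (huv : u ≠ v) :
    PP (fun (_ : Fin n) (_ : Fin T) => (1 : ℝ) / T) (fun ω => ω u = ω v) ≤ 1 / T := by
  classical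
  have hT' : (0 : ℝ) < T := by exact_mod_cast hT
  have hμ : IsProb (fun (_ : Fin n) (_ : Fin T) => (1 : ℝ) / T) := by
    refine ⟨fun _ _ => by positivity, fun _ => ?_⟩
    rw [sum_const, card_univ, Fintype.card_fin, nsmul_eq_mul]
    field_simp
  have h1 : PP (fun (_ : Fin n) (_ : Fin T) => (1 : ℝ) / T) (fun ω => ω u = ω v) ≤
      PP (fun (_ : Fin n) (_ : Fin T) => (1 : ℝ) / T)
        (fun ω => ∃ a ∈ (univ : Finset (Fin T)), ω u = a ∧ ω v = a) :=
    PP_mono hμ fun ω hω => ⟨ω v, mem_univ _, hω, rfl⟩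
  refine h1.trans ((PP_exists_le hμ univ (fun a ω => ω u = a ∧ ω v = a)).trans (le_of_eq ?_))
  have h2 : ∀ a : Fin T, PP (fun (_ : Fin n) (_ : Fin T) => (1 : ℝ) / T)
      (fun ω => ω u = a ∧ ω v = a) = 1 / T * (1 / T) := by
    intro a
    rw [PP_and_of_disjoint hμ (A := fun ω => ω u = a) (B := fun ω => ω v = a) (S := {u})
      (T := {v}) (fun ω ω' hω => by simp only [hω u (mem_singleton_self _)])
      (fun ω ω' hω => by simp only [hω v (mem_singleton_self _)]) (by simpa using huv)]
    rw [Pool.Agent.Helper5.AVD.PP_coord hμ u (fun x => x = a),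
      Pool.Agent.Helper5.AVD.PP_coord hμ v (fun x => x = a)]
    simp
  simp only [h2]
  rw [sum_const, card_univ, Fintype.card_fin, nsmul_eq_mul]
  field_simp

/-- Every vertex draws a label `l v` uniform in `{1..T}` (`Fin T`) and a bit (kept with probability
`τ`); `r v = l v` if `v` is kept and no neighbour has the same `l`, otherwise `r v = 0`.
`#{v : r v ≥ 1, #Ea v ≤ j} ≥ #{v : kept, #{u ∈ N v : l u < l v} ≤ j} - #{v : kept, some neighbour has
the same l}`, expectation `≥ τ (j+1)/(k+1) n - τ (k/T) n` (`rank_prob`), changed by at most `k + 1` by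
one coordinate: `tail` (T1) for it divided by `n`, costs `(k+1)/(2n)`. `tot`: number of kept
vertices; `size`: number of `v` with `l v = s`. All bounds hold with positive probability for
large `n`. -/
theorem labels (k : ℕ) (hk : 1 ≤ k) (τ η : ℝ) (hτ : 0 < τ) (hτ1 : τ < 1) (hη : 0 < η)
    (hη1 : η < 1) (T : ℕ) (hT : 1 ≤ T) (hkT : 4 * k ≤ η * T) :
    ∃ n0 : ℕ, ∀ n ≥ n0, ∀ A : Nb n, (∀ v, #(A.N v) ≤ k) →
      ∃ r : Fin n → ℕ, (∀ v, r v ≤ T) ∧ (∀ v, ∀ u ∈ A.N v, 1 ≤ r v → r u ≠ r v) ∧
        ∀ (B : Nb n) (α : ℝ), Lab ⟨A, B, α, r, T⟩ k τ η := by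
  classical
  have hT' : (0 : ℝ) < T := by exact_mod_cast hT
  set δ : ℝ := min (τ * η / 16) (1 / T) with hδdef
  have hδ : 0 < δ := lt_min (by positivity) (by positivity)
  have hδa : δ ≤ τ * η / 16 := min_le_left _ _
  have hδb : δ ≤ 1 / T := min_le_right _ _
  have hτη : τ * η ≤ 1 := by nlinarith
  have hδ1 : δ ≤ 1 := by linarith
  set c : ℝ := δ ^ 2 / (4 * (k + 1) ^ 2) with hc
  have hcpos : 0 < c := by positivity
  set K : ℝ := 2 * (k + T + 3) with hK
  refine ⟨⌈K / c⌉₊ + 1, fun n hn A hA => ?_⟩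
  have hn0 : 0 < n := by omega
  have hn' : (0 : ℝ) < n := by exact_mod_cast hn0
  have hKn : K ≤ c * n := by
    have h1 : K / c ≤ n := by
      refine (Nat.le_ceil _).trans ?_
      exact_mod_cast (by omega : ⌈K / c⌉₊ ≤ n)
    rw [div_le_iff₀ hcpos] at h1
    linarith
  have hexp : (k + T + 3 : ℝ) * (2 * Real.exp (-(δ ^ 2 * n / (4 * (k + 1) ^ 2)))) < 1 := by
    have h1 : δ ^ 2 * n / (4 * (k + 1) ^ 2) = c * n := by rw [hc]; ring
    rw [h1, Real.exp_neg]
    have h2 := Real.add_one_le_exp (c * n)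
    have h3 : K < Real.exp (c * n) := by linarith
    have h4 : 0 < Real.exp (c * n) := Real.exp_pos _
    rw [show (k + T + 3 : ℝ) * (2 * (Real.exp (c * n))⁻¹) = K / Real.exp (c * n) by
      rw [hK]; ring]
    rw [div_lt_one h4]
    exact h3
  -- first step: the labels
  have hμ : IsProb (fun (_ : Fin n) (_ : Fin T) => (1 : ℝ) / T) := by
    refine ⟨fun _ _ => by positivity, fun _ => ?_⟩
    rw [sum_const, card_univ, Fintype.card_fin, nsmul_eq_mul]
    field_simp
  obtain ⟨l, hl⟩ := LabBaux_exists hn0 hμ (univ : Finset (Option (Fin (k + 1) ⊕ Fin T)))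
    (fun x ω => (#(univ.filter fun v => LabBaux_Q A k T x ω v) : ℝ)) k
    (fun x _ i ω a b => LabBaux_count_abs A k hA (fun ω v => LabBaux_Q A k T x ω v)
      (fun v ω ω' h1 h2 => LabBaux_Q_loc A k T x v ω ω' h1 h2) i ω a b) hδ hδ1
    (by
      refine lt_of_le_of_lt (mul_le_mul_of_nonneg_right ?_ (by positivity)) hexp
      rw [card_univ, Fintype.card_option, Fintype.card_sum, Fintype.card_fin, Fintype.card_fin]
      push_cast
      linarith)
  -- the sets
  set C : Fin (k + 1) → Finset (Fin n) := fun j =>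
    univ.filter fun v => #((A.N v).filter fun u => l u < l v) ≤ j with hC
  set G : Finset (Fin n) := univ.filter fun v => ∃ u ∈ A.N v, l u = l v with hG
  have hCj : ∀ j : Fin (k + 1), (((j : ℕ) : ℝ) + 1) / (k + 1) * n - δ * n ≤ #(C j) := by
    intro j
    have h1 := (abs_lt.mp (hl (some (Sum.inl j)) (mem_univ _))).1
    rw [LabBaux_EE_count] at h1
    have h2 : (((j : ℕ) : ℝ) + 1) / (k + 1) * n ≤
        ∑ v, PP (fun (_ : Fin n) (_ : Fin T) => (1 : ℝ) / T)
          (fun ω => LabBaux_Q A k T (some (Sum.inl j)) ω v) := by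
      calc (((j : ℕ) : ℝ) + 1) / (k + 1) * n = ∑ _v : Fin n, (((j : ℕ) : ℝ) + 1) / (k + 1) := by
            rw [sum_const, card_univ, Fintype.card_fin, nsmul_eq_mul, mul_comm]
        _ ≤ _ := by
            refine sum_le_sum fun v _ => ?_
            exact rank_prob (fun _ => (1 : ℝ) / T) (fun _ => by positivity) (hμ.sum_one v)
              (A.N v) v (A.irr v) k j (hA v) (Nat.lt_succ_iff.mp j.2)
    have h3 : (#(univ.filter fun v => LabBaux_Q A k T (some (Sum.inl j)) l v) : ℝ) = #(C j) := by
      have h4 : (univ.filter fun v => LabBaux_Q A k T (some (Sum.inl j)) l v) = C j := by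
        ext v
        rw [hC, mem_filter, mem_filter]
        exact Iff.rfl
      rw [h4]
    linarith
  have hGc : (#G : ℝ) ≤ k / T * n + δ * n := by
    have h1 := (abs_lt.mp (hl none (mem_univ _))).2
    rw [LabBaux_EE_count] at h1
    have h2 : ∑ v, PP (fun (_ : Fin n) (_ : Fin T) => (1 : ℝ) / T)
          (fun ω => LabBaux_Q A k T none ω v) ≤ k / T * n := by
      calc _ ≤ ∑ _v : Fin n, (k : ℝ) / T := by
            refine sum_le_sum fun v _ => ?_
            refine (PP_exists_le hμ (A.N v) (fun u ω => ω u = ω v)).trans ?_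
            refine (sum_le_sum fun u hu => LabBaux_eq hT (u := u) (v := v) (by
              rintro rfl
              exact A.irr _ hu)).trans ?_
            rw [sum_const, nsmul_eq_mul]
            have : (#(A.N v) : ℝ) ≤ k := by exact_mod_cast hA v
            rw [mul_one_div]
            gcongr
        _ = _ := by rw [sum_const, card_univ, Fintype.card_fin, nsmul_eq_mul, mul_comm]
    have h3 : (#(univ.filter fun v => LabBaux_Q A k T none l v) : ℝ) = #G := by
      have h4 : (univ.filter fun v => LabBaux_Q A k T none l v) = G := by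
        ext v
        rw [hG, mem_filter, mem_filter]
        exact Iff.rfl
      rw [h4]
    linarith
  have hsz : ∀ s : Fin T, (#(univ.filter fun v => l v = s) : ℝ) ≤ 2 * n / T := by
    intro s
    have h1 := (abs_lt.mp (hl (some (Sum.inr s)) (mem_univ _))).2
    rw [LabBaux_EE_count] at h1
    have h2 : ∑ v, PP (fun (_ : Fin n) (_ : Fin T) => (1 : ℝ) / T)
          (fun ω => LabBaux_Q A k T (some (Sum.inr s)) ω v) = 1 / T * n := by
      calc _ = ∑ _v : Fin n, (1 : ℝ) / T := by
            refine sum_congr rfl fun v _ => ?_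
            refine (Pool.Agent.Helper5.AVD.PP_coord hμ v (fun x => x = s)).trans ?_
            simp
        _ = _ := by rw [sum_const, card_univ, Fintype.card_fin, nsmul_eq_mul, mul_comm]
    have h3 : (#(univ.filter fun v => LabBaux_Q A k T (some (Sum.inr s)) l v) : ℝ) =
      #(univ.filter fun v => l v = s) := by
      have h4 : (univ.filter fun v => LabBaux_Q A k T (some (Sum.inr s)) l v) =
          univ.filter fun v => l v = s := by
        ext v
        rw [mem_filter, mem_filter]
        exact Iff.rfl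
      rw [h4]
    have h4 : δ * n ≤ 1 / T * n := mul_le_mul_of_nonneg_right hδb hn'.le
    have h5 : 2 * (n : ℝ) / T = 1 / T * n + 1 / T * n := by ring
    linarith
  -- second step: the bits
  have hμ2 : IsProb (fun (_ : Fin n) (b : Bool) => if b then τ else 1 - τ) := by
    refine ⟨fun _ b => ?_, fun _ => ?_⟩
    · cases b
      · simp only [Bool.false_eq_true, if_false]
        linarith
      · simp only [if_true]
        exact hτ.le
    · rw [Fintype.sum_bool]
      simp
  let S : Option (Option (Fin (k + 1))) → Finset (Fin n) := fun x =>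
    match x with
    | none => univ
    | some none => G
    | some (some j) => C j
  obtain ⟨b, hb⟩ := LabBaux_exists hn0 hμ2 (univ : Finset (Option (Option (Fin (k + 1)))))
    (fun x ω => (#(univ.filter fun v => v ∈ S x ∧ ω v = true) : ℝ)) k
    (fun x _ i ω a b => LabBaux_count_abs A k hA (fun ω v => v ∈ S x ∧ ω v = true)
      (fun v ω ω' h1 h2 => ⟨h2.1, by rw [← h1 v (mem_insert_self _ _)]; exact h2.2⟩) i ω a b) hδ hδ1
    (by
      refine lt_of_le_of_lt (mul_le_mul_of_nonneg_right ?_ (by positivity)) hexp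
      rw [card_univ, Fintype.card_option, Fintype.card_option, Fintype.card_fin]
      push_cast
      linarith)
  have hES : ∀ x, EE (fun (_ : Fin n) (b : Bool) => if b then τ else 1 - τ)
      (fun ω => (#(univ.filter fun v => v ∈ S x ∧ ω v = true) : ℝ)) = τ * #(S x) := by
    intro x
    rw [LabBaux_EE_count]
    have h1 : ∀ v, PP (fun (_ : Fin n) (b : Bool) => if b then τ else 1 - τ)
        (fun ω => v ∈ S x ∧ ω v = true) = if v ∈ S x then τ else 0 := by
      intro v
      by_cases hv : v ∈ S x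
      · rw [if_pos hv]
        rw [PP_congr (B := fun ω => ω v = true) (fun ω => by simp [hv])]
        rw [Pool.Agent.Helper5.AVD.PP_coord hμ2 v (fun x => x = true)]
        rw [Fintype.sum_bool]
        simp
      · rw [if_neg hv]
        rw [PP_congr (B := fun _ => False) (fun ω => by simp [hv])]
        unfold PP
        simp [EE]
    simp only [h1]
    rw [sum_ite_mem, univ_inter, sum_const, nsmul_eq_mul, mul_comm]
  have hbS : ∀ x, |(#(univ.filter fun v => v ∈ S x ∧ b v = true) : ℝ) - τ * #(S x)| < δ * n := by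
    intro x
    rw [← hES x]
    exact hb x (mem_univ _)
  have hbU : (#(univ.filter fun v => b v = true) : ℝ) ≤ τ * n + δ * n := by
    have h1 := (abs_lt.mp (hbS none)).2
    have h2 : (univ.filter fun v => v ∈ S none ∧ b v = true) =
        univ.filter fun v => b v = true := by
      apply filter_congr
      intro v _
      exact ⟨fun h => h.2, fun h => ⟨mem_univ _, h⟩⟩
    have h3 : (#(S none) : ℝ) = n := by
      change (#(univ : Finset (Fin n)) : ℝ) = n
      rw [card_univ, Fintype.card_fin]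
    rw [h2, h3] at h1
    linarith
  have hbG : (#(univ.filter fun v => v ∈ G ∧ b v = true) : ℝ) ≤ τ * #G + δ * n := by
    have h1 := (abs_lt.mp (hbS (some none))).2
    change (#(univ.filter fun v => v ∈ G ∧ b v = true) : ℝ) - τ * #G < δ * n at h1
    linarith
  have hbC : ∀ j, τ * #(C j) - δ * n ≤ #(univ.filter fun v => v ∈ C j ∧ b v = true) := by
    intro j
    have h1 := (abs_lt.mp (hbS (some (some j)))).1
    change -(δ * n) < (#(univ.filter fun v => v ∈ C j ∧ b v = true) : ℝ) - τ * #(C j) at h1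
    linarith
  -- the final labels
  set r : Fin n → ℕ := fun v => if b v = true ∧ v ∉ G then (l v : ℕ) + 1 else 0 with hr
  have hr1 : ∀ v, 1 ≤ r v → b v = true ∧ v ∉ G ∧ r v = (l v : ℕ) + 1 := by
    intro v hv
    by_cases h : b v = true ∧ v ∉ G
    · exact ⟨h.1, h.2, if_pos h⟩
    · have : r v = 0 := if_neg h
      omega
  refine ⟨r, fun v => ?_, fun v u hu hv huv => ?_, fun B α => ?_⟩
  · by_cases h : b v = true ∧ v ∉ G
    · have h1 : r v = (l v : ℕ) + 1 := if_pos h
      rw [h1]
      exact (l v).2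
    · have : r v = 0 := if_neg h
      omega
  · obtain ⟨_, h2, h3⟩ := hr1 v hv
    obtain ⟨_, _, h6⟩ := hr1 u (by omega)
    apply h2
    rw [hG, mem_filter]
    refine ⟨mem_univ _, u, hu, ?_⟩
    apply Fin.ext
    omega
  · refine ⟨?_, ?_, ?_⟩
    · intro j hj
      have hj' : j < k + 1 := Nat.lt_succ_of_le hj
      have hsub : (univ.filter fun v => v ∈ C ⟨j, hj'⟩ ∧ b v = true) ⊆
          (univ.filter fun v => 1 ≤ r v ∧ #(Ea (⟨A, B, α, r, T⟩ : Dat n) v) ≤ j) ∪
            (univ.filter fun v => v ∈ G ∧ b v = true) := by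
        intro v hv
        rw [mem_filter] at hv
        rw [mem_union, mem_filter, mem_filter]
        by_cases hvG : v ∈ G
        · exact Or.inr ⟨mem_univ _, hvG, hv.2.2⟩
        · left
          have h1 : r v = (l v : ℕ) + 1 := if_pos ⟨hv.2.2, hvG⟩
          refine ⟨mem_univ _, by omega, ?_⟩
          have h2 : #((A.N v).filter fun u => l u < l v) ≤ j := by
            have := hv.2.1
            rw [hC, mem_filter] at this
            exact this.2
          refine le_trans (card_le_card ?_) h2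
          intro u hu
          unfold Ea at hu
          rw [mem_filter] at hu ⊢
          refine ⟨hu.1, ?_⟩
          obtain ⟨_, _, h5⟩ := hr1 u hu.2.1
          have h6 : r u < r v := hu.2.2
          apply Fin.lt_def.mpr
          omega
      have h1 : (#(univ.filter fun v => v ∈ C ⟨j, hj'⟩ ∧ b v = true) : ℝ) ≤
          #(univ.filter fun v => 1 ≤ r v ∧ #(Ea (⟨A, B, α, r, T⟩ : Dat n) v) ≤ j) +
            #(univ.filter fun v => v ∈ G ∧ b v = true) := by
        exact_mod_cast (card_le_card hsub).trans (card_union_le _ _)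
      have h2 := hbC ⟨j, hj'⟩
      have h3 : ((j : ℝ) + 1) / (k + 1) * n - δ * n ≤ #(C ⟨j, hj'⟩) := hCj ⟨j, hj'⟩
      have h4 : τ * (((j : ℝ) + 1) / (k + 1) * n - δ * n) ≤ τ * #(C ⟨j, hj'⟩) :=
        mul_le_mul_of_nonneg_left h3 hτ.le
      have h5 : τ * #G ≤ τ * (k / T * n + δ * n) := mul_le_mul_of_nonneg_left hGc hτ.le
      have h6 : (k : ℝ) / T ≤ η / 4 := by
        rw [div_le_iff₀ hT']
        linarith
      have h7 : τ * (k / T * n + δ * n) ≤ τ * (η / 4 * n + δ * n) := by gcongr
      have h8 : τ * (δ * n) ≤ δ * n := by nlinarith [mul_pos hδ hn']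
      have h9 : δ * n ≤ τ * η / 16 * n := mul_le_mul_of_nonneg_right hδa hn'.le
      have h10 : 0 ≤ τ * η * n := by positivity
      change τ * (((j : ℝ) + 1) / (k + 1) - η) * n ≤
        #(univ.filter fun v => 1 ≤ r v ∧ #(Ea (⟨A, B, α, r, T⟩ : Dat n) v) ≤ j)
      nlinarith
    · change (#(univ.filter fun v => 1 ≤ r v) : ℝ) ≤ τ * (1 + η) * n
      have hsub : (univ.filter fun v => 1 ≤ r v) ⊆ (univ.filter fun v => b v = true) := by
        intro v hv
        rw [mem_filter] at hv ⊢
        exact ⟨mem_univ _, (hr1 v hv.2).1⟩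
      have h1 : (#(univ.filter fun v => 1 ≤ r v) : ℝ) ≤ #(univ.filter fun v => b v = true) := by
        exact_mod_cast card_le_card hsub
      have h9 : δ * n ≤ τ * η / 16 * n := mul_le_mul_of_nonneg_right hδa hn'.le
      have h10 : 0 ≤ τ * η * n := by positivity
      nlinarith
    · intro s hs
      change (#(univ.filter fun v => r v = s) : ℝ) ≤ 2 * n / T
      by_cases hsT : s ≤ T
      · have hs' : s - 1 < T := by omega
        refine le_trans ?_ (hsz ⟨s - 1, hs'⟩)
        have hsub : (univ.filter fun v => r v = s) ⊆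
            (univ.filter fun v => l v = ⟨s - 1, hs'⟩) := by
          intro v hv
          rw [mem_filter] at hv ⊢
          refine ⟨mem_univ _, ?_⟩
          obtain ⟨_, _, h3⟩ := hr1 v (by omega)
          apply Fin.ext
          change (l v : ℕ) = s - 1
          omega
        exact_mod_cast card_le_card hsub
      · have h0 : (univ.filter fun v => r v = s) = ∅ := by
          rw [filter_eq_empty_iff]
          intro v _ hv
          obtain ⟨_, _, h3⟩ := hr1 v (by omega)
          have := (l v).2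
          omega
        rw [h0, card_empty]
        have : (0 : ℝ) ≤ 2 * n / T := by positivity
        exact_mod_cast this

end Pool.Agent.Helper5.BEC.C
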