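import Pool.Agent.Helper5.BEC.C.Defs
/-! Stage C, piece Bal: balls. -/
set_option autoImplicit false
namespace Pool.Agent.Helper5.BEC.C
open Finset Pool.Agent.Helper61.LE Pool.Agent.Helper5.BEC

variable {n k : ℕ} {A : Nb n}

private theorem mem_bal_succ {j : ℕ} {u v : Fin n} :
    u ∈ bal A (j + 1) v ↔ u ∈ bal A j v ∨ ∃ p ∈ bal A j v, u ∈ A.N p := by
  rw [bal, Finset.mem_union, Finset.mem_biUnion]

theorem mem_bal_self (j : ℕ) (v : Fin n) : v ∈ bal A j v := by
  induction j with
  | zero => exact Finset.mem_singleton_self v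
  | succ j ih => exact mem_bal_succ.2 (Or.inl ih)

theorem bal_mono {i j : ℕ} (h : i ≤ j) (v : Fin n) : bal A i v ⊆ bal A j v := by
  induction j, h using Nat.le_induction with
  | base => exact Finset.Subset.refl _
  | succ j _ ih => exact fun u hu => mem_bal_succ.2 (Or.inl (ih hu))

theorem bal_nbr {j : ℕ} {u v p : Fin n} (h : u ∈ bal A j v) (hp : p ∈ A.N u) :
    p ∈ bal A (j + 1) v := mem_bal_succ.2 (Or.inr ⟨u, h, hp⟩)

theorem bal_one (v : Fin n) : bal A 1 v = insert v (A.N v) := by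
  ext u
  rw [mem_bal_succ, Finset.mem_insert]
  have h0 : bal A 0 v = {v} := rfl
  rw [h0]
  simp only [Finset.mem_singleton, exists_eq_left]

theorem bal_card (hA : ∀ v, #(A.N v) ≤ k) (j : ℕ) (v : Fin n) :
    #(bal A j v) ≤ (k + 1) ^ j := by
  induction j with
  | zero =>
    have h0 : bal A 0 v = {v} := rfl
    rw [h0, Finset.card_singleton, pow_zero]
  | succ j ih =>
    rw [bal]
    have h1 : #((bal A j v).biUnion A.N) ≤ #(bal A j v) * k :=
      Finset.card_biUnion_le_card_mul _ _ _ (fun u _ => hA u)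
    have h2 : #(bal A j v ∪ (bal A j v).biUnion A.N) ≤
        #(bal A j v) + #((bal A j v).biUnion A.N) := Finset.card_union_le _ _
    calc #(bal A j v ∪ (bal A j v).biUnion A.N) ≤ #(bal A j v) + #(bal A j v) * k :=
          h2.trans (Nat.add_le_add_left h1 _)
      _ = #(bal A j v) * (k + 1) := by ring
      _ ≤ (k + 1) ^ j * (k + 1) := Nat.mul_le_mul_right _ ih
      _ = (k + 1) ^ (j + 1) := (pow_succ _ _).symm

private theorem mem_bal_succ' {j : ℕ} {u v : Fin n} :
    u ∈ bal A (j + 1) v ↔ u ∈ bal A j v ∨ ∃ q ∈ A.N v, u ∈ bal A j q := by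
  induction j generalizing u v with
  | zero =>
    rw [mem_bal_succ]
    have h0 : ∀ w : Fin n, bal A 0 w = {w} := fun _ => rfl
    simp only [h0, Finset.mem_singleton, exists_eq_left]
    constructor
    · rintro (h | h)
      · exact Or.inl h
      · exact Or.inr ⟨u, h, rfl⟩
    · rintro (h | ⟨q, hq, rfl⟩)
      · exact Or.inl h
      · exact Or.inr hq
  | succ j ih =>
    rw [mem_bal_succ]
    constructor
    · rintro (h | ⟨p, hp, hu⟩)
      · exact Or.inl h
      · rcases ih.1 hp with h | ⟨q, hq, hpq⟩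
        · exact Or.inl (bal_nbr h hu)
        · exact Or.inr ⟨q, hq, bal_nbr hpq hu⟩
    · rintro (h | ⟨q, hq, hu⟩)
      · exact Or.inl h
      · rcases mem_bal_succ.1 hu with h | ⟨p, hp, hup⟩
        · exact Or.inl (ih.2 (Or.inr ⟨q, hq, h⟩))
        · exact Or.inr ⟨p, ih.2 (Or.inr ⟨q, hq, hp⟩), hup⟩

/-- first show `bal A (j+1) v = bal A j v ∪ (A.N v).biUnion (bal A j)` -/
theorem bal_symm {j : ℕ} {u v : Fin n} (h : u ∈ bal A j v) : v ∈ bal A j u := by
  induction j generalizing u v with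
  | zero =>
    have h0 : ∀ w : Fin n, bal A 0 w = {w} := fun _ => rfl
    rw [h0, Finset.mem_singleton] at h ⊢
    exact h.symm
  | succ j ih =>
    rcases mem_bal_succ.1 h with h1 | ⟨p, hp, hu⟩
    · exact mem_bal_succ.2 (Or.inl (ih h1))
    · exact mem_bal_succ'.2 (Or.inr ⟨p, A.symm _ _ hu, ih hp⟩)

end Pool.Agent.Helper5.BEC.C
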