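import Pool.Agent.Helper5.BEC.C.Defs
/-! Stage C, piece Hyb: comparison of two product laws. -/
set_option autoImplicit false
namespace Pool.Agent.Helper5.BEC.C
open Finset Pool.Agent.Helper61.LE Pool.Agent.Helper5.BEC

variable {ι Ω : Type*} [Fintype ι] [DecidableEq ι] [Fintype Ω] [DecidableEq Ω]
variable {μ μ' : ι → Ω → ℝ}

theorem hybaux_law_congr (h : IsProb μ) (h' : IsProb μ') (S : Finset ι) (f : (ι → Ω) → ℝ)
    (hf : Dep f S) (he : ∀ u ∈ S, μ u = μ' u) : EE μ f = EE μ' f := by
  have e1 : EE μ f = ∑ ω, ∑ ω', wt μ ω * wt μ' ω' * f ω := by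
    unfold EE
    refine sum_congr rfl fun ω _ => ?_
    rw [← sum_mul, ← mul_sum, sum_wt h', mul_one]
  have e2 : EE μ' f = ∑ ω, ∑ ω', wt μ' ω * wt μ ω' * f ω := by
    unfold EE
    refine sum_congr rfl fun ω _ => ?_
    rw [← sum_mul, ← mul_sum, sum_wt h, mul_one]
  rw [e1, e2, ← Fintype.sum_prod_type', ← Fintype.sum_prod_type']
  symm
  refine Fintype.sum_equiv (mixEquiv S) _ _ fun p => ?_
  simp only [mixEquiv, Equiv.coe_fn_mk]
  have e3 : f (mix S p.1 p.2) = f p.1 := hf _ _ (fun i hi => mix_mem hi)
  rw [e3]
  congr 1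
  unfold wt
  rw [← prod_mul_distrib, ← prod_mul_distrib]
  refine prod_congr rfl fun i _ => ?_
  by_cases hi : i ∈ S
  · rw [mix_mem hi, mix_mem hi, he i hi]
  · rw [mix_not_mem hi, mix_not_mem hi, mul_comm]

theorem hybaux_step (h : IsProb μ) (h' : IsProb μ') (u : ι) (hne : ∀ v, v ≠ u → μ v = μ' v)
    (f : (ι → Ω) → ℝ) (e : ℝ)
    (he : ∀ ω, |∑ a, (μ u a - μ' u a) * f (Function.update ω u a)| ≤ e) :
    |EE μ f - EE μ' f| ≤ e := by
  have e1 := EE_resample h u f
  have e2 := EE_resample h' u f
  have e3 : EE μ' (fun ω => ∑ a, μ' u a * f (Function.update ω u a)) =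
      EE μ (fun ω => ∑ a, μ' u a * f (Function.update ω u a)) := by
    refine hybaux_law_congr h' h (univ.erase u) _ ?_ ?_
    · intro ω ω' hω
      refine sum_congr rfl fun a _ => ?_
      have : Function.update ω u a = Function.update ω' u a := by
        ext j
        by_cases hj : j = u
        · subst hj
          simp
        · rw [Function.update_of_ne hj, Function.update_of_ne hj]
          exact hω j (by simp [hj])
      rw [this]
    · intro v hv
      exact (hne v (by simpa using hv)).symm
  rw [← e1, ← e2, e3, ← EE_sub]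
  have e4 : ∀ ω : ι → Ω, ∑ a, μ u a * f (Function.update ω u a) -
      ∑ a, μ' u a * f (Function.update ω u a) =
      ∑ a, (μ u a - μ' u a) * f (Function.update ω u a) := by
    intro ω
    rw [← sum_sub_distrib]
    exact sum_congr rfl fun a _ => by ring
  simp only [e4]
  rw [abs_le]
  constructor
  · have := EE_mono h (f := fun _ => -e)
      (g := fun ω => ∑ a, (μ u a - μ' u a) * f (Function.update ω u a))
      (fun ω => (abs_le.1 (he ω)).1)
    rwa [EE_const h] at this
  · have := EE_mono h (g := fun _ => e)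
      (f := fun ω => ∑ a, (μ u a - μ' u a) * f (Function.update ω u a))
      (fun ω => (abs_le.1 (he ω)).2)
    rwa [EE_const h] at this

theorem hybaux_mixed (h : IsProb μ) (h' : IsProb μ') (T : Finset ι) :
    IsProb (fun i => if i ∈ T then μ' i else μ i) := by
  constructor
  · intro i a
    by_cases hi : i ∈ T
    · simpa [hi] using h'.nonneg i a
    · simpa [hi] using h.nonneg i a
  · intro i
    by_cases hi : i ∈ T
    · simpa [hi] using h'.sum_one i
    · simpa [hi] using h.sum_one i

/-- Replace the laws of the coordinates in `S` one by one; `EE_resample` at the coordinate `u`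
for both laws, the inner sum does not depend on the coordinate `u`. The laws of the coordinates
outside `S` do not matter (`Dep f S`). -/
theorem hybrid (h : IsProb μ) (h' : IsProb μ') (S : Finset ι) (f : (ι → Ω) → ℝ) (hf : Dep f S)
    (e : ι → ℝ)
    (he : ∀ u ∈ S, ∀ ω, |∑ a, (μ u a - μ' u a) * f (Function.update ω u a)| ≤ e u) :
    |EE μ f - EE μ' f| ≤ ∑ u ∈ S, e u := by
  have key : ∀ T : Finset ι, T ⊆ S →
      |EE μ f - EE (fun i => if i ∈ T then μ' i else μ i) f| ≤ ∑ u ∈ T, e u := by
    intro T
    induction T using Finset.induction_on with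
    | empty =>
      intro _
      simp
    | insert u T hu ih =>
      intro hT
      have h1 := ih (fun x hx => hT (mem_insert_of_mem hx))
      have h2 : |EE (fun i => if i ∈ T then μ' i else μ i) f -
          EE (fun i => if i ∈ insert u T then μ' i else μ i) f| ≤ e u := by
        refine hybaux_step (hybaux_mixed h h' T) (hybaux_mixed h h' (insert u T)) u ?_ f (e u) ?_
        · intro v hv
          simp [hv]
        · intro ω
          have := he u (hT (mem_insert_self u T)) ω
          simpa [hu] using this
      rw [sum_insert hu]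
      have h3 := abs_sub_le (EE μ f) (EE (fun i => if i ∈ T then μ' i else μ i) f)
        (EE (fun i => if i ∈ insert u T then μ' i else μ i) f)
      linarith
  have h1 := key S (fun _ hx => hx)
  have h2 : EE (fun i => if i ∈ S then μ' i else μ i) f = EE μ' f :=
    hybaux_law_congr (hybaux_mixed h h' S) h' S f hf (fun u hu => by simp [hu])
  rwa [h2] at h1

theorem EE_law_congr (h : IsProb μ) (h' : IsProb μ') (S : Finset ι) (f : (ι → Ω) → ℝ)
    (hf : Dep f S) (he : ∀ u ∈ S, μ u = μ' u) : EE μ f = EE μ' f :=
  hybaux_law_congr h h' S f hf he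

end Pool.Agent.Helper5.BEC.C
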