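import Pool.Agent.Helper5.BEC.C.Kuhn
/-! Stage C, piece Brouwer: Brouwer's fixed point theorem for cubes; variational inequality. -/
set_option autoImplicit false
namespace Pool.Agent.Helper5.BEC.C

namespace BrouwerAux

/-- the point of the cube with grid coordinates `p` -/
noncomputable def pt {m : ℕ} (N : ℕ) (p : Fin m → ℕ) : Fin m → ℝ := fun i => (p i : ℝ) / N

open Classical in
/-- the label -/
noncomputable def labl {m : ℕ} (g : (Fin m → ℝ) → Fin m → ℝ) (N : ℕ) (p : Fin m → ℕ) : ℕ :=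
  Finset.univ.sup fun i : Fin m =>
    if 1 ≤ p i ∧ g (pt N p) i ≤ pt N p i then (i : ℕ) + 1 else 0

theorem labl_le {m : ℕ} (g : (Fin m → ℝ) → Fin m → ℝ) (N : ℕ) (p : Fin m → ℕ) :
    labl g N p ≤ m := by
  apply Finset.sup_le
  intro i _
  have := i.2
  split_ifs <;> omega

theorem labl_ge {m : ℕ} (g : (Fin m → ℝ) → Fin m → ℝ) (N : ℕ) (p : Fin m → ℕ) (i : Fin m)
    (h : 1 ≤ p i ∧ g (pt N p) i ≤ pt N p i) : (i : ℕ) + 1 ≤ labl g N p := by
  classical
  have := Finset.le_sup (f := fun i : Fin m =>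
    if 1 ≤ p i ∧ g (pt N p) i ≤ pt N p i then (i : ℕ) + 1 else 0) (Finset.mem_univ i)
  simp only [if_pos h] at this
  unfold labl
  convert this using 3

theorem labl_eq {m : ℕ} (g : (Fin m → ℝ) → Fin m → ℝ) (N : ℕ) (p : Fin m → ℕ) (i : Fin m)
    (h : labl g N p = (i : ℕ) + 1) : 1 ≤ p i ∧ g (pt N p) i ≤ pt N p i := by
  classical
  obtain ⟨j, _, hj⟩ := Finset.exists_mem_eq_sup Finset.univ ⟨i, Finset.mem_univ i⟩
    (fun i : Fin m => if 1 ≤ p i ∧ g (pt N p) i ≤ pt N p i then (i : ℕ) + 1 else 0)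
  have h' : Finset.univ.sup (fun i : Fin m =>
      if 1 ≤ p i ∧ g (pt N p) i ≤ pt N p i then (i : ℕ) + 1 else 0) = (i : ℕ) + 1 := by
    rw [← h]
    unfold labl
    congr 1
  rw [h'] at hj
  split_ifs at hj with hx
  have e : i = j := Fin.ext (by omega)
  rw [e]
  exact hx

theorem labl_zero {m : ℕ} (g : (Fin m → ℝ) → Fin m → ℝ) (N : ℕ) (p : Fin m → ℕ)
    (h : labl g N p = 0) (hg : ∀ i, 0 ≤ g (pt N p) i) (i : Fin m) :
    pt N p i ≤ g (pt N p) i := by
  by_contra hcon
  push Not at hcon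
  have h1 : ¬ (1 ≤ p i ∧ g (pt N p) i ≤ pt N p i) := by
    intro hx
    have := labl_ge g N p i hx
    omega
  have h2 : p i = 0 := by
    by_contra h3
    exact h1 ⟨by omega, hcon.le⟩
  have h3 : pt N p i = 0 := by
    unfold pt
    rw [h2]
    simp
  have := hg i
  linarith

theorem pt_mem {m : ℕ} {N : ℕ} (hN : 1 ≤ N) {p : Fin m → ℕ} (hp : ∀ i, p i ≤ N) (i : Fin m) :
    0 ≤ pt N p i ∧ pt N p i ≤ 1 := by
  have hN' : (0 : ℝ) < N := by exact_mod_cast hN
  refine ⟨by unfold pt; positivity, ?_⟩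
  unfold pt
  rw [div_le_one hN']
  exact_mod_cast hp i

end BrouwerAux

open BrouwerAux Filter Topology in
/-- For every `N ≥ 1` label the grid point `p` by the largest `i + 1` with `p i > 0` and
`g (p/N) i ≤ p i / N`, and by `0` if there is none; `kuhn`; a subsequence of the points `q i / N`
converges to one `x` (compactness), `g x i ≤ x i` from the label `i+1`, `x i ≤ g x i` from the
label `0`. -/
theorem brouwer (m : ℕ) (g : (Fin m → ℝ) → Fin m → ℝ) (hg : Continuous g)
    (h : ∀ x, (∀ i, 0 ≤ x i ∧ x i ≤ 1) → ∀ i, 0 ≤ g x i ∧ g x i ≤ 1) :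
    ∃ x, (∀ i, 0 ≤ x i ∧ x i ≤ 1) ∧ g x = x := by
  have hk : ∀ n : ℕ, ∃ q : Fin (m + 1) → (Fin m → ℕ), (∀ i j, q i j ≤ n + 1) ∧
      (∀ i i' j, q i j ≤ q i' j + 1) ∧ ∀ i, labl g (n + 1) (q i) = i := by
    intro n
    apply kuhn m (n + 1) (by omega) (labl g (n + 1)) (labl_le g (n + 1))
    · intro p _ i hi he
      have := (labl_eq g (n + 1) p i he).1
      omega
    · intro p hp i hi
      apply labl_ge
      refine ⟨by omega, ?_⟩
      have h1 : pt (n + 1) p i = 1 := by
        unfold pt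
        rw [hi]
        exact div_self (by positivity)
      rw [h1]
      exact (h _ (fun j => pt_mem (by omega) hp j) i).2
  choose q hq1 hq2 hq3 using hk
  have hcomp : IsCompact (Set.Icc (0 : Fin m → ℝ) 1) := isCompact_Icc
  have hmem : ∀ n, pt (n + 1) (q n 0) ∈ Set.Icc (0 : Fin m → ℝ) 1 := by
    intro n
    rw [Set.mem_Icc]
    exact ⟨fun i => (pt_mem (by omega) (hq1 n 0) i).1, fun i => (pt_mem (by omega) (hq1 n 0) i).2⟩
  obtain ⟨x, hx, φ, hφ, hlim⟩ := hcomp.tendsto_subseq hmem
  have hN : Tendsto (fun n => (1 : ℝ) / ((φ n : ℝ) + 1)) atTop (𝓝 0) :=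
    (tendsto_one_div_add_atTop_nhds_zero_nat (𝕜 := ℝ)).comp hφ.tendsto_atTop
  have hall : ∀ k : Fin (m + 1), Tendsto (fun n => pt (φ n + 1) (q (φ n) k)) atTop (𝓝 x) := by
    intro k
    rw [tendsto_pi_nhds]
    intro i
    have h1 : Tendsto (fun n => pt (φ n + 1) (q (φ n) 0) i) atTop (𝓝 (x i)) :=
      (tendsto_pi_nhds.1 hlim) i
    have h2 : Tendsto (fun n => pt (φ n + 1) (q (φ n) k) i - pt (φ n + 1) (q (φ n) 0) i)
        atTop (𝓝 0) := by
      apply squeeze_zero_norm _ hN
      intro n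
      have hp : (0 : ℝ) < (φ n : ℝ) + 1 := by positivity
      have e1 : ((q (φ n) k i : ℕ) : ℝ) ≤ (q (φ n) 0 i : ℕ) + 1 := by
        exact_mod_cast hq2 (φ n) k 0 i
      have e2 : ((q (φ n) 0 i : ℕ) : ℝ) ≤ (q (φ n) k i : ℕ) + 1 := by
        exact_mod_cast hq2 (φ n) 0 k i
      unfold pt
      push_cast
      rw [← sub_div, norm_div, Real.norm_eq_abs, Real.norm_eq_abs, abs_of_pos hp]
      apply div_le_div_of_nonneg_right _ hp.le
      rw [abs_le]
      constructor <;> linarith
    have h3 := h2.add h1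
    simpa using h3
  have hgl : ∀ k : Fin (m + 1),
      Tendsto (fun n => g (pt (φ n + 1) (q (φ n) k))) atTop (𝓝 (g x)) := by
    intro k
    exact (hg.tendsto x).comp (hall k)
  refine ⟨x, fun i => ⟨hx.1 i, hx.2 i⟩, ?_⟩
  funext i
  apply le_antisymm
  · have a1 := (tendsto_pi_nhds.1 (hgl i.succ)) i
    have a2 := (tendsto_pi_nhds.1 (hall i.succ)) i
    refine le_of_tendsto_of_tendsto' a1 a2 (fun n => ?_)
    have := hq3 (φ n) i.succ
    rw [Fin.val_succ] at this
    exact (labl_eq g _ _ i this).2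
  · have a1 := (tendsto_pi_nhds.1 (hgl 0)) i
    have a2 := (tendsto_pi_nhds.1 (hall 0)) i
    refine le_of_tendsto_of_tendsto' a2 a1 (fun n => ?_)
    have := hq3 (φ n) 0
    rw [Fin.val_zero] at this
    exact labl_zero g _ _ this
      (fun j => (h _ (fun j => pt_mem (by omega) (hq1 (φ n) 0) j) j).1) i

/-- `brouwer` for `x ↦ clip (x - F x)`, scaled to the cube `[0,1]^m`. -/
theorem vi (m : ℕ) (F : (Fin m → ℝ) → Fin m → ℝ) (hF : Continuous F) (L : ℝ) (hL : 0 < L) :
    ∃ x : Fin m → ℝ, (∀ z, 0 ≤ x z ∧ x z ≤ L) ∧ (∀ z, 0 < x z → F x z ≤ 0) ∧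
      (∀ z, x z < L → 0 ≤ F x z) := by
  obtain ⟨y, hy, he⟩ := brouwer m
    (fun y i => max 0 (min 1 (y i - F (fun j => L * y j) i)))
    (by
      apply continuous_pi
      intro i
      have h1 : Continuous fun y : Fin m → ℝ => F (fun j => L * y j) i := by
        have h2 : Continuous fun y : Fin m → ℝ => F (fun j => L * y j) :=
          hF.comp (continuous_pi fun j => continuous_const.mul (continuous_apply j))
        exact (continuous_apply i).comp h2
      exact continuous_const.max (continuous_const.min ((continuous_apply i).sub h1)))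
    (by
      intro x _ i
      exact ⟨le_max_left _ _, max_le zero_le_one (min_le_left _ _)⟩)
  have he' : ∀ i, max 0 (min 1 (y i - F (fun j => L * y j) i)) = y i := fun i => congrFun he i
  refine ⟨fun j => L * y j, ?_, ?_, ?_⟩
  · intro z
    have := hy z
    exact ⟨mul_nonneg hL.le this.1, by nlinarith [this.2]⟩
  · intro z hz
    simp only at hz
    have hyz : 0 < y z := by
      by_contra hcon
      push Not at hcon
      have := mul_nonpos_of_nonneg_of_nonpos hL.le hcon
      linarith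
    by_contra hcon
    push Not at hcon
    have h1 := he' z
    have h2 : min 1 (y z - F (fun j => L * y j) z) ≤ y z - F (fun j => L * y j) z :=
      min_le_right _ _
    have h3 : max 0 (min 1 (y z - F (fun j => L * y j) z)) < y z := by
      apply max_lt hyz
      linarith
    linarith
  · intro z hz
    simp only at hz
    have hyz : y z < 1 := by
      by_contra hcon
      push Not at hcon
      have := mul_le_mul_of_nonneg_left hcon hL.le
      linarith
    by_contra hcon
    push Not at hcon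
    have h1 := he' z
    have h3 : y z < min 1 (y z - F (fun j => L * y j) z) := by
      apply lt_min hyz
      linarith
    have h4 := le_max_right 0 (min 1 (y z - F (fun j => L * y j) z))
    linarith

end Pool.Agent.Helper5.BEC.C
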