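import Pool.Agent.Helper5.BEC.C.Defs
/-! Stage C, piece Cont: the loads depend continuously on the weights. -/
set_option autoImplicit false
namespace Pool.Agent.Helper5.BEC.C
open Finset Pool.Agent.Helper61.LE Pool.Agent.Helper5.BEC

variable {n : ℕ}

theorem ker_cont (D : Dat n) (X : Finset (Fin n)) (z : Fin n) :
    Continuous (fun x : Fin n → ℝ => ker D (fun y => Real.exp (x y)) X z) := by
  unfold ker
  by_cases hz : z ∈ Av D.B X
  · simp only [hz, if_true]
    have h1 : Continuous (fun x : Fin n → ℝ => Real.exp (x z)) :=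
      Real.continuous_exp.comp (continuous_apply z)
    have h2 : Continuous (fun x : Fin n → ℝ => ∑ y ∈ Av D.B X, Real.exp (x y)) :=
      continuous_finset_sum _ fun y _ => Real.continuous_exp.comp (continuous_apply y)
    have h3 : ∀ x : Fin n → ℝ, ∑ y ∈ Av D.B X, Real.exp (x y) ≠ 0 := fun x =>
      (Finset.sum_pos (fun y _ => Real.exp_pos _) ⟨z, hz⟩).ne'
    exact ((continuous_const.mul h1).div h2 h3).add continuous_const
  · simp only [hz, if_false]
    exact continuous_const

theorem idl_cont (D : Dat n) (s : ℕ) (φ : Cf n) (u : Fin n) (o : Option (Fin n)) :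
    Continuous (fun x : Fin n → ℝ => idl D (fun y => Real.exp (x y)) s φ u o) := by
  unfold idl
  by_cases h : D.r u = s
  · simp only [h, if_true]
    cases o with
    | none => exact continuous_const
    | some z => exact ker_cont D _ z
  · simp only [h, if_false]
    exact continuous_const

theorem Kop_cont (D : Dat n) (s : ℕ) (G : (Fin n → ℝ) → Cf n → ℝ)
    (hG : ∀ φ, Continuous (fun x => G x φ)) (φ : Cf n) :
    Continuous (fun x : Fin n → ℝ => Kop D (fun y => Real.exp (x y)) s (G x) φ) := by
  unfold Kop EE wt
  refine continuous_finset_sum _ fun ω _ => ?_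
  exact (continuous_finset_prod _ fun i _ => idl_cont D s φ i (ω i)).mul (hG _)

theorem Psi_cont (D : Dat n) (j : ℕ) : ∀ (s : ℕ) (G : (Fin n → ℝ) → Cf n → ℝ)
    (_ : ∀ φ, Continuous (fun x => G x φ)) (φ : Cf n),
    Continuous (fun x : Fin n → ℝ => Psi D (fun y => Real.exp (x y)) j s (G x) φ) := by
  induction j with
  | zero =>
    intro s G hG φ
    exact hG φ
  | succ j ih =>
    intro s G hG φ
    exact Kop_cont D (s + 1)
      (fun x => Psi D (fun y => Real.exp (x y)) j (s + 1) (G x)) (ih (s + 1) G hG) φ

/-- `ker` is continuous in the exponents: if `z ∈ Av X` the denominator is positive, otherwise the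
kernel is `0`; `idl`, `Kop`, `Psi` (induction on `j`), `ell`, `load`, `P` are finite sums and
products of such functions. -/
theorem P_cont (D : Dat n) (z : Fin n) :
    Continuous (fun x : Fin n → ℝ => P D (fun y => Real.exp (x y)) z) := by
  unfold P load
  refine continuous_finset_sum _ fun s _ => ?_
  refine Psi_cont D D.T 0 (fun x => ell D (fun y => Real.exp (x y)) s z) (fun φ => ?_) (φ0 n)
  unfold ell
  exact continuous_finset_sum _ fun u _ => ker_cont D _ z

end Pool.Agent.Helper5.BEC.C
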