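import Pool.Agent.Helper5.BEC.C.Psi
/-! Stage C, piece Fs: the sequence `fs`. -/
set_option autoImplicit false
namespace Pool.Agent.Helper5.BEC.C
open Finset Pool.Agent.Helper61.LE Pool.Agent.Helper5.BEC

variable {n k : ℕ} {D : Dat n} {w : Fin n → ℝ} {ε d Λ τ η ζ β : ℝ} {Bs : Finset (Fin n)}

private theorem Fs_exp (t : ℝ) (ht : 0 ≤ t) : Real.exp (-t) ≤ 1 - t + t ^ 2 / 2 := by
  have h := Real.quadratic_le_exp_of_nonneg ht
  have h2 : (0 : ℝ) < 1 + t + t ^ 2 / 2 := by positivity
  have h3 : Real.exp (-t) * Real.exp t = 1 := by rw [← Real.exp_add]; simp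
  have h4 : Real.exp (-t) * (1 + t + t ^ 2 / 2) ≤ 1 := by
    exact (mul_le_mul_of_nonneg_left h (Real.exp_pos _).le).trans (le_of_eq h3)
  refine le_of_mul_le_mul_right (h4.trans ?_) h2
  have h5 : (1 - t + t ^ 2 / 2) * (1 + t + t ^ 2 / 2) = 1 + t ^ 4 / 4 := by ring
  rw [h5]
  have : 0 ≤ t ^ 4 / 4 := by positivity
  linarith

theorem load_nonneg (hS : Std D k ε d) (hw : Wt w Λ) (s : ℕ) (z : Fin n) : 0 ≤ load D w s z := by
  have h := Psi_mono hS hw (g := fun _ => 0) (g' := ell D w s z) (fun φ => by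
    unfold ell
    exact Finset.sum_nonneg fun u _ => ker_nonneg hS hw _ _) D.T 0 (φ0 n)
  rw [Psi_const hS hw] at h
  exact h

/-- `ell ≤ #V_s · Λ(k+1)/n ≤ 2 Λ (k+1)/T` -/
theorem load_le (hS : Std D k ε d) (hw : Wt w Λ) (hL : Lab D k τ η) (s : ℕ) (hs : 1 ≤ s)
    (z : Fin n) : load D w s z ≤ 2 * (Λ * (k + 1)) / D.T := by
  have hn : (0 : ℝ) < n := by exact_mod_cast hS.n1
  have hΛ : (0 : ℝ) ≤ Λ := by
    have h1 := hw.w1 z
    have h2 := hw.w2 z
    linarith
  have hc : (0 : ℝ) ≤ Λ * (k + 1) / n := by positivity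
  have h := Psi_mono hS hw (g := ell D w s z) (g' := fun _ => 2 * (Λ * (k + 1)) / D.T) (fun φ => by
    unfold ell
    calc ∑ u ∈ univ.filter (fun u => D.r u = s), ker D w (Xs D φ u) z
        ≤ ∑ u ∈ univ.filter (fun u => D.r u = s), Λ * (k + 1) / n :=
          Finset.sum_le_sum fun u _ => ker_le hS hw _ (Xs_card' hS φ u) z
      _ = (#(univ.filter fun u => D.r u = s) : ℝ) * (Λ * (k + 1) / n) := by
          rw [Finset.sum_const, nsmul_eq_mul]
      _ ≤ (2 * n / D.T) * (Λ * (k + 1) / n) :=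
          mul_le_mul_of_nonneg_right (hL.size s hs) hc
      _ = 2 * (Λ * (k + 1)) / D.T := by
          rw [div_mul_div_comm]
          rw [show (2 * (n : ℝ) * (Λ * (k + 1))) = (2 * (Λ * (k + 1))) * n by ring]
          exact mul_div_mul_right _ _ hn.ne') D.T 0 (φ0 n)
  rw [Psi_const hS hw] at h
  exact h

theorem fs_pos (s : ℕ) (z : Fin n) : 0 < fs D w Bs s z := by
  induction s with
  | zero => exact zero_lt_one
  | succ s ih =>
    unfold fs
    split_ifs
    · exact zero_lt_one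
    · exact mul_pos ih (Real.exp_pos _)

theorem fs_le_one (hS : Std D k ε d) (hw : Wt w Λ) (s : ℕ) (z : Fin n) : fs D w Bs s z ≤ 1 := by
  induction s with
  | zero => exact le_refl _
  | succ s ih =>
    unfold fs
    split_ifs
    · exact le_refl _
    · have h1 : 0 ≤ load D w (s + 1) z / fs D w Bs s z :=
        div_nonneg (load_nonneg hS hw _ _) (fs_pos s z).le
      have h2 : Real.exp (-(load D w (s + 1) z / fs D w Bs s z)) ≤ 1 := by
        rw [Real.exp_le_one_iff]
        linarith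
      calc fs D w Bs s z * Real.exp (-(load D w (s + 1) z / fs D w Bs s z))
          ≤ 1 * 1 := mul_le_mul ih h2 (Real.exp_pos _).le zero_le_one
        _ = 1 := one_mul 1

/-- `f e^{-x/f} ≥ f - x`, so `fs s z ≥ 1 - ∑_{s' ≤ s} load ≥ 1 - P` -/
theorem fs_ge (hS : Std D k ε d) (hw : Wt w Λ) (hζ : 0 < ζ) (hζ1 : ζ ≤ 1)
    (hB : ∀ z ∉ Bs, P D w z ≤ 1 - ζ) (s : ℕ) (hs : s ≤ D.T) (z : Fin n) :
    ζ ≤ fs D w Bs s z := by
  by_cases hz : z ∈ Bs
  · have : fs D w Bs s z = 1 := by
      cases s with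
      | zero => rfl
      | succ s => unfold fs; rw [if_pos hz]
    rw [this]
    exact hζ1
  · have key : ∀ s, 1 - ∑ s' ∈ Icc 1 s, load D w s' z ≤ fs D w Bs s z := by
      intro s
      induction s with
      | zero => simp [fs]
      | succ s ih =>
        rw [Finset.sum_Icc_succ_top (by omega)]
        unfold fs
        rw [if_neg hz]
        have hf := fs_pos (D := D) (w := w) (Bs := Bs) s z
        have h1 := Real.add_one_le_exp (-(load D w (s + 1) z / fs D w Bs s z))
        have h2 := mul_le_mul_of_nonneg_left h1 hf.le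
        have h3 : fs D w Bs s z * (-(load D w (s + 1) z / fs D w Bs s z) + 1) =
            fs D w Bs s z - load D w (s + 1) z := by
          field_simp
          ring
        rw [h3] at h2
        linarith
    have h1 := key s
    have h2 : ∑ s' ∈ Icc 1 s, load D w s' z ≤ P D w z := by
      unfold P
      exact Finset.sum_le_sum_of_subset_of_nonneg (Finset.Icc_subset_Icc_right hs)
        fun i _ _ => load_nonneg hS hw _ _
    have h3 := hB z hz
    linarith

/-- `f e^{-x/f} ≤ f - x + x²/(2f)` -/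
theorem fs_end (hS : Std D k ε d) (hw : Wt w Λ) (hζ : 0 < ζ) (hζ1 : ζ ≤ 1)
    (hB : ∀ z ∉ Bs, P D w z ≤ 1 - ζ) (hβ : ∀ s, 1 ≤ s → ∀ z, load D w s z ≤ β) (z : Fin n)
    (hz : z ∉ Bs) : fs D w Bs D.T z ≤ 1 - P D w z + β / (2 * ζ) := by
  have hβ0 : 0 ≤ β := (load_nonneg hS hw 1 z).trans (hβ 1 le_rfl z)
  have key : ∀ s, s ≤ D.T → fs D w Bs s z ≤
      1 - ∑ s' ∈ Icc 1 s, load D w s' z + (∑ s' ∈ Icc 1 s, load D w s' z) * (β / (2 * ζ)) := by
    intro s
    induction s with
    | zero => intro _; simp [fs]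
    | succ s ih =>
      intro hs
      have ih' := ih (by omega)
      rw [Finset.sum_Icc_succ_top (by omega)]
      unfold fs
      rw [if_neg hz]
      have hf := fs_pos (D := D) (w := w) (Bs := Bs) s z
      have hfζ := fs_ge hS hw hζ hζ1 hB s (by omega) z
      have hx := load_nonneg hS hw (s + 1) z
      have hxβ := hβ (s + 1) (by omega) z
      have h1 := Fs_exp (load D w (s + 1) z / fs D w Bs s z) (div_nonneg hx hf.le)
      have h2 := mul_le_mul_of_nonneg_left h1 hf.le
      have h3 : fs D w Bs s z * (1 - load D w (s + 1) z / fs D w Bs s z +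
          (load D w (s + 1) z / fs D w Bs s z) ^ 2 / 2) =
          fs D w Bs s z - load D w (s + 1) z +
            load D w (s + 1) z * (load D w (s + 1) z / (2 * fs D w Bs s z)) := by
        field_simp
      rw [h3] at h2
      have h4 : load D w (s + 1) z / (2 * fs D w Bs s z) ≤ β / (2 * ζ) :=
        div_le_div₀ hβ0 hxβ (by positivity) (by linarith)
      have h5 := mul_le_mul_of_nonneg_left h4 hx
      rw [add_mul]
      linarith
  have h1 := key D.T le_rfl
  have h2 : (∑ s' ∈ Icc 1 D.T, load D w s' z) * (β / (2 * ζ)) ≤ 1 * (β / (2 * ζ)) := by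
    apply mul_le_mul_of_nonneg_right _ (by positivity)
    have := hB z hz
    unfold P at this
    linarith
  have h3 : P D w z = ∑ s' ∈ Icc 1 D.T, load D w s' z := rfl
  rw [h3]
  linarith

end Pool.Agent.Helper5.BEC.C
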