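import Pool.Agent.Helper5.BEC.C.Ker
import Pool.Agent.Helper5.BEC.C.Bal
import Pool.Agent.Helper5.BEC.C.Hyb
/-! Stage C, piece Psi: iterated expectations. All by induction on `j`. -/
set_option autoImplicit false
namespace Pool.Agent.Helper5.BEC.C
open Finset Pool.Agent.Helper61.LE Pool.Agent.Helper5.BEC

variable {n k : ℕ} {D : Dat n} {w : Fin n → ℝ} {ε d Λ : ℝ}

theorem Psi_sum {κ : Type*} (I : Finset κ) (g : κ → Cf n → ℝ) (j s : ℕ) (φ : Cf n) :
    Psi D w j s (fun φ => ∑ i ∈ I, g i φ) φ = ∑ i ∈ I, Psi D w j s (g i) φ := by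
  induction j generalizing s φ with
  | zero => rfl
  | succ j ih =>
    show EE (idl D w (s + 1) φ) (fun ω => Psi D w j (s + 1) (fun φ => ∑ i ∈ I, g i φ)
      (upd D (s + 1) φ ω)) = ∑ i ∈ I, EE (idl D w (s + 1) φ)
        (fun ω => Psi D w j (s + 1) (g i) (upd D (s + 1) φ ω))
    rw [← EE_sum]
    exact EE_congr fun ω => ih (s + 1) _

theorem Psi_smul (c : ℝ) (g : Cf n → ℝ) (j s : ℕ) (φ : Cf n) :
    Psi D w j s (fun φ => c * g φ) φ = c * Psi D w j s g φ := by
  induction j generalizing s φ with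
  | zero => rfl
  | succ j ih =>
    show EE (idl D w (s + 1) φ) (fun ω => Psi D w j (s + 1) (fun φ => c * g φ)
      (upd D (s + 1) φ ω)) = c * EE (idl D w (s + 1) φ)
        (fun ω => Psi D w j (s + 1) g (upd D (s + 1) φ ω))
    rw [← EE_const_mul]
    exact EE_congr fun ω => ih (s + 1) _

theorem Psi_mono (hS : Std D k ε d) (hw : Wt w Λ) {g g' : Cf n → ℝ} (h : ∀ φ, g φ ≤ g' φ)
    (j s : ℕ) (φ : Cf n) : Psi D w j s g φ ≤ Psi D w j s g' φ := by
  induction j generalizing s φ with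
  | zero => exact h φ
  | succ j ih => exact EE_mono (isProb_idl hS hw (s + 1) φ) fun ω => ih (s + 1) _

theorem Psi_const (hS : Std D k ε d) (hw : Wt w Λ) (c : ℝ) (j s : ℕ) (φ : Cf n) :
    Psi D w j s (fun _ => c) φ = c := by
  induction j generalizing s φ with
  | zero => rfl
  | succ j ih =>
    show EE (idl D w (s + 1) φ) (fun ω => Psi D w j (s + 1) (fun _ => c)
      (upd D (s + 1) φ ω)) = c
    exact (EE_congr fun ω => ih (s + 1) _).trans (EE_const (isProb_idl hS hw (s + 1) φ) c)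

theorem Psi_bd (hS : Std D k ε d) (hw : Wt w Λ) {g : Cf n → ℝ} (h : ∀ φ, 0 ≤ g φ ∧ g φ ≤ 1)
    (j s : ℕ) (φ : Cf n) : 0 ≤ Psi D w j s g φ ∧ Psi D w j s g φ ≤ 1 := by
  have h0 := Psi_mono hS hw (g := fun _ => 0) (g' := g) (fun φ => (h φ).1) j s φ
  have h1 := Psi_mono hS hw (g := g) (g' := fun _ => 1) (fun φ => (h φ).2) j s φ
  rw [Psi_const hS hw] at h0 h1
  exact ⟨h0, h1⟩

/-- later rounds do not change functions of the vertices with labels `≤ s` -/
theorem Psi_triv (hS : Std D k ε d) (hw : Wt w Λ) {g : Cf n → ℝ} (j s : ℕ)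
    (hg : Dep g (univ.filter fun u => D.r u ≤ s)) (φ : Cf n) : Psi D w j s g φ = g φ := by
  induction j generalizing s φ with
  | zero => rfl
  | succ j ih =>
    show EE (idl D w (s + 1) φ) (fun ω => Psi D w j (s + 1) g (upd D (s + 1) φ ω)) = g φ
    have h1 : ∀ ω, Psi D w j (s + 1) g (upd D (s + 1) φ ω) = g φ := by
      intro ω
      rw [ih (s + 1) (fun a b hab => hg a b fun i hi => hab i (mem_filter.2 ⟨mem_univ i,
        (mem_filter.1 hi).2.trans (Nat.le_succ s)⟩))]
      refine hg _ _ fun i hi => ?_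
      have hi' : D.r i ≤ s := (mem_filter.1 hi).2
      unfold upd
      rw [if_neg (by omega)]
    rw [EE_congr h1, EE_const (isProb_idl hS hw (s + 1) φ)]

/-- every round enlarges the ball by one (`EE_law_congr`: the laws of the vertices outside the ball
do not matter; the law of `u` depends on `φ` at `Ea u`) -/
theorem Psi_dep (hS : Std D k ε d) (hw : Wt w Λ) {g : Cf n → ℝ} (i j s : ℕ) (v : Fin n)
    (hg : Dep g (bal D.A i v)) : Dep (Psi D w j s g) (bal D.A (i + j) v) := by
  induction j generalizing s with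
  | zero => exact hg
  | succ j ih =>
    intro φ φ' hφ
    have ih' := ih (s + 1)
    have hmono : bal D.A (i + j) v ⊆ bal D.A (i + (j + 1)) v := bal_mono (by omega) v
    show EE (idl D w (s + 1) φ) (fun ω => Psi D w j (s + 1) g (upd D (s + 1) φ ω)) =
      EE (idl D w (s + 1) φ') (fun ω => Psi D w j (s + 1) g (upd D (s + 1) φ' ω))
    have h1 : ∀ ω, Psi D w j (s + 1) g (upd D (s + 1) φ ω) =
        Psi D w j (s + 1) g (upd D (s + 1) φ' ω) := by
      intro ω
      refine ih' _ _ fun u hu => ?_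
      unfold upd
      split_ifs
      · rfl
      · exact hφ u (hmono hu)
    rw [EE_congr h1]
    refine EE_law_congr (isProb_idl hS hw (s + 1) φ) (isProb_idl hS hw (s + 1) φ')
      (bal D.A (i + j) v) _ ?_ ?_
    · intro ω ω' hω
      refine ih' _ _ fun u hu => ?_
      unfold upd
      split_ifs
      · exact hω u hu
      · rfl
    · intro u hu
      have h2 : Xs D φ u = Xs D φ' u := Xs_congr φ φ' u fun p hp =>
        hφ p (bal_nbr hu (mem_filter.1 hp).1)
      unfold idl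
      rw [h2]

/-- `ell s z` depends only on labels `< s` -/
theorem ell_psi (hS : Std D k ε d) (hw : Wt w Λ) (j s : ℕ) (z : Fin n) (φ : Cf n) :
    Psi D w j s (ell D w (s + 1) z) φ = ell D w (s + 1) z φ := by
  refine Psi_triv hS hw j s ?_ φ
  intro φ φ' hφ
  unfold ell
  refine sum_congr rfl fun u hu => ?_
  have hu' : D.r u = s + 1 := (mem_filter.1 hu).2
  rw [Xs_congr φ φ' u fun p hp => hφ p (mem_filter.2 ⟨mem_univ p, by
    have := (mem_filter.1 hp).2.2
    omega⟩)]

/-- the total load of a set of positions -/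
theorem P_set (S : Finset (Fin n)) : ∑ z ∈ S, P D w z =
    ∑ s ∈ Icc 1 D.T, ∑ v ∈ univ.filter (fun v => D.r v = s),
      Psi D w D.T 0 (fun φ => ∑ z ∈ S, ker D w (Xs D φ v) z) (φ0 n) := by
  unfold P load ell
  rw [sum_comm]
  refine sum_congr rfl fun s _ => ?_
  have h1 : ∀ z ∈ S, Psi D w D.T 0 (fun φ => ∑ u ∈ univ.filter (fun u => D.r u = s),
      ker D w (Xs D φ u) z) (φ0 n) = ∑ u ∈ univ.filter (fun u => D.r u = s),
      Psi D w D.T 0 (fun φ => ker D w (Xs D φ u) z) (φ0 n) := fun z _ =>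
    Psi_sum (univ.filter (fun u => D.r u = s)) (fun u φ => ker D w (Xs D φ u) z) D.T 0 (φ0 n)
  rw [sum_congr rfl h1, sum_comm]
  refine sum_congr rfl fun v _ => ?_
  exact (Psi_sum S (fun z φ => ker D w (Xs D φ v) z) D.T 0 (φ0 n)).symm

end Pool.Agent.Helper5.BEC.C
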