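import Pool.Agent.Helper5.BEC.C.Lay
import Pool.Agent.Helper5.BEC.C.Cont
import Pool.Agent.Helper5.BEC.C.Brouwer
import Pool.Agent.Helper5.BEC.C.Psi
/-! Stage C, piece Over: balanced weights. -/
set_option autoImplicit false
namespace Pool.Agent.Helper5.BEC.C
open Finset Pool.Agent.Helper61.LE Pool.Agent.Helper5.BEC

variable {n k : ℕ} {D : Dat n} {ε d Λ τ η L : ℝ}

/-- `P_set` with `S = univ` and `ker_sum` -/
theorem P_total (hS : Std D k ε d) {w : Fin n → ℝ} (hw : Wt w Λ) :
    ∑ z, P D w z = #(univ.filter fun v => 1 ≤ D.r v) := by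
  have h1 : ∀ v : Fin n, Psi D w D.T 0 (fun φ => ∑ z, ker D w (Xs D φ v) z) (φ0 n) = 1 := by
    intro v
    have h2 : (fun φ : Cf n => ∑ z, ker D w (Xs D φ v) z) = fun _ => (1 : ℝ) := by
      funext φ
      exact ker_sum hS hw _ (Xs_card' hS φ v)
    rw [h2, Psi_const hS hw]
  rw [P_set]
  simp only [h1, Finset.sum_const, nsmul_eq_mul, mul_one]
  have h3 : #(univ.filter fun v => 1 ≤ D.r v) =
      ∑ s ∈ Icc 1 D.T, #(univ.filter fun v => D.r v = s) := by
    rw [Finset.card_eq_sum_card_fiberwise (f := D.r) (t := Icc 1 D.T)]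
    · refine Finset.sum_congr rfl fun s hs => ?_
      congr 1
      ext v
      simp only [Finset.mem_filter, Finset.mem_univ, true_and]
      constructor
      · exact fun h => h.2
      · intro h
        rw [Finset.mem_Icc] at hs
        exact ⟨by omega, h⟩
    · intro v hv
      rw [Finset.mem_coe, Finset.mem_filter] at hv
      rw [Finset.mem_coe, Finset.mem_Icc]
      exact ⟨hv.2, hS.rT v⟩
  rw [h3]
  push_cast
  rfl

/-- `vi` for `F = P - τ`; `∑ x_z (P_z - τ) = - L ∑_{x_z = L} (τ - P_z)` and `key_sum` give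
`∑ (τ - P_z)⁺ ≤ n (η + 8/(ε L))`; `∑ (P_z - τ)⁺ = ∑ (P_z - τ) + ∑ (τ - P_z)⁺`, `P_total`,
`Lab.tot`. -/
theorem exists_weights (hS : Std D k ε d) (hL : Lab D k τ η) (hτ : 0 ≤ τ) (hτ1 : τ ≤ 1)
    (hη : 0 ≤ η) (hL0 : 0 < L) :
    ∃ w, Wt w (Real.exp L) ∧
      ∑ z, max (P D w z - τ) 0 ≤ n * (2 * η + 8 / (ε * L)) := by
  obtain ⟨x, hx, hx0, hxL⟩ := vi n (fun x z => P D (fun y => Real.exp (x y)) z - τ)
    (continuous_pi fun z => (P_cont D z).sub continuous_const) L hL0
  have hw : Wt (fun y => Real.exp (x y)) (Real.exp L) :=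
    ⟨fun z => Real.one_le_exp (hx z).1, fun z => Real.exp_le_exp.2 (hx z).2⟩
  refine ⟨fun y => Real.exp (x y), hw, ?_⟩
  set Q : Fin n → ℝ := fun z => P D (fun y => Real.exp (x y)) z with hQ
  have hpt : ∀ z, x z * (Q z - τ) = -(L * max (τ - Q z) 0) := by
    intro z
    rcases lt_or_eq_of_le (hx z).2 with h | h
    · have h1 : 0 ≤ Q z - τ := hxL z h
      have h2 : max (τ - Q z) 0 = 0 := max_eq_right (by linarith)
      rw [h2]
      rcases lt_or_eq_of_le (hx z).1 with h3 | h3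
      · have h4 : Q z - τ ≤ 0 := hx0 z h3
        have h5 : Q z - τ = 0 := le_antisymm h4 h1
        rw [h5]
        ring
      · rw [← h3]
        ring
    · have h4 : Q z - τ ≤ 0 := hx0 z (by rw [h]; exact hL0)
      have h2 : max (τ - Q z) 0 = τ - Q z := max_eq_left (by linarith)
      rw [h2, h]
      ring
  have hkey := key_sum hS hL hτ hτ1 hη hL0.le x hx
  have hsum : ∑ z, x z * (P D (fun y => Real.exp (x y)) z - τ) =
      -(L * ∑ z, max (τ - Q z) 0) := by
    rw [Finset.mul_sum, ← Finset.sum_neg_distrib]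
    exact Finset.sum_congr rfl fun z _ => hpt z
  rw [hsum] at hkey
  have hlow : ∑ z, max (τ - Q z) 0 ≤ n * (η + 8 / (ε * L)) := by
    have h1 : L * ∑ z, max (τ - Q z) 0 ≤ n * (L * η + 8 / ε) := by linarith
    have hε := hS.ε0
    have h2 : (n : ℝ) * (L * η + 8 / ε) = L * (n * (η + 8 / (ε * L))) := by
      field_simp
    rw [h2] at h1
    exact le_of_mul_le_mul_left h1 hL0
  have hmax : ∀ z, max (Q z - τ) 0 = (Q z - τ) + max (τ - Q z) 0 := by
    intro z
    rcases le_total (Q z) τ with h | h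
    · rw [max_eq_right (by linarith), max_eq_left (by linarith)]
      ring
    · rw [max_eq_left (by linarith), max_eq_right (by linarith)]
      ring
  have htot : ∑ z, (Q z - τ) ≤ n * η := by
    rw [Finset.sum_sub_distrib, Finset.sum_const, Finset.card_univ, Fintype.card_fin, nsmul_eq_mul,
      P_total hS hw]
    have h1 := hL.tot
    have hn : (0 : ℝ) ≤ n := Nat.cast_nonneg n
    have h2 : τ * η * n ≤ 1 * η * n := by gcongr
    linarith
  calc ∑ z, max (Q z - τ) 0 = ∑ z, (Q z - τ) + ∑ z, max (τ - Q z) 0 := by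
        rw [← Finset.sum_add_distrib]
        exact Finset.sum_congr rfl fun z _ => hmax z
    _ ≤ n * η + n * (η + 8 / (ε * L)) := add_le_add htot hlow
    _ = n * (2 * η + 8 / (ε * L)) := by ring

end Pool.Agent.Helper5.BEC.C
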