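import Pool.Agent.Helper5.BEC.C.Round
/-! Stage C, piece Iter: all rounds. -/
set_option autoImplicit false
namespace Pool.Agent.Helper5.BEC.C
open Finset Pool.Agent.Helper61.LE Pool.Agent.Helper5.BEC

theorem Stt.mono {n k : ℕ} {D : Dat n} {w : Fin n → ℝ} {a b a' b' M : ℝ}
    {Bs : Finset (Fin n)} {H : Finset (Fin n → ℝ)} {s : ℕ} {φ : Cf n}
    (h : Stt D w k M Bs H s φ a b) (ha : a ≤ a') (hb : b ≤ b') :
    Stt D w k M Bs H s φ a' b' := by
  refine ⟨h.lab, h.val, ?_, ?_⟩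
  · intro i hi
    refine (h.qa i hi).trans ?_
    exact mul_le_mul_of_nonneg_right ha (Nat.cast_nonneg n)
  · intro g hg
    exact (h.qb g hg).trans hb

/-- With `x = max a b` the error recursion is `x' ≤ C x + C/n + t`, `C = C(k,T,M,ζ)`, so after `T`
rounds `x ≤ C' (t + 1/n)`; choose `t` and `n1`. -/
theorem iter (k T : ℕ) (M ζ ϑ : ℝ) (hM : 1 ≤ M) (hζ : 0 < ζ) (hζ1 : ζ ≤ 1) (hϑ : 0 < ϑ) :
    ∃ t : ℝ, 0 < t ∧ ∃ n1 : ℕ, ∀ n ≥ n1, ∀ (D : Dat n) (w : Fin n → ℝ) (ε d Λ : ℝ)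
      (Bs : Finset (Fin n)) (H : Finset (Fin n → ℝ)), D.T = T → Std D k ε d → Wt w Λ →
      M = Λ * (k + 1) → (∀ z ∉ Bs, P D w z ≤ 1 - ζ) →
      Tests D w (fs D w Bs D.T) M (II D k) (qf D w M) H →
      #(II D k) * (2 * Real.exp (-(t ^ 2 * n / (4 * (((k : ℝ) + 1) ^ (D.T + 1)) ^ 2)))) +
        #H * (2 * Real.exp (-(t ^ 2 * ζ ^ 2 * n / (16 * M ^ 2)))) < 1 →
      ∃ φ, Stt D w k M Bs H D.T φ ϑ ϑ := by
  have hM0 : 0 < M := by linarith
  set K : ℝ := ((k : ℝ) + 1) ^ (T + 1) with hK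
  have hK0 : 0 ≤ K := by positivity
  set C : ℝ := 1 + 4 * K + 4 * M ^ 2 / ζ ^ 2 with hC
  have hq0 : 0 ≤ 4 * M ^ 2 / ζ ^ 2 := by positivity
  have hC1 : 1 ≤ C := by rw [hC]; linarith
  have hC0 : 0 < C := by linarith
  set R : ℝ := min ϑ (min 1 (ζ / (4 * M))) with hR
  have hR0 : 0 < R := lt_min hϑ (lt_min one_pos (by positivity))
  have hRϑ : R ≤ ϑ := min_le_left _ _
  have hR1 : R ≤ 1 := (min_le_right _ _).trans (min_le_left _ _)
  have hRM : R ≤ ζ / (4 * M) := (min_le_right _ _).trans (min_le_right _ _)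
  have hTC : (0 : ℝ) < (T : ℝ) * C ^ T + 1 := by positivity
  set Y : ℝ := R / ((T : ℝ) * C ^ T + 1) with hY
  have hY0 : 0 < Y := div_pos hR0 hTC
  have hYR : Y * ((T : ℝ) * C ^ T) ≤ R := by
    have h1 : Y * ((T : ℝ) * C ^ T + 1) = R := by rw [hY]; field_simp
    nlinarith
  refine ⟨min 1 (Y / 2), lt_min one_pos (half_pos hY0),
    ⌈4 * M ^ 3 / (ζ ^ 3 * Y) + 2 * M ^ 2 / ζ ^ 2 + 2 * M / ζ⌉₊ + 1, ?_⟩
  intro n hn D w ε d Λ Bs H hDT hS hw hMΛ hB hT hcard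
  have ht0 : 0 < min 1 (Y / 2) := lt_min one_pos (half_pos hY0)
  have ht1 : min 1 (Y / 2) ≤ 1 := min_le_left _ _
  have htY : min 1 (Y / 2) ≤ Y / 2 := min_le_right _ _
  generalize min 1 (Y / 2) = t at ht0 ht1 htY hcard
  have hn2 : 4 * M ^ 3 / (ζ ^ 3 * Y) + 2 * M ^ 2 / ζ ^ 2 + 2 * M / ζ ≤ (n : ℝ) := by
    have h1 := Nat.le_ceil (4 * M ^ 3 / (ζ ^ 3 * Y) + 2 * M ^ 2 / ζ ^ 2 + 2 * M / ζ)
    have h2 : (⌈4 * M ^ 3 / (ζ ^ 3 * Y) + 2 * M ^ 2 / ζ ^ 2 + 2 * M / ζ⌉₊ : ℝ) ≤ n := by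
      have : ⌈4 * M ^ 3 / (ζ ^ 3 * Y) + 2 * M ^ 2 / ζ ^ 2 + 2 * M / ζ⌉₊ ≤ n := by omega
      exact_mod_cast this
    linarith
  have hn1 : (1 : ℝ) ≤ n := by
    have : 1 ≤ n := by omega
    exact_mod_cast this
  have hn0 : (0 : ℝ) < n := by linarith
  have p1 : 0 ≤ 4 * M ^ 3 / (ζ ^ 3 * Y) := by positivity
  have p2 : 0 ≤ 2 * M ^ 2 / ζ ^ 2 := by positivity
  have p3 : 0 ≤ 2 * M / ζ := by positivity
  have q1 : 4 * M ^ 3 / (ζ ^ 3 * Y) ≤ n := by linarith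
  have q2 : 2 * M ^ 2 / ζ ^ 2 ≤ n := by linarith
  have q3 : 2 * M / ζ ≤ n := by linarith
  rw [div_le_iff₀ (by positivity)] at q1 q2 q3
  have r1 : 2 * M ^ 3 / (ζ ^ 3 * n) ≤ Y / 2 := by
    rw [div_le_iff₀ (by positivity)]
    nlinarith
  have r2 : M ^ 2 / (ζ ^ 2 * n) ≤ 1 / 2 := by
    rw [div_le_iff₀ (by positivity)]
    nlinarith
  have r3 : 2 * M ≤ ζ * n := by linarith
  set y : ℝ := t + 2 * M ^ 3 / (ζ ^ 3 * n) with hy
  have hyY : y ≤ Y := by rw [hy]; linarith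
  have hz0 : 0 ≤ 2 * M ^ 3 / (ζ ^ 3 * n) := by positivity
  have hy0 : 0 ≤ y := by rw [hy]; linarith
  have bound : ∀ s ≤ T, y * s * C ^ s ≤ R := by
    intro s hs
    have h1 : (s : ℝ) ≤ T := by exact_mod_cast hs
    have h2 : C ^ s ≤ C ^ T := pow_le_pow_right₀ hC1 hs
    calc y * s * C ^ s ≤ Y * T * C ^ T := by gcongr
      _ = Y * ((T : ℝ) * C ^ T) := by ring
      _ ≤ R := hYR
  have main : ∀ s ≤ T, ∃ φ, Stt D w k M Bs H s φ (y * s * C ^ s) (y * s * C ^ s) := by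
    intro s
    induction s with
    | zero =>
      intro _
      refine ⟨φ0 n, ?_⟩
      have := start (Bs := Bs) (H := H) hS hw hMΛ
      simpa using this
    | succ s ih =>
      intro hs
      obtain ⟨φ, hφ⟩ := ih (by omega)
      have hb := bound s (by omega)
      have he0 : 0 ≤ y * s * C ^ s := by positivity
      generalize hee : y * s * C ^ s = e at hφ hb he0
      have hfar : M * (e + e) / ζ + M ^ 2 / (ζ ^ 2 * n) ≤ 1 := by
        have h1 : M * (e + e) / ζ ≤ 1 / 2 := by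
          rw [div_le_iff₀ hζ]
          have h2 : e ≤ ζ / (4 * M) := hb.trans hRM
          rw [le_div_iff₀ (by positivity)] at h2
          linarith
        linarith
      obtain ⟨φ', hφ'⟩ := round hS hw hMΛ hζ hζ1 hB (s := s) (by omega) φ he0 he0
        (hb.trans hR1) r3 hfar hT ht0 ht1 hcard hφ
      refine ⟨φ', hφ'.mono ?_ ?_⟩
      · rw [hDT]
        have h1 : C * e + y ≤ y * ((s + 1 : ℕ) : ℝ) * C ^ (s + 1) := by
          have h2 : 1 ≤ C ^ (s + 1) := one_le_pow₀ hC1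
          have h3 : y * 1 ≤ y * C ^ (s + 1) := mul_le_mul_of_nonneg_left h2 hy0
          rw [← hee]
          push_cast
          have h4 : y * ((s : ℝ) + 1) * C ^ (s + 1) = C * (y * s * C ^ s) + y * C ^ (s + 1) := by
            ring
          rw [h4]
          linarith
        refine le_trans ?_ h1
        have h5 : C * e = e + 4 * e * K + 4 * M ^ 2 / ζ ^ 2 * e := by rw [hC]; ring
        have h6 : 0 ≤ 4 * M ^ 2 / ζ ^ 2 * e := mul_nonneg hq0 he0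
        rw [h5, hy]
        linarith
      · have h1 : C * e + y ≤ y * ((s + 1 : ℕ) : ℝ) * C ^ (s + 1) := by
          have h2 : 1 ≤ C ^ (s + 1) := one_le_pow₀ hC1
          have h3 : y * 1 ≤ y * C ^ (s + 1) := mul_le_mul_of_nonneg_left h2 hy0
          rw [← hee]
          push_cast
          have h4 : y * ((s : ℝ) + 1) * C ^ (s + 1) = C * (y * s * C ^ s) + y * C ^ (s + 1) := by
            ring
          rw [h4]
          linarith
        refine le_trans ?_ h1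
        have h5 : e + 2 * (M * (e + e) / ζ + M ^ 2 / (ζ ^ 2 * n)) * (M / ζ) + t =
            e + 4 * M ^ 2 / ζ ^ 2 * e + y := by
          rw [hy]
          field_simp
          ring
        have h6 : C * e = e + 4 * e * K + 4 * M ^ 2 / ζ ^ 2 * e := by rw [hC]; ring
        have h7 : 0 ≤ 4 * e * K := by positivity
        rw [h5, h6]
        linarith
  rw [hDT]
  obtain ⟨φ, hφ⟩ := main T le_rfl
  exact ⟨φ, hφ.mono ((bound T le_rfl).trans hRϑ) ((bound T le_rfl).trans hRϑ)⟩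

end Pool.Agent.Helper5.BEC.C
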