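import Pool.Agent.Helper5.BEC.C.LabB
import Pool.Agent.Helper5.BEC.C.Iter
import Pool.Agent.Helper5.BEC.C.Card
import Pool.Agent.Helper5.BEC.C.Fin
import Pool.Agent.Helper5.BEC.C.Comp
/-! Stage C, piece Main: parameters and final theorems. -/
set_option autoImplicit false
namespace Pool.Agent.Helper5.BEC.C
open Finset Pool.Agent.Helper5.BEC

/-- Parameters: `α = min (ε/4) (1/(2(k+1)))`, `c0 = (α/(k+1)) (α ε)^k`, `c1 = c0/(8(k+1))`,
`κ = c1/(48(k+1))`, `ζ = κ` (`τ = 1 - 2ζ ≥ 1/2`), `η = κ ζ/4 (≤ 1/(2(k+1)))`, `L` with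
`8/(ε L) ≤ κ ζ/2`, so `a0 = 2η + 8/(εL) ≤ κ ζ`; `M = exp L (k+1)`; `T` with `M/(T ζ) ≤ κ`, `4k ≤ η T`;
`ϑ ≤ κ`. Then the number of unplaced vertices is `≤ 6 κ n ≤ c1/(8(k+1)) n`
(`2ζ + η + a0 + a0/ζ + M/(Tζ) + b ≤ 2κ + κ + κ + κ + κ + κ`; adjust the fractions), there are at least
`(c0/(4(k+1)) - 2 κ...) n ≥ c1 n` candidates, and `complete` applies with `c = c1`. -/
theorem bounded (k : ℕ) (hk : 1 ≤ k) (ε : ℝ) (h0 : 0 < ε) (h1 : ε ≤ 1 / 2) :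
    ∃ n0 : ℕ, ∀ n ≥ n0, ∀ (A B : Nb n) (d : ℝ), (∀ v, #(A.N v) ≤ k) → 0 ≤ d →
      (∀ y, (#(B.N y) : ℝ) ≤ d) → (k + 1) * d ≤ (1 - ε) * n →
      ∃ τ : Equiv.Perm (Fin n), ∀ u v, u ∈ A.N v → τ u ∉ B.N (τ v) := by
  have hkR : (1 : ℝ) ≤ k := by exact_mod_cast hk
  obtain ⟨K, hK⟩ : ∃ K : ℝ, K = (k : ℝ) + 1 := ⟨_, rfl⟩
  have hK2 : 2 ≤ K := by rw [hK]; linarith
  have hK0 : 0 < K := by linarith
  obtain ⟨α, hα⟩ : ∃ α : ℝ, α = min (ε / 4) (1 / (2 * K)) := ⟨_, rfl⟩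
  have hα0 : 0 < α := by rw [hα]; exact lt_min (by linarith) (by positivity)
  have hα1 : 4 * α ≤ ε := by
    have := min_le_left (ε / 4) (1 / (2 * K))
    rw [hα]; linarith
  have hα2 : 2 * α * K ≤ 1 := by
    have h2 : α ≤ 1 / (2 * K) := by rw [hα]; exact min_le_right _ _
    have h3 : α * (2 * K) ≤ 1 / (2 * K) * (2 * K) := mul_le_mul_of_nonneg_right h2 (by positivity)
    rw [one_div, inv_mul_cancel₀ (by positivity)] at h3
    linarith
  obtain ⟨c0, hc0⟩ : ∃ c0 : ℝ, c0 = α / K * (α * ε) ^ k := ⟨_, rfl⟩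
  have hc00 : 0 < c0 := by rw [hc0]; positivity
  have hc01 : c0 ≤ 1 := by
    have h2 : α / K ≤ 1 := by rw [div_le_one hK0]; linarith
    have h3 : α * ε ≤ 1 :=
      (mul_le_mul (show α ≤ 1 by linarith) (show ε ≤ 1 by linarith) h0.le (by norm_num)).trans
        (by norm_num)
    have h4 : (α * ε) ^ k ≤ 1 := pow_le_one₀ (by positivity) h3
    rw [hc0]
    exact mul_le_one₀ h2 (by positivity) h4
  obtain ⟨c1, hc1⟩ : ∃ c1 : ℝ, c1 = c0 / (8 * K) := ⟨_, rfl⟩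
  have hc10 : 0 < c1 := by rw [hc1]; positivity
  have hc1e : c1 * (8 * K) = c0 := by rw [hc1]; field_simp
  have hc11 : c1 ≤ 1 :=
    (le_mul_of_one_le_right hc10.le (show (1 : ℝ) ≤ 8 * K by linarith)).trans (hc1e.le.trans hc01)
  obtain ⟨κ, hκ⟩ : ∃ κ : ℝ, κ = c1 / (48 * K) := ⟨_, rfl⟩
  have hκ0 : 0 < κ := by rw [hκ]; positivity
  have hκe : κ * (48 * K) = c1 := by rw [hκ]; field_simp
  have hκ96 : κ * 96 ≤ κ * (48 * K) := mul_le_mul_of_nonneg_left (by linarith) hκ0.le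
  have hκ1 : κ * 96 ≤ 1 := hκ96.trans (hκe.le.trans hc11)
  have hκκ : κ * κ ≤ κ := mul_le_of_le_one_right hκ0.le (by linarith)
  obtain ⟨η, hη⟩ : ∃ η : ℝ, η = κ * κ / 4 := ⟨_, rfl⟩
  have hη0 : 0 < η := by rw [hη]; positivity
  have hηκ : 4 * η ≤ κ := by rw [hη]; linarith
  have hη1 : η < 1 := by linarith
  have hηK : η * (2 * K) ≤ 1 := by
    have h3 : κ * (48 * K) ≤ 1 := by rw [hκe]; exact hc11
    have h4 : η ≤ κ := by linarith
    exact (mul_le_mul h4 (show 2 * K ≤ 48 * K by linarith) (by positivity) hκ0.le).trans h3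
  obtain ⟨L, hL⟩ : ∃ L : ℝ, L = 16 / (ε * κ * κ) := ⟨_, rfl⟩
  have hL0 : 0 < L := by rw [hL]; positivity
  have hLe : 8 / (ε * L) = κ * κ / 2 := by
    rw [hL]; field_simp; norm_num
  obtain ⟨M, hM⟩ : ∃ M : ℝ, M = Real.exp L * (k + 1) := ⟨_, rfl⟩
  have hM1 : 1 ≤ M := by
    have h2 : 1 ≤ Real.exp L := Real.one_le_exp hL0.le
    have h3 : 1 ≤ (k : ℝ) + 1 := by linarith
    rw [hM]
    exact one_le_mul_of_one_le_of_one_le h2 h3
  obtain ⟨T, hT⟩ : ∃ T : ℕ, T = ⌈M / (κ * κ)⌉₊ + ⌈4 * k / η⌉₊ + 1 := ⟨_, rfl⟩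
  have hT1 : 1 ≤ T := by omega
  have hTR : (T : ℝ) = (⌈M / (κ * κ)⌉₊ : ℝ) + (⌈4 * k / η⌉₊ : ℝ) + 1 := by
    rw [hT]; push_cast; ring
  have hT0 : (0 : ℝ) < T := by exact_mod_cast hT1
  have hTM : M / (κ * κ) ≤ T := by
    have h2 := Nat.le_ceil (M / (κ * κ))
    have h3 : (0 : ℝ) ≤ (⌈4 * k / η⌉₊ : ℝ) := Nat.cast_nonneg _
    rw [hTR]; linarith
  have hTk : 4 * k ≤ η * T := by
    have h2 := Nat.le_ceil (4 * k / η)
    have h3 : (0 : ℝ) ≤ (⌈M / (κ * κ)⌉₊ : ℝ) := Nat.cast_nonneg _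
    have h4 : 4 * k / η ≤ T := by rw [hTR]; linarith
    rw [div_le_iff₀ hη0] at h4
    linarith
  have hMT : M / (T * κ) ≤ κ := by
    rw [div_le_iff₀ (by positivity)] at hTM ⊢
    linarith
  -- the constants
  obtain ⟨nL, hnL⟩ := labels k hk (1 - 2 * κ) η (by linarith) (by linarith) hη0 hη1 T hT1 hTk
  obtain ⟨t, ht0, nI, hnI⟩ := iter k T M κ κ hM1 hκ0 (by linarith) hκ0
  obtain ⟨E1, hE1⟩ := card_II k T
  obtain ⟨E2, hE2⟩ := exists_tests k T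
  obtain ⟨nP, hnP⟩ := poly_exp (max E1 E2) (t ^ 2 / (4 * (((k : ℝ) + 1) ^ (T + 1)) ^ 2))
    (t ^ 2 * κ ^ 2 / (16 * M ^ 2)) (by positivity) (by positivity)
  refine ⟨nL + nI + nP + ⌈2 * k / c1⌉₊ + 1, ?_⟩
  intro n hn A B d hA hd0 hB hd
  have hn1 : 1 ≤ n := by omega
  have hnR : (1 : ℝ) ≤ n := by exact_mod_cast hn1
  obtain ⟨r, hr1, hr2, hr3⟩ := hnL n (by omega) A hA
  obtain ⟨D, hD⟩ : ∃ D : Dat n, D = ⟨A, B, α, r, T⟩ := ⟨_, rfl⟩
  have hDT : D.T = T := by rw [hD]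
  have hDA : D.A = A := by rw [hD]
  have hDB : D.B = B := by rw [hD]
  have hDα : D.α = α := by rw [hD]
  have hDr : D.r = r := by rw [hD]
  have hS : Std D k ε d := by
    constructor
    · exact hn1
    · exact hk
    · rw [hDA]; exact hA
    · rw [hDB]; exact hB
    · exact hd0
    · exact hd
    · exact h0
    · exact h1
    · rw [hDα]; exact hα0
    · rw [hDα]; exact hα1
    · rw [hDα, ← hK]; exact hα2
    · rw [hDr, hDT]; exact hr1
    · rw [hDr, hDA]; exact hr2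
  have hLab : Lab D k (1 - 2 * κ) η := by rw [hD]; exact hr3 B α
  obtain ⟨w, hw, hwP⟩ := exists_weights hS hLab (by linarith) (by linarith) hη0.le hL0
  obtain ⟨Bs, hBs⟩ : ∃ Bs : Finset (Fin n), Bs = univ.filter fun z => 1 - κ < P D w z := ⟨_, rfl⟩
  have hBs' : ∀ z ∉ Bs, P D w z ≤ 1 - κ := by
    intro z hz
    rw [hBs, mem_filter, not_and] at hz
    exact not_lt.1 (hz (mem_univ z))
  have hloc : Loc D (II D k) (qf D w M) := qf_loc hS hw hM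
  obtain ⟨H, hH, hHc⟩ := hE2 n hn1 D w ε d (Real.exp L) M Bs hDT hS hw hM hloc
  have hIIc := hE1 n hn1 D hDT
  have hcard : #(II D k) * (2 * Real.exp (-(t ^ 2 * n / (4 * (((k : ℝ) + 1) ^ (D.T + 1)) ^ 2)))) +
        #H * (2 * Real.exp (-(t ^ 2 * κ ^ 2 * n / (16 * M ^ 2)))) < 1 := by
    have h2 := hnP n (by omega)
    have e1 : t ^ 2 * n / (4 * (((k : ℝ) + 1) ^ (D.T + 1)) ^ 2) =
        t ^ 2 / (4 * (((k : ℝ) + 1) ^ (T + 1)) ^ 2) * n := by rw [hDT]; ring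
    have e2 : t ^ 2 * κ ^ 2 * n / (16 * M ^ 2) = t ^ 2 * κ ^ 2 / (16 * M ^ 2) * n := by ring
    rw [e1, e2]
    have h3 : (#(II D k) : ℝ) ≤ ((n : ℝ) + 1) ^ (max E1 E2) := by
      have h4 : (#(II D k) : ℝ) ≤ ((n : ℝ) + 1) ^ E1 := by exact_mod_cast hIIc
      exact h4.trans (pow_le_pow_right₀ (by linarith) (le_max_left _ _))
    have h5 : (#H : ℝ) ≤ ((n : ℝ) + 1) ^ (max E1 E2) := by
      have h4 : (#H : ℝ) ≤ ((n : ℝ) + 1) ^ E2 := by exact_mod_cast hHc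
      exact h4.trans (pow_le_pow_right₀ (by linarith) (le_max_right _ _))
    refine lt_of_le_of_lt (add_le_add (mul_le_mul_of_nonneg_right h3 (by positivity))
      (mul_le_mul_of_nonneg_right h5 (by positivity))) h2
  obtain ⟨φ, hφ⟩ := hnI n (by omega) D w ε d (Real.exp L) Bs H hDT hS hw hM hBs' hH hcard
  have hleft := left_le (τ := 1 - 2 * κ) hS hw hM hLab (ζ := κ) (by ring) hκ0 (by linarith) hη0.le hBs
    (a0 := 2 * η + 8 / (ε * L)) (hwP.trans (le_of_eq (mul_comm _ _))) (by rw [hDT]; exact hT1) hH hφ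
  have hcand := fun X hX y => cand_ge hS hw hLab (by linarith) hφ X hX y
  -- number of unplaced vertices
  obtain ⟨U, hU⟩ : ∃ U : ℝ, U = (#(univ \ Pl φ) : ℝ) := ⟨_, rfl⟩
  have hU1 : U ≤ 8 * κ * n := by
    rw [hU]
    refine hleft.trans (mul_le_mul_of_nonneg_right ?_ (by positivity))
    have e1 : 2 * η + 8 / (ε * L) = κ * κ := by rw [hLe, hη]; ring
    rw [e1, hDT, mul_div_cancel_right₀ _ hκ0.ne']
    have h2 : κ * κ ≤ κ := hκκ
    linarith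
  have hmain : 2 * (K * U) + k < c1 * n := by
    have h2 : K * U ≤ K * (8 * κ * n) := mul_le_mul_of_nonneg_left hU1 hK0.le
    have h3 : 6 * (K * (8 * κ * n)) = c1 * n := by rw [← hκe]; ring
    have h4 : 2 * k / c1 < n := by
      have h5 := Nat.le_ceil (2 * k / c1)
      have h6 : (⌈2 * k / c1⌉₊ : ℝ) < n := by exact_mod_cast (show ⌈2 * k / c1⌉₊ < n by omega)
      linarith
    rw [div_lt_iff₀ hc10] at h4
    linarith
  have hdone := complete (A := A) (B := B) hA (Pl φ) (sg φ) (Pl_inj φ) ?_ c1 ?_ ?_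
  · exact hdone
  · have := Pl_valid hS hφ
    rw [hDA, hDB] at this
    exact this
  · intro X hX y
    have h2 := hcand X hX y
    rw [hDA, hDB, hDα, ← hU, ← hK, ← hc0] at h2
    refine le_trans ?_ h2
    have h3 : c0 / (4 * K) ≤ (1 - 2 * κ) * (1 / K - η) * c0 := by
      have h4 : 1 / (2 * K) ≤ 1 / K - η := by
        have h5 : η ≤ 1 / (2 * K) := by rw [le_div_iff₀ (by positivity)]; exact hηK
        have h6 : 1 / K = 1 / (2 * K) + 1 / (2 * K) := by field_simp; norm_num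
        linarith
      have h7 : 1 / 2 * (1 / (2 * K)) ≤ (1 - 2 * κ) * (1 / K - η) :=
        mul_le_mul (by linarith) h4 (by positivity) (by linarith)
      have h8 := mul_le_mul_of_nonneg_right h7 hc00.le
      have h9 : 1 / 2 * (1 / (2 * K)) * c0 = c0 / (4 * K) := by field_simp; norm_num
      linarith
    have h4 : c0 / (4 * K) = 2 * c1 := by rw [← hc1e]; field_simp; norm_num
    have h5 : 2 * c1 - κ ≤ (1 - 2 * κ) * (1 / K - η) * c0 - κ := by linarith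
    have h6 := mul_le_mul_of_nonneg_right h5 (show (0 : ℝ) ≤ n by positivity)
    have h7 : 9 * κ ≤ c1 := by rw [← hκe]; linarith
    have h8 := mul_le_mul_of_nonneg_right h7 (show (0 : ℝ) ≤ n by positivity)
    linarith
  · rw [← hU, ← hK, mul_assoc]
    exact hmain

end Pool.Agent.Helper5.BEC.C
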