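import Pool.Agent.Helper5.BEC.Defs

/-!
# Project BEC, stage C: bounded degree `k` of the first graph: definitions

Vertices have labels (rounds) `r v`, `0` = never placed by the process. In the ideal process the
vertices of round `s` choose positions independently from the kernel `ker`, given the positions of
their earlier neighbours; positions may be used several times.
-/

set_option autoImplicit false

namespace Pool.Agent.Helper5.BEC.C

open Finset Pool.Agent.Helper61.LE Pool.Agent.Helper5.BEC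

/-- data of the process -/
structure Dat (n : ℕ) where
  A : Nb n
  B : Nb n
  α : ℝ
  r : Fin n → ℕ
  T : ℕ

variable {n : ℕ}

/-- configurations: positions of the vertices -/
abbrev Cf (n : ℕ) := Fin n → Option (Fin n)

/-- positions that are not adjacent to a position of `X` -/
def Av (B : Nb n) (X : Finset (Fin n)) : Finset (Fin n) := univ.filter fun z => ∀ x ∈ X, z ∉ B.N x

/-- the kernel: law of the position given the positions `X` of the earlier neighbours -/
noncomputable def ker (D : Dat n) (w : Fin n → ℝ) (X : Finset (Fin n)) (z : Fin n) : ℝ :=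
  if z ∈ Av D.B X then (1 - D.α) * w z / (∑ y ∈ Av D.B X, w y) + D.α / #(Av D.B X) else 0

/-- earlier neighbours -/
def Ea (D : Dat n) (v : Fin n) : Finset (Fin n) :=
  (D.A.N v).filter fun u => 1 ≤ D.r u ∧ D.r u < D.r v

/-- positions of the earlier neighbours -/
def Xs (D : Dat n) (φ : Cf n) (v : Fin n) : Finset (Fin n) :=
  univ.filter fun x => ∃ u ∈ Ea D v, φ u = some x

/-- ideal law of round `s`, given `φ` -/
noncomputable def idl (D : Dat n) (w : Fin n → ℝ) (s : ℕ) (φ : Cf n) :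
    Fin n → Option (Fin n) → ℝ := fun u o =>
  if D.r u = s then
    (match o with
      | none => 0
      | some z => ker D w (Xs D φ u) z)
  else
    (match o with
      | none => 1
      | some _ => 0)

/-- the configuration after round `s` with outcome `ω` -/
def upd (D : Dat n) (s : ℕ) (φ ω : Cf n) : Cf n := fun u => if D.r u = s then ω u else φ u

/-- expectation over the ideal round `s` -/
noncomputable def Kop (D : Dat n) (w : Fin n → ℝ) (s : ℕ) (g : Cf n → ℝ) (φ : Cf n) : ℝ :=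
  EE (idl D w s φ) (fun ω => g (upd D s φ ω))

/-- expectation over the ideal rounds `s+1, …, s+j` -/
noncomputable def Psi (D : Dat n) (w : Fin n → ℝ) : ℕ → ℕ → (Cf n → ℝ) → Cf n → ℝ
  | 0, _, g => g
  | j + 1, s, g => Kop D w (s + 1) (Psi D w j (s + 1) g)

/-- the empty configuration -/
def φ0 (n : ℕ) : Cf n := fun _ => none

/-- total kernel mass at `z` of the vertices of round `s` -/
noncomputable def ell (D : Dat n) (w : Fin n → ℝ) (s : ℕ) (z : Fin n) (φ : Cf n) : ℝ :=
  ∑ u ∈ univ.filter (fun u => D.r u = s), ker D w (Xs D φ u) z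

/-- expected number of vertices placed at `z` in round `s` of the ideal process -/
noncomputable def load (D : Dat n) (w : Fin n → ℝ) (s : ℕ) (z : Fin n) : ℝ :=
  Psi D w D.T 0 (ell D w s z) (φ0 n)

/-- expected number of vertices placed at `z` in the ideal process -/
noncomputable def P (D : Dat n) (w : Fin n → ℝ) (z : Fin n) : ℝ :=
  ∑ s ∈ Icc 1 D.T, load D w s z

/-- standing assumptions -/
structure Std (D : Dat n) (k : ℕ) (ε d : ℝ) : Prop where
  n1 : 1 ≤ n
  k1 : 1 ≤ k
  dA : ∀ v, #(D.A.N v) ≤ k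
  dB : ∀ y, (#(D.B.N y) : ℝ) ≤ d
  d0 : 0 ≤ d
  hd : (k + 1) * d ≤ (1 - ε) * n
  ε0 : 0 < ε
  ε1 : ε ≤ 1 / 2
  α0 : 0 < D.α
  α1 : 4 * D.α ≤ ε
  α2 : 2 * D.α * (k + 1) ≤ 1
  rT : ∀ v, D.r v ≤ D.T
  rI : ∀ v, ∀ u ∈ D.A.N v, 1 ≤ D.r v → D.r u ≠ D.r v

/-- the weights lie in `[1, Λ]` -/
structure Wt (w : Fin n → ℝ) (Λ : ℝ) : Prop where
  w1 : ∀ z, 1 ≤ w z
  w2 : ∀ z, w z ≤ Λ

/-- properties of the labels -/
structure Lab (D : Dat n) (k : ℕ) (τ η : ℝ) : Prop where
  cnt : ∀ j ≤ k, τ * ((j + 1) / (k + 1) - η) * n ≤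
    #(univ.filter fun v => 1 ≤ D.r v ∧ #(Ea D v) ≤ j)
  tot : (#(univ.filter fun v => 1 ≤ D.r v) : ℝ) ≤ τ * (1 + η) * n
  size : ∀ s, 1 ≤ s → (#(univ.filter fun v => D.r v = s) : ℝ) ≤ 2 * n / D.T

/-- balls of the first graph -/
def bal (A : Nb n) : ℕ → Fin n → Finset (Fin n)
  | 0, v => {v}
  | j + 1, v => bal A j v ∪ (bal A j v).biUnion A.N

/-- free positions; the positions of `Bs` stay free forever -/
def Fr (Bs : Finset (Fin n)) (φ : Cf n) : Finset (Fin n) :=
  univ.filter fun z => z ∈ Bs ∨ ∀ u, φ u ≠ some z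

/-- probability that a position is still free after round `s` -/
noncomputable def fs (D : Dat n) (w : Fin n → ℝ) (Bs : Finset (Fin n)) : ℕ → Fin n → ℝ
  | 0, _ => 1
  | s + 1, z => if z ∈ Bs then 1 else
      fs D w Bs s z * Real.exp (-(load D w (s + 1) z / fs D w Bs s z))

/-- the law of the real round `s`, given `φ`; `F` free positions, `f` their probabilities, `b` the
error bound -/
noncomputable def rl (D : Dat n) (w f : Fin n → ℝ) (F : Finset (Fin n)) (b : ℝ) (s : ℕ)
    (φ : Cf n) : Fin n → Option (Fin n) → ℝ := fun u o =>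
  if D.r u = s then
    (match o with
      | none => 1 - ∑ z ∈ F, (1 - b) * (ker D w (Xs D φ u) z / f z)
      | some z => if z ∈ F then (1 - b) * (ker D w (Xs D φ u) z / f z) else 0)
  else
    (match o with
      | none => 1
      | some _ => 0)

/-- quasirandomness of the free positions for the test functions `H` -/
def QB (H : Finset (Fin n → ℝ)) (f : Fin n → ℝ) (F : Finset (Fin n)) (b : ℝ) : Prop :=
  ∀ h ∈ H, |∑ z ∈ F, h z / f z - ∑ z, h z| ≤ b

/-- the local functionals `q i v` (`i ∈ I`) are close to their ideal values after round `s` -/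
def QA (D : Dat n) (w : Fin n → ℝ) {ι : Type} (I : Finset ι) (q : ι → Fin n → Cf n → ℝ) (s : ℕ)
    (φ : Cf n) (a : ℝ) : Prop :=
  ∀ i ∈ I, |Psi D w (D.T - s) s (fun φ => ∑ v, q i v φ) φ -
    Psi D w D.T 0 (fun φ => ∑ v, q i v φ) (φ0 n)| ≤ a * n

/-- test functions: the kernel times a (future) functional of the configuration -/
noncomputable def tst (D : Dat n) (w : Fin n → ℝ) (q : Cf n → ℝ) (j s : ℕ) (u : Fin n)
    (φ : Cf n) : Fin n → ℝ :=
  fun z => ker D w (Xs D φ u) z * Psi D w j s q (Function.update φ u (some z))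

/-- the test functions for the family `q i v`, `i ∈ I`, belong to `H` -/
structure Tests (D : Dat n) (w f : Fin n → ℝ) (M : ℝ) {ι : Type} (I : Finset ι)
    (q : ι → Fin n → Cf n → ℝ) (H : Finset (Fin n → ℝ)) : Prop where
  bd : ∀ h ∈ H, ∀ z, 0 ≤ h z ∧ h z ≤ M / n
  kr : ∀ u φ, (fun z => ker D w (Xs D φ u) z) ∈ H
  fn : ∀ i ∈ I, ∀ v u φ, ∀ s ≤ D.T, ∀ j ≤ D.T, tst D w (q i v) j s u φ ∈ H
  fT : (fun z => f z / n) ∈ H

/-- local functionals with values in `[0,1]` -/
structure Loc (D : Dat n) {ι : Type} (I : Finset ι) (q : ι → Fin n → Cf n → ℝ) : Prop where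
  bd : ∀ i ∈ I, ∀ v φ, 0 ≤ q i v φ ∧ q i v φ ≤ 1
  dep : ∀ i ∈ I, ∀ v, Dep (q i v) (bal D.A 1 v)

/-- the load functional, normalised -/
noncomputable def qload (D : Dat n) (w : Fin n → ℝ) (M : ℝ) (s : ℕ) (z : Fin n) (v : Fin n)
    (φ : Cf n) : ℝ :=
  if D.r v = s then n / M * ker D w (Xs D φ v) z else 0

open Classical in
/-- the candidate functional: `v` is placed in `Av X` and no neighbour of `v` is placed in `N₂(y)` -/
noncomputable def qcand (D : Dat n) (X : Finset (Fin n)) (y : Fin n) (v : Fin n) (φ : Cf n) : ℝ :=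
  if 1 ≤ D.r v ∧ (∃ z ∈ Av D.B X, φ v = some z) ∧ ∀ p ∈ D.A.N v, ∀ z ∈ D.B.N y, φ p ≠ some z
  then 1 else 0

/-- the index type and the family of functionals that are tracked -/
abbrev Ix (n : ℕ) := (ℕ × Fin n) ⊕ (Finset (Fin n) × Fin n)

/-- the family -/
noncomputable def qf (D : Dat n) (w : Fin n → ℝ) (M : ℝ) : Ix n → Fin n → Cf n → ℝ
  | Sum.inl (s, z) => qload D w M s z
  | Sum.inr (X, y) => qcand D X y

/-- the indices -/
def II (D : Dat n) (k : ℕ) : Finset (Ix n) :=
  ((Icc 1 D.T) ×ˢ (univ : Finset (Fin n))).image Sum.inl ∪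
    (((univ : Finset (Finset (Fin n))).filter fun X => #X ≤ k) ×ˢ
      (univ : Finset (Fin n))).image Sum.inr

/-- state after round `s` -/
structure Stt (D : Dat n) (w : Fin n → ℝ) (k : ℕ) (M : ℝ) (Bs : Finset (Fin n))
    (H : Finset (Fin n → ℝ)) (s : ℕ) (φ : Cf n) (a b : ℝ) : Prop where
  lab : ∀ u, φ u ≠ none → 1 ≤ D.r u ∧ D.r u ≤ s
  val : ∀ v, ∀ u ∈ Ea D v, ∀ x y, φ u = some x → φ v = some y → y ∉ D.B.N x
  qa : QA D w (II D k) (qf D w M) s φ a
  qb : QB H (fs D w Bs s) (Fr Bs φ) b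

end Pool.Agent.Helper5.BEC.C
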