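import Mathlib
/-! Stage C, piece Kuhn: Kuhn's cubical Sperner lemma. -/
set_option autoImplicit false
namespace Pool.Agent.Helper5.BEC.C

namespace KuhnAux

/-- The steps of a cyclic chain: unit vectors, and minus the all ones vector. -/
def stp (m : ℕ) : Option (Fin m) → (Fin m → ℤ)
  | none => fun _ => -1
  | some i => fun j => if j = i then 1 else 0

theorem stp_inj (m : ℕ) : Function.Injective (stp m) := by
  intro a b h
  cases a with
  | none =>
    cases b with
    | none => rfl
    | some j =>
      have := congrFun h j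
      simp [stp] at this
  | some i =>
    cases b with
    | none =>
      have := congrFun h i
      simp [stp] at this
    | some j =>
      have h1 := congrFun h i
      by_contra hne
      have h2 : i ≠ j := fun h => hne (by rw [h])
      simp [stp, h2] at h1

/-- Simplices of Kuhn's triangulation of `ℤ^m`, with vertices indexed by the residue of the sum of
the coordinates modulo `m+1`. -/
structure Simp {m : ℕ} (v : ZMod (m+1) → (Fin m → ℤ)) : Prop where
  col : ∀ c, ((∑ i, v c i : ℤ) : ZMod (m+1)) = c
  step : ∃ σ : ZMod (m+1) → Option (Fin m), Function.Injective σ ∧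
    ∀ c, v (c+1) = v c + stp m (σ c)

/-- Exchange of the vertex `c`. -/
def flp {m : ℕ} (v : ZMod (m+1) → (Fin m → ℤ)) (c : ZMod (m+1)) : ZMod (m+1) → (Fin m → ℤ) :=
  Function.update v c (v (c-1) + v (c+1) - v c)

theorem one_ne {m : ℕ} (hm : 1 ≤ m) : (1 : ZMod (m+1)) ≠ 0 := by
  have : Fact (1 < m+1) := ⟨by omega⟩
  exact one_ne_zero

theorem flp_of_ne {m : ℕ} (v : ZMod (m+1) → (Fin m → ℤ)) {c c' : ZMod (m+1)} (h : c' ≠ c) :
    flp v c c' = v c' := by
  unfold flp
  exact Function.update_of_ne h _ _

theorem flp_self {m : ℕ} (v : ZMod (m+1) → (Fin m → ℤ)) (c : ZMod (m+1)) :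
    flp v c c = v (c-1) + v (c+1) - v c := by
  unfold flp
  exact Function.update_self _ _ _

theorem sub_one_ne {m : ℕ} (hm : 1 ≤ m) (c : ZMod (m+1)) : c - 1 ≠ c := by
  intro h
  exact one_ne hm (by linear_combination -h)

theorem add_one_ne {m : ℕ} (hm : 1 ≤ m) (c : ZMod (m+1)) : c + 1 ≠ c := by
  intro h
  exact one_ne hm (by linear_combination h)

theorem flp_flp {m : ℕ} (hm : 1 ≤ m) (v : ZMod (m+1) → (Fin m → ℤ)) (c : ZMod (m+1)) :
    flp (flp v c) c = v := by
  funext c'
  by_cases h : c' = c
  · subst h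
    rw [flp_self, flp_self, flp_of_ne v (sub_one_ne hm c'), flp_of_ne v (add_one_ne hm c')]
    abel
  · rw [flp_of_ne _ h, flp_of_ne _ h]

theorem flp_ne {m : ℕ} (hm : 1 ≤ m) {v : ZMod (m+1) → (Fin m → ℤ)} (hv : Simp v)
    (c : ZMod (m+1)) : flp v c ≠ v := by
  intro h
  have h1 := congrFun h c
  rw [flp_self] at h1
  obtain ⟨σ, hσ, hs⟩ := hv.step
  have h2 := hs (c-1)
  have h3 := hs c
  rw [sub_add_cancel] at h2
  have h4 : stp m (σ c) = stp m (σ (c-1)) := by
    funext i
    have e1 := congrFun h1 i
    have e2 := congrFun h2 i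
    have e3 := congrFun h3 i
    simp only [Pi.add_apply, Pi.sub_apply] at e1 e2 e3
    linarith
  exact sub_one_ne hm c (hσ (stp_inj m h4)).symm

theorem simp_flp {m : ℕ} (hm : 1 ≤ m) {v : ZMod (m+1) → (Fin m → ℤ)} (hv : Simp v)
    (c : ZMod (m+1)) : Simp (flp v c) := by
  obtain ⟨σ, hσ, hs⟩ := hv.step
  have h2 := hs (c-1)
  have h3 := hs c
  rw [sub_add_cancel] at h2
  refine ⟨?_, fun d => σ (Equiv.swap (c-1) c d), ?_, ?_⟩
  · intro d
    by_cases h : d = c
    · subst h
      rw [flp_self]
      simp only [Pi.add_apply, Pi.sub_apply, Finset.sum_sub_distrib, Finset.sum_add_distrib]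
      have e1 := hv.col (d-1)
      have e2 := hv.col (d+1)
      have e3 := hv.col d
      push_cast at e1 e2 e3 ⊢
      rw [e1, e2, e3]
      ring
    · rw [flp_of_ne _ h]
      exact hv.col d
  · exact hσ.comp (Equiv.injective _)
  · intro d
    by_cases h : d = c
    · subst h
      rw [flp_of_ne _ (add_one_ne hm d), flp_self]
      simp only [Equiv.swap_apply_right]
      funext i
      have e2 := congrFun h2 i
      have e3 := congrFun h3 i
      simp only [Pi.add_apply, Pi.sub_apply] at e2 e3 ⊢
      linarith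
    · by_cases h' : d = c - 1
      · subst h'
        rw [flp_of_ne _ h]
        simp only [Equiv.swap_apply_left, sub_add_cancel]
        rw [flp_self]
        funext i
        have e2 := congrFun h2 i
        have e3 := congrFun h3 i
        simp only [Pi.add_apply, Pi.sub_apply] at e2 e3 ⊢
        linarith
      · have h'' : d + 1 ≠ c := fun e => h' (by rw [← e]; ring)
        rw [flp_of_ne _ h, flp_of_ne _ h'']
        simp only [Equiv.swap_apply_of_ne_of_ne h' h]
        exact hs d

theorem unit {m : ℕ} {v : ZMod (m+1) → (Fin m → ℤ)} (hv : Simp v)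
    (c c' : ZMod (m+1)) (i : Fin m) : v c' i ≤ v c i + 1 := by
  obtain ⟨σ, hσ, hs⟩ := hv.step
  have key : ∀ k : ℕ, v (c + k) i = v c i + ∑ j ∈ Finset.range k, stp m (σ (c + j)) i := by
    intro k
    induction k with
    | zero => simp
    | succ k ih =>
      rw [Finset.sum_range_succ, ← add_assoc, ← ih]
      have := congrFun (hs (c + k)) i
      rw [Pi.add_apply] at this
      rw [← this]
      push_cast
      rw [add_assoc]
  have h1 : c' = c + ((c' - c).val : ℕ) := by
    rw [ZMod.natCast_zmod_val]
    ring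
  have h2 := key (c' - c).val
  rw [← h1] at h2
  rw [h2]
  have h3 : ∑ j ∈ Finset.range (c' - c).val, stp m (σ (c + j)) i ≤
      ∑ j ∈ Finset.range (c' - c).val, (if σ (c + j) = some i then (1:ℤ) else 0) := by
    apply Finset.sum_le_sum
    intro j _
    cases hh : σ (c + j) with
    | none => simp [stp]
    | some i' =>
      by_cases e : i = i'
      · subst e
        simp [stp]
      · simp only [stp, if_neg e]
        split_ifs <;> norm_num
  have h4 : ∑ j ∈ Finset.range (c' - c).val, (if σ (c + j) = some i then (1:ℤ) else 0) ≤ 1 := by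
    rw [← Finset.sum_filter, Finset.sum_const, nsmul_eq_mul, mul_one]
    have : (Finset.filter (fun j : ℕ => σ (c + j) = some i) (Finset.range (c' - c).val)).card ≤ 1 := by
      rw [Finset.card_le_one]
      intro a ha b hb
      rw [Finset.mem_filter, Finset.mem_range] at ha hb
      have e : (c + (a : ZMod (m+1))) = c + b := hσ (ha.2.trans hb.2.symm)
      have e' : (a : ZMod (m+1)) = b := add_left_cancel e
      have hlt : (c' - c).val < m + 1 := ZMod.val_lt _
      have e1 := congrArg ZMod.val e'
      rwa [ZMod.val_natCast_of_lt (by omega), ZMod.val_natCast_of_lt (by omega)] at e1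
    exact_mod_cast this
  linarith

/-- The label matrix. -/
def mat {m : ℕ} (L : (Fin m → ℤ) → ℕ) (v : ZMod (m+1) → (Fin m → ℤ)) :
    Matrix (ZMod (m+1)) (ZMod (m+1)) (ZMod 2) :=
  fun c l => if L (v c) = l.val then 1 else 0

theorem row_sum {m : ℕ} (n : ℕ) (hn : n ≤ m) :
    ∑ l : ZMod (m+1), (if n = l.val then (1 : ZMod 2) else 0) = 1 := by
  rw [Finset.sum_eq_single (n : ZMod (m+1))]
  · rw [ZMod.val_natCast_of_lt (by omega)]
    simp
  · intro b _ hb
    rw [if_neg]
    intro h
    apply hb
    rw [h, ZMod.natCast_zmod_val]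
  · intro h
    exact absurd (Finset.mem_univ _) h

theorem key {m : ℕ} (hm : 1 ≤ m) (L : (Fin m → ℤ) → ℕ) (hL : ∀ x, L x ≤ m)
    (c0 : ZMod (m+1)) (S : Finset (ZMod (m+1) → (Fin m → ℤ)))
    (hS : ∀ v ∈ S, ∀ c, c ≠ c0 → flp v c ∈ S) (hne : ∀ v ∈ S, ∀ c, flp v c ≠ v)
    (r : ZMod (m+1) → ZMod 2) (hr : ∑ l, r l = 0) :
    ∑ v ∈ S, ((mat L v).updateRow c0 r).det = 0 := by
  have h1 : ∀ v, ((mat L v).updateRow c0 r).det =
      ∑ c ∈ Finset.univ.erase c0,
        (((mat L v).updateRow c0 r).updateRow c (Pi.single 0 1)).det := by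
    intro v
    set A := (mat L v).updateRow c0 r with hA
    have h2 : A.adjugate * A = A.det • (1 : Matrix _ _ _) := Matrix.adjugate_mul A
    have h3 : (A.adjugate * A).mulVec (fun _ => 1) 0 = A.det := by
      rw [h2]
      simp [Matrix.smul_mulVec, Matrix.one_mulVec]
    rw [← Matrix.mulVec_mulVec] at h3
    rw [← h3, Matrix.mulVec, dotProduct]
    rw [← Finset.add_sum_erase _ _ (Finset.mem_univ c0)]
    have h4 : A.mulVec (fun _ => 1) c0 = 0 := by
      rw [Matrix.mulVec, dotProduct]
      simp only [mul_one]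
      rw [hA]
      simp only [Matrix.updateRow_self]
      exact hr
    rw [h4, mul_zero, zero_add]
    apply Finset.sum_congr rfl
    intro c hc
    have h5 : A.mulVec (fun _ => 1) c = 1 := by
      rw [Matrix.mulVec, dotProduct]
      simp only [mul_one]
      rw [hA]
      rw [Matrix.updateRow_ne (Finset.ne_of_mem_erase hc)]
      exact row_sum _ (hL _)
    rw [h5, mul_one, Matrix.adjugate_apply]
  rw [Finset.sum_congr rfl (fun v _ => h1 v), Finset.sum_comm]
  apply Finset.sum_eq_zero
  intro c hc
  have hcc : c ≠ c0 := Finset.ne_of_mem_erase hc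
  have hinv : ∀ v, (((mat L (flp v c)).updateRow c0 r).updateRow c (Pi.single 0 1)).det =
      (((mat L v).updateRow c0 r).updateRow c (Pi.single 0 1)).det := by
    intro v
    congr 1
    funext d
    by_cases h : d = c
    · subst h
      simp
    · rw [Matrix.updateRow_ne h, Matrix.updateRow_ne h]
      by_cases h' : d = c0
      · subst h'
        simp
      · rw [Matrix.updateRow_ne h', Matrix.updateRow_ne h']
        funext l
        simp only [mat, flp_of_ne v h]
  apply Finset.sum_involution (fun v _ => flp v c)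
  · intro v _
    rw [hinv v]
    exact CharTwo.add_self_eq_zero _
  · intro v hv _
    exact hne v hv c
  · intro v hv
    exact hS v hv c hcc
  · intro v _
    exact flp_flp hm v c

/-- Changing a label at one point does not change the parity. -/
theorem change {m : ℕ} (hm : 1 ≤ m) (F : Finset (ZMod (m+1) → (Fin m → ℤ))) (x : Fin m → ℤ)
    (hF : ∀ v, (∃ c, v c = x) → (v ∈ F ↔ Simp v)) (hFs : ∀ v ∈ F, Simp v)
    (L L' : (Fin m → ℤ) → ℕ)
    (hL : ∀ x, L x ≤ m) (hL' : ∀ x, L' x ≤ m) (hLL : ∀ y, y ≠ x → L y = L' y) :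
    ∑ v ∈ F, (mat L v).det = ∑ v ∈ F, (mat L' v).det := by
  classical
  rw [← sub_eq_zero, ← Finset.sum_sub_distrib]
  set c0 : ZMod (m+1) := ((∑ i, x i : ℤ) : ZMod (m+1)) with hc0
  set r : ZMod (m+1) → ZMod 2 := fun l => (if L x = l.val then 1 else 0) -
    (if L' x = l.val then 1 else 0) with hr
  have h1 : ∀ v ∈ F, (mat L v).det - (mat L' v).det =
      if v c0 = x then ((mat L v).updateRow c0 r).det else 0 := by
    intro v hv
    by_cases h : v c0 = x
    · rw [if_pos h]
      have e1 : mat L' v = (mat L v).updateRow c0 (mat L' v c0) := by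
        funext d
        by_cases hd : d = c0
        · subst hd
          simp
        · rw [Matrix.updateRow_ne hd]
          funext l
          simp only [mat]
          rw [hLL]
          intro e
          apply hd
          have := (hFs v hv).col d
          rw [e] at this
          rw [← this]
      have e2 : r = mat L v c0 - mat L' v c0 := by
        funext l
        simp only [hr, mat, Pi.sub_apply, h]
      have e3 : (mat L v).det = ((mat L v).updateRow c0 (r + mat L' v c0)).det := by
        rw [e2, sub_add_cancel, Matrix.updateRow_eq_self]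
      rw [Matrix.det_updateRow_add, ← e1] at e3
      rw [e3]
      ring
    · rw [if_neg h]
      have e1 : mat L v = mat L' v := by
        funext d l
        simp only [mat]
        rw [hLL]
        intro e
        apply h
        have := (hFs v hv).col d
        rw [e] at this
        rw [hc0, this, e]
      rw [e1, sub_self]
  rw [Finset.sum_congr rfl h1, ← Finset.sum_filter]
  apply key hm L hL c0
  · intro v hv c hc
    rw [Finset.mem_filter] at hv ⊢
    have h2 : flp v c c0 = x := by
      rw [flp_of_ne v (Ne.symm hc)]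
      exact hv.2
    exact ⟨(hF _ ⟨c0, h2⟩).2 (simp_flp hm (hFs v hv.1) c), h2⟩
  · intro v hv c
    rw [Finset.mem_filter] at hv
    exact flp_ne hm (hFs v hv.1) c
  · rw [hr, Finset.sum_sub_distrib, row_sum _ (hL x), row_sum _ (hL' x), sub_self]

/-- The standard simplex. -/
def std (m : ℕ) : ZMod (m+1) → (Fin m → ℤ) := fun c i => if (i : ℕ) < c.val then 1 else 0

theorem card_lt (m k : ℕ) (hk : k ≤ m) :
    ∑ i : Fin m, (if (i : ℕ) < k then (1:ℤ) else 0) = k := by
  rw [Fin.sum_univ_eq_sum_range (fun i => if i < k then (1:ℤ) else 0) m]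
  rw [← Finset.sum_filter]
  rw [Finset.sum_const, nsmul_eq_mul, mul_one]
  have : Finset.filter (fun i => i < k) (Finset.range m) = Finset.range k := by
    ext a
    simp only [Finset.mem_filter, Finset.mem_range]
    omega
  rw [this, Finset.card_range]

theorem simp_std (m : ℕ) : Simp (std m) := by
  refine ⟨?_, ?_⟩
  · intro c
    have hc : c.val < m + 1 := ZMod.val_lt c
    have : ∑ i, std m c i = (c.val : ℤ) := card_lt m c.val (by omega)
    rw [this]
    simp
  · refine ⟨fun c => if h : c.val < m then some ⟨c.val, h⟩ else none, ?_, ?_⟩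
    · intro a b hab
      have ha : a.val < m + 1 := ZMod.val_lt a
      have hb : b.val < m + 1 := ZMod.val_lt b
      apply ZMod.val_injective
      simp only at hab
      split_ifs at hab with h1 h2 h2
      · simpa using hab
      · omega
    · intro c
      have hc : c.val < m + 1 := ZMod.val_lt c
      funext i
      by_cases h : c.val < m
      · have e : (c + 1).val = c.val + 1 := by
          have : (c + 1) = ((c.val + 1 : ℕ) : ZMod (m+1)) := by
            push_cast
            rw [ZMod.natCast_zmod_val]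
          rw [this, ZMod.val_natCast_of_lt (by omega)]
        simp only [std, e, h, dif_pos, Pi.add_apply, stp, Fin.ext_iff]
        split_ifs <;> first | omega | norm_num
      · have e : (c + 1).val = 0 := by
          have : (c + 1) = ((m + 1 : ℕ) : ZMod (m+1)) := by
            have h2 : c.val = m := by omega
            rw [← ZMod.natCast_zmod_val c, h2]
            push_cast
            ring
          rw [this]
          simp
        simp only [std, e, h, Pi.add_apply, stp]
        have hi := i.2
        have : (i : ℕ) < c.val := by omega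
        simp [this]

/-- uniqueness -/
theorem uniq {m : ℕ} (L : (Fin m → ℤ) → ℕ) (hL : ∀ x, L x ≤ m)
    (h1 : ∀ x, ∀ i : Fin m, 1 ≤ x i → (i : ℕ) + 1 ≤ L x)
    (h2 : ∀ x, ∀ i : Fin m, x i ≤ 0 → L x ≠ (i : ℕ) + 1)
    (v : ZMod (m+1) → (Fin m → ℤ)) (hv : Simp v)
    (hall : ∀ l : ZMod (m+1), ∃ c, L (v c) = l.val) : v = std m := by
  have hlo : ∀ c i, 0 ≤ v c i := by
    intro c i
    have hi := i.2
    obtain ⟨d, hd⟩ := hall (((i : ℕ) + 1 : ℕ) : ZMod (m+1))
    rw [ZMod.val_natCast_of_lt (by omega)] at hd
    have := h2 (v d) i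
    have h3 := unit hv c d i
    by_contra hneg
    exact this (by omega) hd
  have hhi : ∀ c i, v c i ≤ 1 := by
    intro c i
    obtain ⟨d, hd⟩ := hall 0
    rw [ZMod.val_zero] at hd
    have h3 := unit hv d c i
    by_contra hneg
    have := h1 (v d) i (by omega)
    omega
  have hsum : ∀ c, ∑ i, v c i = (c.val : ℤ) := by
    intro c
    have a1 : 0 ≤ ∑ i, v c i := Finset.sum_nonneg (fun i _ => hlo c i)
    have a2 : ∑ i, v c i ≤ m := by
      calc ∑ i, v c i ≤ ∑ i : Fin m, (1:ℤ) := Finset.sum_le_sum (fun i _ => hhi c i)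
        _ = m := by simp
    have a3 := hv.col c
    obtain ⟨n, hn⟩ := Int.eq_ofNat_of_zero_le a1
    rw [hn] at a2 a3 ⊢
    have : ((n : ℕ) : ZMod (m+1)) = c := by exact_mod_cast a3
    rw [← this, ZMod.val_natCast_of_lt (by omega)]
  have hle : ∀ c : ZMod (m+1), ∀ i, v c i ≤ if (i : ℕ) < L (v c) then 1 else 0 := by
    intro c i
    split_ifs with h
    · exact hhi c i
    · by_contra hneg
      have := h1 (v c) i (by omega)
      omega
  have hcL : ∀ c : ZMod (m+1), c.val ≤ L (v c) := by
    intro c
    have : (c.val : ℤ) ≤ L (v c) := by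
      rw [← hsum c, ← card_lt m (L (v c)) (hL _)]
      exact Finset.sum_le_sum (fun i _ => hle c i)
    exact_mod_cast this
  let f : ZMod (m+1) → ZMod (m+1) := fun c => (L (v c) : ZMod (m+1))
  have hfv : ∀ c, (f c).val = L (v c) := by
    intro c
    have := hL (v c)
    exact ZMod.val_natCast_of_lt (by omega)
  have hfs : Function.Surjective f := by
    intro l
    obtain ⟨c, hc⟩ := hall l
    refine ⟨c, ?_⟩
    apply ZMod.val_injective
    rw [hfv, hc]
  have hfb : Function.Bijective f := Finite.surjective_iff_bijective.1 hfs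
  have hs : ∑ c : ZMod (m+1), c.val = ∑ c : ZMod (m+1), (f c).val :=
    ((Equiv.ofBijective f hfb).sum_comp (fun c : ZMod (m+1) => c.val)).symm
  have heq : ∀ c : ZMod (m+1), c.val = L (v c) := by
    have := (Finset.sum_eq_sum_iff_of_le (s := Finset.univ)
      (f := fun c : ZMod (m+1) => c.val) (g := fun c => (f c).val)
      (fun c _ => by rw [hfv]; exact hcL c)).1 hs
    intro c
    rw [this c (Finset.mem_univ c), hfv]
  funext c
  have h5 := (Finset.sum_eq_sum_iff_of_le (s := Finset.univ) (f := fun i => v c i)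
      (g := fun i => if (i : ℕ) < L (v c) then (1:ℤ) else 0) (fun i _ => hle c i)).1
      (by rw [hsum c, card_lt m _ (hL _), heq c])
  funext i
  rw [h5 i (Finset.mem_univ i), ← heq c]
  rfl

/-- canonical labels -/
def lab0 {m : ℕ} (x : Fin m → ℤ) : ℕ :=
  Finset.univ.sup (fun i : Fin m => if 1 ≤ x i then (i : ℕ) + 1 else 0)

theorem lab0_le {m : ℕ} (x : Fin m → ℤ) : lab0 x ≤ m := by
  apply Finset.sup_le
  intro i _
  have := i.2
  split_ifs <;> omega

theorem lab0_ge {m : ℕ} (x : Fin m → ℤ) (i : Fin m) (h : 1 ≤ x i) : (i : ℕ) + 1 ≤ lab0 x := by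
  have := Finset.le_sup (f := fun i : Fin m => if 1 ≤ x i then (i : ℕ) + 1 else 0)
    (Finset.mem_univ i)
  simp only [if_pos h] at this
  exact this

theorem lab0_ne {m : ℕ} (x : Fin m → ℤ) (i : Fin m) (h : x i ≤ 0) : lab0 x ≠ (i : ℕ) + 1 := by
  intro he
  obtain ⟨j, _, hj⟩ := Finset.exists_mem_eq_sup Finset.univ ⟨i, Finset.mem_univ i⟩
    (fun i : Fin m => if 1 ≤ x i then (i : ℕ) + 1 else 0)
  unfold lab0 at he
  rw [he] at hj
  by_cases hx : 1 ≤ x j
  · rw [if_pos hx] at hj
    have : i = j := Fin.ext (by omega)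
    subst this
    omega
  · rw [if_neg hx] at hj
    omega

theorem lab0_std (m : ℕ) (c : ZMod (m+1)) : lab0 (std m c) = c.val := by
  have hc : c.val < m + 1 := ZMod.val_lt c
  have h1 : c.val ≤ lab0 (std m c) := by
    by_cases h : c.val = 0
    · omega
    · have := lab0_ge (std m c) ⟨c.val - 1, by omega⟩ (by simp only [std]; rw [if_pos]; omega)
      simp only at this
      omega
  by_contra hne
  have h2 : c.val < lab0 (std m c) := by omega
  have h3 := lab0_le (std m c)
  have h4 := lab0_ne (std m c) ⟨lab0 (std m c) - 1, by omega⟩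
    (by simp only [std]; rw [if_neg]; omega)
  apply h4
  simp only
  omega

end KuhnAux

open KuhnAux in
/-- Kuhn's lemma. Labels `0, …, m` on the grid `{0..N}^m`; a point with `p i = 0` does not have the
label `i+1`, a point with `p i = N` has a label `≥ i+1`. Then there are points `q 0, …, q m` of a
unit cube of the grid with `lab (q i) = i`. -/
theorem kuhn (m N : ℕ) (hN : 1 ≤ N) (lab : (Fin m → ℕ) → ℕ) (hle : ∀ p, lab p ≤ m)
    (h0 : ∀ p : Fin m → ℕ, (∀ j, p j ≤ N) → ∀ i, p i = 0 → lab p ≠ (i : ℕ) + 1)
    (h1 : ∀ p : Fin m → ℕ, (∀ j, p j ≤ N) → ∀ i, p i = N → (i : ℕ) + 1 ≤ lab p) :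
    ∃ q : Fin (m + 1) → (Fin m → ℕ), (∀ i j, q i j ≤ N) ∧
      (∀ i i' j, q i j ≤ q i' j + 1) ∧ ∀ i, lab (q i) = i := by
  classical
  rcases Nat.eq_zero_or_pos m with hm | hm
  · subst hm
    refine ⟨fun _ j => j.elim0, fun _ j => j.elim0, fun _ _ j => j.elim0, fun i => ?_⟩
    have := hle (fun j : Fin 0 => j.elim0)
    have hi := i.2
    have h2 : lab (fun j : Fin 0 => j.elim0) = (i : ℕ) := by omega
    exact h2
  set B : Finset (Fin m → ℤ) := Finset.Icc (0 : Fin m → ℤ) (fun _ => (N : ℤ)) with hB
  have hmemB : ∀ x, x ∈ B ↔ ∀ i, 0 ≤ x i ∧ x i ≤ N := by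
    intro x
    rw [hB, Finset.mem_Icc, Pi.le_def, Pi.le_def]
    simp only [Pi.zero_apply]
    exact ⟨fun h i => ⟨h.1 i, h.2 i⟩, fun h => ⟨fun i => (h i).1, fun i => (h i).2⟩⟩
  have hfin : {v : ZMod (m+1) → (Fin m → ℤ) | Simp v ∧ ∃ c, v c ∈ B}.Finite := by
    apply (Set.finite_Icc (fun _ _ => (-1 : ℤ) : ZMod (m+1) → (Fin m → ℤ))
      (fun _ _ => (N + 1 : ℤ))).subset
    rintro v ⟨hv, c, hc⟩
    rw [hmemB] at hc
    rw [Set.mem_Icc]
    constructor
    · intro d i
      have e1 := unit hv d c i
      have e2 := (hc i).1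
      simp only
      linarith
    · intro d i
      have e1 := unit hv c d i
      have e2 := (hc i).2
      simp only
      linarith
  set F := hfin.toFinset with hFdef
  have hF : ∀ v, v ∈ F ↔ Simp v ∧ ∃ c, v c ∈ B := by
    intro v
    rw [hFdef, Set.Finite.mem_toFinset]
    rfl
  let lab1 : (Fin m → ℤ) → ℕ := fun x => lab (fun j => (x j).toNat)
  let LT : Finset (Fin m → ℤ) → (Fin m → ℤ) → ℕ := fun T x => if x ∈ T then lab1 x else lab0 x
  have hLT : ∀ T x, LT T x ≤ m := by
    intro T x
    simp only [LT]
    split_ifs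
    · exact hle _
    · exact lab0_le x
  have hmain : ∀ T : Finset (Fin m → ℤ), T ⊆ B →
      ∑ v ∈ F, (mat (LT T) v).det = ∑ v ∈ F, (mat (lab0 (m := m)) v).det := by
    intro T
    induction T using Finset.induction_on with
    | empty =>
      intro _
      apply Finset.sum_congr rfl
      intro v _
      congr 1
    | insert x T hx ih =>
      intro hT
      rw [← ih (fun y hy => hT (Finset.mem_insert_of_mem hy))]
      apply change hm F x
      · rintro v ⟨c, hc⟩
        rw [hF]
        constructor
        · exact fun h => h.1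
        · exact fun h => ⟨h, c, by rw [hc]; exact hT (Finset.mem_insert_self x T)⟩
      · exact fun v hv => ((hF v).1 hv).1
      · exact hLT _
      · exact hLT _
      · intro y hy
        simp only [LT, Finset.mem_insert, hy, false_or]
  have hbase : ∑ v ∈ F, (mat (lab0 (m := m)) v).det = 1 := by
    rw [Finset.sum_eq_single (std m)]
    · have : mat (lab0 (m := m)) (std m) = 1 := by
        funext c l
        simp only [mat, lab0_std, Matrix.one_apply]
        congr 1
        exact propext ⟨fun h => ZMod.val_injective _ h, fun h => by rw [h]⟩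
      rw [this, Matrix.det_one]
    · intro v hv hne
      by_contra hdet
      apply hne
      apply uniq lab0 lab0_le lab0_ge lab0_ne v ((hF v).1 hv).1
      intro l
      by_contra hl
      push Not at hl
      apply hdet
      apply Matrix.det_eq_zero_of_column_eq_zero l
      intro c
      simp only [mat]
      rw [if_neg (hl c)]
    · intro h
      exfalso
      apply h
      rw [hF]
      refine ⟨simp_std m, 0, ?_⟩
      rw [hmemB]
      intro i
      simp [std]
  have hsum := hmain B (Finset.Subset.refl B)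
  rw [hbase] at hsum
  obtain ⟨v, hv, hdet⟩ := Finset.exists_ne_zero_of_sum_ne_zero
    (by rw [hsum]; exact one_ne_zero)
  have hall : ∀ l : ZMod (m+1), ∃ c, LT B (v c) = l.val := by
    intro l
    by_contra hl
    push Not at hl
    apply hdet
    apply Matrix.det_eq_zero_of_column_eq_zero l
    intro c
    simp only [mat]
    rw [if_neg (hl c)]
  have hvs := ((hF v).1 hv).1
  have hin : ∀ c, v c ∈ B := by
    intro c
    rw [hmemB]
    intro i
    have hi := i.2
    constructor
    · by_contra hneg
      have hall0 : ∀ d, v d i ≤ 0 := by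
        intro d
        have := unit hvs c d i
        omega
      obtain ⟨d, hd⟩ := hall (((i : ℕ) + 1 : ℕ) : ZMod (m+1))
      rw [ZMod.val_natCast_of_lt (by omega)] at hd
      simp only [LT] at hd
      split_ifs at hd with hdB
      · rw [hmemB] at hdB
        apply h0 (fun j => (v d j).toNat) (fun j => by have := hdB j; omega) i _ hd
        have := hall0 d
        omega
      · exact lab0_ne _ i (hall0 d) hd
    · by_contra hneg
      have hallN : ∀ d, (N : ℤ) ≤ v d i := by
        intro d
        have := unit hvs d c i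
        omega
      obtain ⟨d, hd⟩ := hall 0
      rw [ZMod.val_zero] at hd
      simp only [LT] at hd
      split_ifs at hd with hdB
      · rw [hmemB] at hdB
        have := h1 (fun j => (v d j).toNat) (fun j => by have := hdB j; omega) i
          (by have e1 := hallN d; have e2 := hdB i; omega)
        simp only [lab1] at hd
        omega
      · have := lab0_ge (v d) i (by have := hallN d; omega)
        omega
  choose g hg using hall
  refine ⟨fun i j => (v (g ((i : ℕ) : ZMod (m+1))) j).toNat, ?_, ?_, ?_⟩
  · intro i j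
    have := (hmemB _).1 (hin (g ((i : ℕ) : ZMod (m+1)))) j
    simp only
    omega
  · intro i i' j
    have := unit hvs (g ((i' : ℕ) : ZMod (m+1))) (g ((i : ℕ) : ZMod (m+1))) j
    have e1 := (hmemB _).1 (hin (g ((i : ℕ) : ZMod (m+1)))) j
    have e2 := (hmemB _).1 (hin (g ((i' : ℕ) : ZMod (m+1)))) j
    simp only
    omega
  · intro i
    have := hg ((i : ℕ) : ZMod (m+1))
    rw [ZMod.val_natCast_of_lt i.2] at this
    simp only [LT, if_pos (hin _), lab1] at this
    exact this

end Pool.Agent.Helper5.BEC.C
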