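import Pool.Agent.Helper5.BEC.C.Defs
/-! Stage C, piece LabA: ranks of independent labels. -/
set_option autoImplicit false
namespace Pool.Agent.Helper5.BEC.C
open Finset Pool.Agent.Helper61.LE Pool.Agent.Helper5.BEC

/-- number of vertices of small rank -/
theorem labA_count {n T : ℕ} (I : Finset (Fin n)) (ω : Fin n → Fin T) (j : ℕ) :
    min (j + 1) #I ≤ #(I.filter fun u => #(I.filter fun u' => ω u' < ω u) ≤ j) := by
  classical
  by_cases hB : ∃ u ∈ I, ¬ #(I.filter fun u' => ω u' < ω u) ≤ j
  · have hne : (I.filter fun u => ¬ #(I.filter fun u' => ω u' < ω u) ≤ j).Nonempty := by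
      obtain ⟨u, hu, hu'⟩ := hB
      exact ⟨u, Finset.mem_filter.2 ⟨hu, hu'⟩⟩
    obtain ⟨u, hu, hmin⟩ := Finset.exists_min_image _ ω hne
    have hu2 := (Finset.mem_filter.1 hu).2
    have hsub : (I.filter fun u' => ω u' < ω u) ⊆
        I.filter fun u => #(I.filter fun u' => ω u' < ω u) ≤ j := by
      intro x hx
      have hx1 := (Finset.mem_filter.1 hx).1
      have hx2 := (Finset.mem_filter.1 hx).2
      refine Finset.mem_filter.2 ⟨hx1, ?_⟩
      by_contra hcon
      have h3 := hmin x (Finset.mem_filter.2 ⟨hx1, hcon⟩)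
      exact absurd hx2 (not_lt.2 h3)
    have h4 := Finset.card_le_card hsub
    have h5 : min (j + 1) #I ≤ j + 1 := min_le_left _ _
    omega
  · push Not at hB
    have h1 : (I.filter fun u => #(I.filter fun u' => ω u' < ω u) ≤ j) = I :=
      Finset.filter_true_of_mem hB
    rw [h1]
    exact min_le_right _ _

/-- exchangeability -/
theorem labA_swap {n T : ℕ} (ν : Fin T → ℝ) (I : Finset (Fin n)) (u v : Fin n) (hu : u ∈ I)
    (hv : v ∈ I) (j : ℕ) :
    PP (fun (_ : Fin n) a => ν a) (fun ω => #(I.filter fun u' => ω u' < ω u) ≤ j) =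
      PP (fun (_ : Fin n) a => ν a) (fun ω => #(I.filter fun u' => ω u' < ω v) ≤ j) := by
  classical
  have hinv : Function.Involutive
      (fun ω : Fin n → Fin T => fun i => ω (Equiv.swap u v i)) := by
    intro ω
    funext i
    simp
  have hcard : ∀ ω : Fin n → Fin T,
      #(I.filter fun u' => (fun i => ω (Equiv.swap u v i)) u' < (fun i => ω (Equiv.swap u v i)) u) =
        #(I.filter fun u' => ω u' < ω v) := by
    intro ω
    refine Finset.card_bij (fun i _ => Equiv.swap u v i) ?_ ?_ ?_
    · intro i hi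
      have h1 := (Finset.mem_filter.1 hi).1
      have h2 := (Finset.mem_filter.1 hi).2
      refine Finset.mem_filter.2 ⟨?_, ?_⟩
      · by_cases hiu : i = u
        · rw [hiu, Equiv.swap_apply_left]; exact hv
        · by_cases hiv : i = v
          · rw [hiv, Equiv.swap_apply_right]; exact hu
          · rw [Equiv.swap_apply_of_ne_of_ne hiu hiv]; exact h1
      · simpa using h2
    · intro i _ i' _ h
      exact (Equiv.swap u v).injective h
    · intro i hi
      have h1 := (Finset.mem_filter.1 hi).1
      have h2 := (Finset.mem_filter.1 hi).2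
      refine ⟨Equiv.swap u v i, Finset.mem_filter.2 ⟨?_, ?_⟩, by simp⟩
      · by_cases hiu : i = u
        · rw [hiu, Equiv.swap_apply_left]; exact hv
        · by_cases hiv : i = v
          · rw [hiv, Equiv.swap_apply_right]; exact hu
          · rw [Equiv.swap_apply_of_ne_of_ne hiu hiv]; exact h1
      · simpa using h2
  let e : Equiv.Perm (Fin n → Fin T) := Function.Involutive.toPerm _ hinv
  unfold PP EE
  rw [← Equiv.sum_comp e]
  refine Finset.sum_congr rfl fun ω _ => ?_
  have hwt : wt (fun (_ : Fin n) a => ν a) (e ω) = wt (fun (_ : Fin n) a => ν a) ω := by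
    unfold wt
    exact Equiv.prod_comp (Equiv.swap u v) (fun i => ν (ω i))
  rw [hwt]
  have h2 : (#(I.filter fun u' => (e ω) u' < (e ω) u) ≤ j) ↔
      (#(I.filter fun u' => ω u' < ω v) ≤ j) := by
    rw [← hcard ω]
    exact Iff.rfl
  congr 1
  beta_reduce
  by_cases hc : #(I.filter fun u' => ω u' < ω v) ≤ j
  · rw [if_pos hc]
    exact if_pos (h2.2 hc)
  · rw [if_neg hc]
    exact if_neg (fun h => hc (h2.1 h))

/-- Independent labels with a common law `ν`. Among the vertices of `insert v S` at least
`min (j+1) (#S+1)` have at most `j` vertices of `insert v S` with a strictly smaller label (order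
them by the labels); by exchangeability (a transposition of two coordinates preserves `EE`) every
vertex of `insert v S` has the same probability, so it is `≥ (j+1)/(#S+1) ≥ (j+1)/(k+1)`. -/
theorem rank_prob {n T : ℕ} (ν : Fin T → ℝ) (hν : ∀ a, 0 ≤ ν a) (hν1 : ∑ a, ν a = 1)
    (S : Finset (Fin n)) (v : Fin n) (hv : v ∉ S) (k j : ℕ) (hS : #S ≤ k) (hj : j ≤ k) :
    ((j : ℝ) + 1) / (k + 1) ≤
      PP (fun (_ : Fin n) a => ν a) (fun ω => #(S.filter fun u => ω u < ω v) ≤ j) := by
  classical
  have hP : IsProb (fun (_ : Fin n) (a : Fin T) => ν a) := ⟨fun _ a => hν a, fun _ => hν1⟩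
  have hcv : ∀ ω : Fin n → Fin T,
      (insert v S).filter (fun u => ω u < ω v) = S.filter fun u => ω u < ω v := by
    intro ω
    rw [Finset.filter_insert, if_neg (lt_irrefl _)]
  have e0 : PP (fun (_ : Fin n) (a : Fin T) => ν a)
      (fun ω => #(S.filter fun u => ω u < ω v) ≤ j) =
      PP (fun (_ : Fin n) (a : Fin T) => ν a)
        (fun ω => #((insert v S).filter fun u => ω u < ω v) ≤ j) := by
    congr 1
    funext ω
    rw [hcv]
  rw [e0]
  have hcardI : #(insert v S) = #S + 1 := Finset.card_insert_of_notMem hv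
  have hsum : ∑ u ∈ insert v S, PP (fun (_ : Fin n) (a : Fin T) => ν a)
      (fun ω => #((insert v S).filter fun u' => ω u' < ω u) ≤ j) =
      ((#S : ℝ) + 1) * PP (fun (_ : Fin n) (a : Fin T) => ν a)
        (fun ω => #((insert v S).filter fun u' => ω u' < ω v) ≤ j) := by
    rw [Finset.sum_congr rfl fun u hu => labA_swap ν (insert v S) u v hu
      (Finset.mem_insert_self v S) j, Finset.sum_const, hcardI, nsmul_eq_mul]
    push_cast
    rfl
  have hge : ((min (j + 1) (#S + 1) : ℕ) : ℝ) ≤
      ∑ u ∈ insert v S, PP (fun (_ : Fin n) (a : Fin T) => ν a)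
        (fun ω => #((insert v S).filter fun u' => ω u' < ω u) ≤ j) := by
    unfold PP
    rw [← EE_sum]
    calc ((min (j + 1) (#S + 1) : ℕ) : ℝ)
        = EE (fun (_ : Fin n) (a : Fin T) => ν a)
            (fun _ => ((min (j + 1) (#S + 1) : ℕ) : ℝ)) := (EE_const hP _).symm
      _ ≤ _ := by
        refine EE_mono hP fun ω => ?_
        have h1 := labA_count (insert v S) ω j
        rw [hcardI] at h1
        have h2 : ((min (j + 1) (#S + 1) : ℕ) : ℝ) ≤
            ((#((insert v S).filter fun u => #((insert v S).filter fun u' => ω u' < ω u) ≤ j) : ℕ) :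
              ℝ) := by exact_mod_cast h1
        refine h2.trans (le_of_eq ?_)
        rw [Finset.card_filter]
        push_cast
        refine Finset.sum_congr rfl fun u _ => ?_
        by_cases hc : #((insert v S).filter fun u' => ω u' < ω u) ≤ j
        · rw [if_pos hc, if_pos hc]
        · rw [if_neg hc, if_neg hc]
  rw [hsum] at hge
  set p := PP (fun (_ : Fin n) (a : Fin T) => ν a)
        (fun ω => #((insert v S).filter fun u' => ω u' < ω v) ≤ j) with hp
  have hS' : (#S : ℝ) ≤ k := by exact_mod_cast hS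
  have hj' : (j : ℝ) ≤ k := by exact_mod_cast hj
  have hs0 : (0 : ℝ) ≤ #S := Nat.cast_nonneg _
  have hj0 : (0 : ℝ) ≤ j := Nat.cast_nonneg _
  rw [div_le_iff₀ (by linarith)]
  rcases le_total (j + 1) (#S + 1) with h | h
  · rw [min_eq_left h] at hge
    push_cast at hge
    have hp0 : 0 ≤ p := by
      by_contra hcon
      push Not at hcon
      nlinarith
    nlinarith
  · rw [min_eq_right h] at hge
    push_cast at hge
    have hp1 : 1 ≤ p := by
      by_contra hcon
      push Not at hcon
      nlinarith
    nlinarith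

end Pool.Agent.Helper5.BEC.C
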