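import Pool.Agent.Helper5.BEC.C.Level
/-! Stage C, piece Lay: layer cake. -/
set_option autoImplicit false
namespace Pool.Agent.Helper5.BEC.C
open Finset Pool.Agent.Helper61.LE Pool.Agent.Helper5.BEC

variable {n k : ℕ} {D : Dat n} {ε d Λ τ η L : ℝ}

/-- `∑_z x_z (P_z - τ) = ∫_0^L ∑_{z : θ ≤ x_z} (P_z - τ) dθ ≥ - ∫_0^L (η + 4 R_θ) n dθ` by `level`, and
`∫_0^L R_θ dθ ≤ 2/ε` because `∫_{x_z}^L exp (x_z - θ) dθ ≤ 1`. -/
theorem key_sum (hS : Std D k ε d) (hL : Lab D k τ η) (hτ : 0 ≤ τ) (hτ1 : τ ≤ 1) (hη : 0 ≤ η)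
    (hL0 : 0 ≤ L) (x : Fin n → ℝ) (hx : ∀ z, 0 ≤ x z ∧ x z ≤ L) :
    -(n * (L * η + 8 / ε)) ≤ ∑ z, x z * (P D (fun y => Real.exp (x y)) z - τ) := by
  classical
  have hn : (0 : ℝ) < n := by exact_mod_cast hS.n1
  have hε := hS.ε0
  obtain ⟨p, hp⟩ : ∃ p : Fin n → ℝ, p = fun z => P D (fun y => Real.exp (x y)) z - τ := ⟨_, rfl⟩
  obtain ⟨S, hSdef⟩ : ∃ S : Fin n → Set ℝ, S = fun z => {θ | θ ≤ x z} := ⟨_, rfl⟩
  have hSm : ∀ z, MeasurableSet (S z) := fun z => by
    rw [hSdef]; exact measurableSet_Iic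
  obtain ⟨h, hh⟩ : ∃ h : Fin n → ℝ → ℝ, h = fun z => Set.indicator (S z) (fun _ => (1 : ℝ)) :=
    ⟨_, rfl⟩
  obtain ⟨e, he⟩ : ∃ e : Fin n → ℝ → ℝ, e = fun z θ => Real.exp (x z - θ) := ⟨_, rfl⟩
  obtain ⟨ie, hie⟩ : ∃ ie : Fin n → ℝ → ℝ, ie = fun z => Set.indicator (S z) (e z) := ⟨_, rfl⟩
  have iind : ∀ (z : Fin n) (f : ℝ → ℝ), IntervalIntegrable f MeasureTheory.volume 0 L →
      IntervalIntegrable (Set.indicator (S z) f) MeasureTheory.volume 0 L := by
    intro z f hf
    exact ⟨hf.1.indicator (hSm z), hf.2.indicator (hSm z)⟩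
  have h_ii : ∀ z, IntervalIntegrable (h z) MeasureTheory.volume 0 L := fun z => by
    rw [hh]; exact iind z _ intervalIntegrable_const
  have e_ii : ∀ z, IntervalIntegrable (e z) MeasureTheory.volume 0 L := fun z => by
    rw [he]
    exact (Real.continuous_exp.comp (continuous_const.sub continuous_id)).intervalIntegrable _ _
  have ie_ii : ∀ z, IntervalIntegrable (ie z) MeasureTheory.volume 0 L := fun z => by
    rw [hie]; exact iind z _ (e_ii z)
  have h_int : ∀ z, ∫ θ in (0 : ℝ)..L, h z θ = x z := by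
    intro z
    rw [hh, hSdef]
    change ∫ θ in (0 : ℝ)..L, Set.indicator {θ | θ ≤ x z} (fun _ => (1 : ℝ)) θ = x z
    rw [intervalIntegral.integral_indicator ⟨(hx z).1, (hx z).2⟩]
    simp
  have e_int : ∀ z b, ∫ θ in (0 : ℝ)..b, e z θ = Real.exp (x z) - Real.exp (x z - b) := by
    intro z b
    rw [he]
    change ∫ θ in (0 : ℝ)..b, Real.exp (x z - θ) = _
    rw [intervalIntegral.integral_comp_sub_left (fun u => Real.exp u) (x z), integral_exp,
      sub_zero]
  have ie_int : ∀ z, ∫ θ in (0 : ℝ)..L, ie z θ = Real.exp (x z) - 1 := by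
    intro z
    rw [hie, hSdef]
    change ∫ θ in (0 : ℝ)..L, Set.indicator {θ | θ ≤ x z} (e z) θ = _
    rw [intervalIntegral.integral_indicator ⟨(hx z).1, (hx z).2⟩, e_int, sub_self, Real.exp_zero]
  have g_int : ∀ z, ∫ θ in (0 : ℝ)..L, (e z θ - ie z θ) ≤ 1 := by
    intro z
    rw [intervalIntegral.integral_sub (e_ii z) (ie_ii z), e_int, ie_int]
    have := (Real.exp_pos (x z - L)).le
    linarith
  have g_eq : ∀ z θ, e z θ - ie z θ = if x z < θ then Real.exp (x z - θ) else 0 := by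
    intro z θ
    rw [hie, hSdef]
    change e z θ - Set.indicator {θ | θ ≤ x z} (e z) θ = _
    by_cases hz : x z < θ
    · rw [if_pos hz, Set.indicator_of_notMem (show θ ∉ {θ | θ ≤ x z} from fun hm => absurd hm (not_le.2 hz)),
        sub_zero, he]
    · rw [if_neg hz, Set.indicator_of_mem (show θ ∈ {θ | θ ≤ x z} from not_lt.1 hz), sub_self]
  have hRL : ∀ θ, RL n ε x θ = 2 / (ε * n) * ∑ z, (e z θ - ie z θ) := by
    intro θ
    unfold RL
    rw [Finset.sum_filter]
    refine congrArg (fun t => 2 / (ε * (n : ℝ)) * t) (Finset.sum_congr rfl fun z _ => ?_)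
    rw [g_eq]
  have hRL0 : ∀ θ, 0 ≤ RL n ε x θ := by
    intro θ
    unfold RL
    exact mul_nonneg (by positivity) (Finset.sum_nonneg fun z _ => (Real.exp_pos _).le)
  have hpt : ∀ θ, -(n * η) - 4 * n * (2 / (ε * n) * ∑ z, (e z θ - ie z θ)) ≤
      ∑ z, p z * h z θ := by
    intro θ
    have h1 := level hS hL hτ hτ1 hη x (fun z => (hx z).1) θ
    have h2 : ∑ z, p z * h z θ = ∑ z ∈ SL x θ, P D (fun y => Real.exp (x y)) z -
        τ * #(SL x θ) := by
      have h3 : ∀ z, p z * h z θ = if θ ≤ x z then p z else 0 := by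
        intro z
        rw [hh, hSdef]
        change p z * Set.indicator {θ | θ ≤ x z} (fun _ => (1 : ℝ)) θ = _
        by_cases hz : θ ≤ x z
        · rw [if_pos hz, Set.indicator_of_mem (show θ ∈ {θ | θ ≤ x z} from hz), mul_one]
        · rw [if_neg hz, Set.indicator_of_notMem (show θ ∉ {θ | θ ≤ x z} from fun hm => hz hm), mul_zero]
      rw [Finset.sum_congr rfl (fun z _ => h3 z), ← Finset.sum_filter, hp]
      change ∑ z ∈ SL x θ, (P D (fun y => Real.exp (x y)) z - τ) = _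
      rw [Finset.sum_sub_distrib, Finset.sum_const, nsmul_eq_mul]
      ring
    rw [h2, ← hRL θ]
    have h4 : 0 ≤ (1 - τ) * ((η + 4 * RL n ε x θ) * n) :=
      mul_nonneg (by linarith) (mul_nonneg (by linarith [hRL0 θ]) hn.le)
    nlinarith [h1, h4]
  have sum_ii : IntervalIntegrable (fun θ => ∑ z, (e z θ - ie z θ)) MeasureTheory.volume 0 L := by
    have := IntervalIntegrable.sum (μ := MeasureTheory.volume) (a := 0) (b := L) Finset.univ
      (f := fun z θ => e z θ - ie z θ) (fun z _ => (e_ii z).sub (ie_ii z))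
    refine this.congr ?_
    exact fun θ _ => Finset.sum_apply _ _ _
  have hFi : IntervalIntegrable (fun θ => ∑ z, p z * h z θ) MeasureTheory.volume 0 L := by
    have := IntervalIntegrable.sum (μ := MeasureTheory.volume) (a := 0) (b := L) Finset.univ
      (f := fun z θ => p z * h z θ) (fun z _ => (h_ii z).const_mul (p z))
    refine this.congr ?_
    exact fun θ _ => Finset.sum_apply _ _ _
  have hGi : IntervalIntegrable
      (fun θ => -(n * η) - 4 * n * (2 / (ε * n) * ∑ z, (e z θ - ie z θ)))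
      MeasureTheory.volume 0 L :=
    intervalIntegrable_const.sub ((sum_ii.const_mul _).const_mul _)
  have hmono := intervalIntegral.integral_mono_on hL0 hGi hFi (fun θ _ => hpt θ)
  have hF : ∫ θ in (0 : ℝ)..L, ∑ z, p z * h z θ = ∑ z, p z * x z := by
    rw [intervalIntegral.integral_finsetSum (fun z _ => (h_ii z).const_mul (p z))]
    refine Finset.sum_congr rfl fun z _ => ?_
    rw [intervalIntegral.integral_const_mul, h_int]
  have hG : ∫ θ in (0 : ℝ)..L, (-(n * η) - 4 * n * (2 / (ε * n) * ∑ z, (e z θ - ie z θ))) =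
      -(n * η) * L - 4 * n * (2 / (ε * n) * ∑ z, ∫ θ in (0 : ℝ)..L, (e z θ - ie z θ)) := by
    rw [intervalIntegral.integral_sub intervalIntegrable_const
      ((sum_ii.const_mul _).const_mul _), intervalIntegral.integral_const,
      intervalIntegral.integral_const_mul, intervalIntegral.integral_const_mul,
      intervalIntegral.integral_finsetSum (fun z _ => (e_ii z).sub (ie_ii z))]
    simp only [sub_zero, smul_eq_mul]
    ring
  rw [hF, hG] at hmono
  have hsum : ∑ z, ∫ θ in (0 : ℝ)..L, (e z θ - ie z θ) ≤ n := by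
    calc ∑ z, ∫ θ in (0 : ℝ)..L, (e z θ - ie z θ) ≤ ∑ _z : Fin n, (1 : ℝ) :=
          Finset.sum_le_sum fun z _ => g_int z
      _ = n := by simp
  have h5 : 4 * n * (2 / (ε * n) * ∑ z, ∫ θ in (0 : ℝ)..L, (e z θ - ie z θ)) ≤
      4 * n * (2 / (ε * n) * n) := by
    refine mul_le_mul_of_nonneg_left (mul_le_mul_of_nonneg_left hsum (by positivity))
      (by positivity)
  have h6 : 4 * (n : ℝ) * (2 / (ε * n) * n) = n * (8 / ε) := by
    field_simp
    ring
  have h7 : ∑ z, x z * (P D (fun y => Real.exp (x y)) z - τ) = ∑ z, p z * x z := by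
    rw [hp]
    exact Finset.sum_congr rfl fun z _ => mul_comm _ _
  rw [h7]
  nlinarith [hmono, h5, h6]

end Pool.Agent.Helper5.BEC.C
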