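import Pool.Agent.Helper5.BEC.C.Psi
/-! Stage C, piece Level: level sets of the weights attract enough load. -/
set_option autoImplicit false
namespace Pool.Agent.Helper5.BEC.C
open Finset Pool.Agent.Helper61.LE Pool.Agent.Helper5.BEC

variable {n k : ℕ} {D : Dat n} {ε d Λ τ η : ℝ}

/-- the level set -/
noncomputable def SL (x : Fin n → ℝ) (θ : ℝ) : Finset (Fin n) := univ.filter fun z => θ ≤ x z

/-- the leak -/
noncomputable def RL (n : ℕ) (ε : ℝ) (x : Fin n → ℝ) (θ : ℝ) : ℝ :=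
  2 / (ε * n) * ∑ z ∈ univ.filter (fun z => x z < θ), Real.exp (x z - θ)

theorem lv_RL_nonneg (hS : Std D k ε d) (x : Fin n → ℝ) (θ : ℝ) : 0 ≤ RL n ε x θ := by
  unfold RL
  have h1 : 0 ≤ ∑ z ∈ univ.filter (fun z => x z < θ), Real.exp (x z - θ) :=
    sum_nonneg fun z _ => (Real.exp_pos _).le
  have h2 : 0 ≤ ε := hS.ε0.le
  positivity

theorem lv_Wt (x : Fin n → ℝ) (hx : ∀ z, 0 ≤ x z) :
    Wt (fun y => Real.exp (x y)) (∑ y, Real.exp (x y)) := by
  constructor
  · intro z
    exact Real.one_le_exp (hx z)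
  · intro z
    exact single_le_sum (f := fun y => Real.exp (x y)) (fun y _ => (Real.exp_pos _).le)
      (mem_univ z)

theorem lv_load {w : Fin n → ℝ} (hS : Std D k ε d) (hw : Wt w Λ) (S : Finset (Fin n)) (j : ℕ)
    (q : ℝ) (hq : ∀ v, #(Ea D v) ≤ j → ∀ φ, q ≤ ∑ z ∈ S, ker D w (Xs D φ v) z) :
    q * #(univ.filter fun v => 1 ≤ D.r v ∧ #(Ea D v) ≤ j) ≤ ∑ z ∈ S, P D w z := by
  rw [P_set]
  have hcard : #(univ.filter fun v => 1 ≤ D.r v ∧ #(Ea D v) ≤ j) =
      ∑ s ∈ Icc 1 D.T, #((univ.filter fun v => 1 ≤ D.r v ∧ #(Ea D v) ≤ j).filter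
        fun v => D.r v = s) := by
    apply card_eq_sum_card_fiberwise
    intro v hv
    have hv' : 1 ≤ D.r v := by
      have := (mem_filter.mp hv).2
      exact this.1
    exact mem_Icc.mpr ⟨hv', hS.rT v⟩
  rw [hcard]
  push_cast
  rw [mul_sum]
  apply sum_le_sum
  intro s _
  have hnn : ∀ v, 0 ≤ Psi D w D.T 0 (fun φ => ∑ z ∈ S, ker D w (Xs D φ v) z) (φ0 n) := by
    intro v
    have h1 := Psi_mono hS hw (g := fun _ => (0 : ℝ))
      (g' := fun φ => ∑ z ∈ S, ker D w (Xs D φ v) z)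
      (fun φ => sum_nonneg fun z _ => ker_nonneg hS hw _ z) D.T 0 (φ0 n)
    rw [Psi_const hS hw] at h1
    exact h1
  calc q * (#((univ.filter fun v => 1 ≤ D.r v ∧ #(Ea D v) ≤ j).filter fun v => D.r v = s) : ℝ)
      = ∑ _v ∈ (univ.filter fun v => 1 ≤ D.r v ∧ #(Ea D v) ≤ j).filter fun v => D.r v = s, q := by
        rw [sum_const, nsmul_eq_mul, mul_comm]
    _ ≤ ∑ v ∈ (univ.filter fun v => 1 ≤ D.r v ∧ #(Ea D v) ≤ j).filter fun v => D.r v = s,
          Psi D w D.T 0 (fun φ => ∑ z ∈ S, ker D w (Xs D φ v) z) (φ0 n) := by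
        apply sum_le_sum
        intro v hv
        have hv1 := (mem_filter.mp (mem_filter.mp hv).1).2
        have h1 := Psi_mono hS hw (g := fun _ => q)
          (g' := fun φ => ∑ z ∈ S, ker D w (Xs D φ v) z) (hq v hv1.2) D.T 0 (φ0 n)
        rw [Psi_const hS hw] at h1
        exact h1
    _ ≤ ∑ v ∈ univ.filter (fun v => D.r v = s),
          Psi D w D.T 0 (fun φ => ∑ z ∈ S, ker D w (Xs D φ v) z) (φ0 n) := by
        apply sum_le_sum_of_subset_of_nonneg
        · intro v hv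
          exact mem_filter.mpr ⟨mem_univ _, (mem_filter.mp hv).2⟩
        · intro v _ _
          exact hnn v

/-- Kernel mass of the level set, `σ = #S/n`. `#(Av X ∩ S) ≥ #S - j d ≥ (ε/2) #S`, the weights on `S`
are `≥ e^θ`, the weights outside `S` sum up to `e^θ (ε n/2) R`: the weight part of the mass is
at least `σ/(σ+R)`; the uniform part: `#(Av X ∩ S)/#Av X ≥ 1 - (n-#S)/#Av X ≥ 1-(k+1)(1-σ)`. -/
theorem kmass (hS : Std D k ε d) (x : Fin n → ℝ) (θ : ℝ) (X : Finset (Fin n)) (j : ℕ)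
    (hX : #X ≤ j) (hjk : j ≤ k) (hj : j * d ≤ (1 - ε / 2) * #(SL x θ)) (hne : (SL x θ).Nonempty)
    (hx : ∀ z, 0 ≤ x z) :
    (1 - D.α) * ((#(SL x θ) / n : ℝ) / (#(SL x θ) / n + RL n ε x θ)) ≤
      ∑ z ∈ SL x θ, ker D (fun y => Real.exp (x y)) X z ∧
    (1 - D.α) * ((#(SL x θ) / n : ℝ) / (#(SL x θ) / n + RL n ε x θ)) +
      D.α * (1 - (k + 1) * (1 - #(SL x θ) / n)) ≤
      ∑ z ∈ SL x θ, ker D (fun y => Real.exp (x y)) X z := by
  set S := SL x θ with hSdef
  set A := Av D.B X with hA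
  set R := RL n ε x θ with hR
  have hn : (0 : ℝ) < n := by exact_mod_cast hS.n1
  have hα0 := hS.α0
  have hε0 := hS.ε0
  have hε1 := hS.ε1
  have hα1 : D.α ≤ 1 := by linarith [hS.α1]
  have hR0 : 0 ≤ R := lv_RL_nonneg hS x θ
  have hSpos : (0 : ℝ) < #S := by exact_mod_cast card_pos.mpr hne
  have hXj : (#X : ℝ) * d ≤ j * d :=
    mul_le_mul_of_nonneg_right (by exact_mod_cast hX) hS.d0
  have hAc := Av_card hS X
  rw [← hA] at hAc
  have hAc' := Av_card' hS X (hX.trans hjk)
  rw [← hA] at hAc'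
  have hAcomp : #(A \ S) + #S ≤ n := by
    have h1 : Disjoint (A \ S) S := disjoint_sdiff_self_left
    rw [← card_union_of_disjoint h1]
    exact (card_le_univ _).trans (by rw [Fintype.card_fin])
  have hAsplit : #(A \ S) + #(A ∩ S) = #A := card_sdiff_add_card_inter A S
  have hAcompR : (#(A \ S) : ℝ) + #S ≤ n := by exact_mod_cast hAcomp
  have hAsplitR : (#(A \ S) : ℝ) + #(A ∩ S) = #A := by exact_mod_cast hAsplit
  have hm : ε / 2 * #S ≤ #(A ∩ S) := by
    nlinarith
  have hmpos : (0 : ℝ) < #(A ∩ S) := lt_of_lt_of_le (by positivity) hm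
  have hApos : (0 : ℝ) < #A := by
    have : (0 : ℝ) ≤ #(A \ S) := by positivity
    linarith
  -- weights
  set a := ∑ y ∈ A ∩ S, Real.exp (x y) with ha
  set b := ∑ y ∈ A \ S, Real.exp (x y) with hb
  have hsumA : ∑ y ∈ A, Real.exp (x y) = a + b := by
    rw [ha, hb, ← sum_inter_add_sum_sdiff A S]
  have hage : ε / 2 * #S * Real.exp θ ≤ a := by
    calc ε / 2 * #S * Real.exp θ ≤ #(A ∩ S) * Real.exp θ :=
          mul_le_mul_of_nonneg_right hm (Real.exp_pos _).le
      _ = ∑ _y ∈ A ∩ S, Real.exp θ := by rw [sum_const, nsmul_eq_mul]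
      _ ≤ a := by
          rw [ha]
          apply sum_le_sum
          intro y hy
          have : y ∈ S := (mem_inter.mp hy).2
          rw [hSdef] at this
          unfold SL at this
          exact Real.exp_le_exp.mpr (mem_filter.mp this).2
  have hble : b ≤ Real.exp θ * (ε * n / 2) * R := by
    have h1 : b ≤ ∑ y ∈ univ.filter (fun z => x z < θ), Real.exp (x y) := by
      rw [hb]
      apply sum_le_sum_of_subset_of_nonneg
      · intro y hy
        have h2 := (mem_sdiff.mp hy).2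
        rw [mem_filter]
        refine ⟨mem_univ _, ?_⟩
        by_contra h3
        apply h2
        rw [hSdef]
        unfold SL
        rw [mem_filter]
        exact ⟨mem_univ _, not_lt.mp h3⟩
      · intro y _ _
        exact (Real.exp_pos _).le
    have h2 : ∑ y ∈ univ.filter (fun z => x z < θ), Real.exp (x y) =
        Real.exp θ * ∑ y ∈ univ.filter (fun z => x z < θ), Real.exp (x y - θ) := by
      rw [mul_sum]
      apply sum_congr rfl
      intro y _
      rw [← Real.exp_add]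
      congr 1
      ring
    rw [h2] at h1
    refine h1.trans (le_of_eq ?_)
    rw [hR]
    unfold RL
    field_simp
  have hb0 : 0 ≤ b := by
    rw [hb]
    exact sum_nonneg fun y _ => (Real.exp_pos _).le
  have hE : 0 < Real.exp θ := Real.exp_pos _
  have ha0 : 0 < a := lt_of_lt_of_le (by positivity) hage
  have hσ0 : (0 : ℝ) < #S / n := by positivity
  have hfrac : (#S / n : ℝ) / (#S / n + R) ≤ a / (a + b) := by
    rw [div_le_div_iff₀ (by positivity) (by positivity)]
    have h1 : (#S / n : ℝ) * b ≤ R * a := by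
      calc (#S / n : ℝ) * b ≤ (#S / n : ℝ) * (Real.exp θ * (ε * n / 2) * R) :=
            mul_le_mul_of_nonneg_left hble hσ0.le
        _ = R * (ε / 2 * #S * Real.exp θ) := by field_simp
        _ ≤ R * a := mul_le_mul_of_nonneg_left hage hR0
    nlinarith
  have hker : ∑ z ∈ S, ker D (fun y => Real.exp (x y)) X z =
      (1 - D.α) * (a / (a + b)) + D.α * (#(A ∩ S) / #A) := by
    have h1 : ∑ z ∈ S, ker D (fun y => Real.exp (x y)) X z =
        ∑ z ∈ A ∩ S, ((1 - D.α) * Real.exp (x z) / (a + b) + D.α / #A) := by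
      rw [inter_comm, ← filter_mem_eq_inter, sum_filter]
      apply sum_congr rfl
      intro z _
      unfold ker
      rw [← hA, hsumA]
    rw [h1, sum_add_distrib, sum_const, nsmul_eq_mul, ← sum_div, ← mul_sum, ← ha]
    ring
  have h1α : 0 ≤ 1 - D.α := by linarith
  have hmain : (1 - D.α) * ((#S / n : ℝ) / (#S / n + R)) ≤ (1 - D.α) * (a / (a + b)) :=
    mul_le_mul_of_nonneg_left hfrac h1α
  rw [hker]
  constructor
  · have : 0 ≤ D.α * (#(A ∩ S) / #A : ℝ) := by positivity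
    linarith
  · have h2 : 1 - ((k : ℝ) + 1) * (1 - #S / n) ≤ (#(A ∩ S) / #A : ℝ) := by
      rw [le_div_iff₀ hApos]
      have hk : (0 : ℝ) < (k : ℝ) + 1 := by positivity
      have h3 : (n : ℝ) ≤ #A * (k + 1) := by
        rwa [div_le_iff₀ hk] at hAc'
      have h4 : (0 : ℝ) ≤ n - #S := by
        have : (0 : ℝ) ≤ #(A \ S) := by positivity
        linarith
      have h5 : (n - #S : ℝ) ≤ ((k : ℝ) + 1) * (1 - #S / n) * #A := by
        have h6 : (1 - #S / n : ℝ) = (n - #S) / n := by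
          field_simp
        rw [h6]
        calc (n - #S : ℝ) = (n - #S) / n * n := by field_simp
          _ ≤ (n - #S) / n * (#A * (k + 1)) := mul_le_mul_of_nonneg_left h3 (by positivity)
          _ = ((k : ℝ) + 1) * ((n - #S) / n) * #A := by ring
      nlinarith
    have h3 : D.α * (1 - ((k : ℝ) + 1) * (1 - #S / n)) ≤ D.α * (#(A ∩ S) / #A : ℝ) :=
      mul_le_mul_of_nonneg_left h2 hα0.le
    linarith

/-- The load of the level set `S`, `σ = #S/n`, `R = RL`. By `P_set`, `Psi_mono`, `Psi_const` it is at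
least the number of vertices with `#Ea ≤ j` times a lower bound for the mass (`kmass`, `Xs_card`).
Case `k d ≤ (1-ε/2) #S`: all labelled vertices (`cnt` with `j = k`), mass `≥ σ - 4R`: if `σ ≥ 1/2`
use the second bound: `(1-α)(1 - R/(σ+R)) + α - α(k+1)(1-σ) ≥ 1 - R/(σ+R) - (1-σ)/2 ≥ σ - 2R`
(`2α(k+1) ≤ 1`); if `σ < 1/2` and `R ≤ 1/4`, `(1-α) σ/(σ+R) ≥ (3/4)(4/3) σ`; if `R > 1/4` trivial.
Otherwise let `j < k` be the largest with `j d ≤ (1-ε/2) #S`; then `(j+1) d > (1-ε/2) σ n` and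
`(k+1) d ≤ (1-ε) n` give `(j+1)/(k+1) ≥ (1+ε/2) σ`, and
`τ((1+ε/2)σ - η) n (1-α)(1 - R/σ) ≥ τ (σ - η - 2R) n` because `(1-α)(1+ε/2) ≥ 1`. -/
theorem level (hS : Std D k ε d) (hL : Lab D k τ η) (hτ : 0 ≤ τ) (hτ1 : τ ≤ 1) (hη : 0 ≤ η)
    (x : Fin n → ℝ) (hx : ∀ z, 0 ≤ x z) (θ : ℝ) :
    τ * (#(SL x θ) - (η + 4 * RL n ε x θ) * n) ≤
      ∑ z ∈ SL x θ, P D (fun y => Real.exp (x y)) z := by
  have hn : (0 : ℝ) < n := by exact_mod_cast hS.n1
  have hw := lv_Wt x hx
  have hR0 : 0 ≤ RL n ε x θ := lv_RL_nonneg hS x θ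
  rcases (SL x θ).eq_empty_or_nonempty with he | hne
  · rw [he, sum_empty, card_empty, Nat.cast_zero]
    have h1 : 0 ≤ (η + 4 * RL n ε x θ) * n := by positivity
    nlinarith
  have hα0 := hS.α0
  have hα4 := hS.α1
  have hε0 := hS.ε0
  have hε1 := hS.ε1
  have hα1 : D.α ≤ 1 / 8 := by linarith
  have hk0 : (0 : ℝ) < (k : ℝ) + 1 := by positivity
  have hSpos : (0 : ℝ) < #(SL x θ) := by exact_mod_cast card_pos.mpr hne
  have hSn : (#(SL x θ) : ℝ) ≤ n := by
    have := card_le_univ (SL x θ)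
    rw [Fintype.card_fin] at this
    exact_mod_cast this
  obtain ⟨σ, hσ⟩ : ∃ σ : ℝ, σ = #(SL x θ) / n := ⟨_, rfl⟩
  have hσS : (#(SL x θ) : ℝ) = σ * n := by rw [hσ]; field_simp
  have hσ0 : 0 < σ := by rw [hσ]; exact div_pos hSpos hn
  have hσ1 : σ ≤ 1 := by
    rw [hσ, div_le_one hn]; exact hSn
  obtain ⟨R, hR⟩ : ∃ R : ℝ, R = RL n ε x θ := ⟨_, rfl⟩
  rw [← hR] at hR0
  have hρ0 : 0 ≤ σ / (σ + R) := by positivity
  have hρ1 : σ / (σ + R) ≤ 1 := by
    rw [div_le_one (by linarith)]; linarith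
  have hρR : 1 - σ / (σ + R) = R / (σ + R) := by
    have : σ + R ≠ 0 := by linarith
    field_simp
    ring
  -- the general lower bound
  have key : ∀ (j : ℕ), j ≤ k → (j * d ≤ (1 - ε / 2) * #(SL x θ)) → ∀ q : ℝ, 0 ≤ q → q ≤ 1 →
      (q ≤ (1 - D.α) * (σ / (σ + R)) ∨
        q ≤ (1 - D.α) * (σ / (σ + R)) + D.α * (1 - (k + 1) * (1 - σ))) →
      τ * ((q * ((j + 1) / (k + 1))) - η) * n ≤
        ∑ z ∈ SL x θ, P D (fun y => Real.exp (x y)) z := by
    intro j hjk hj q hq0 hq1 hq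
    have h1 := lv_load hS hw (SL x θ) j q (by
      intro v hv φ
      have h2 := kmass hS x θ (Xs D φ v) j ((Xs_card φ v).trans hv) hjk hj hne hx
      rw [← hσ, ← hR] at h2
      rcases hq with h | h
      · exact h.trans h2.1
      · exact h.trans h2.2)
    have h3 := hL.cnt j hjk
    refine le_trans ?_ h1
    have h4 : q * (τ * ((j + 1) / (k + 1) - η) * n) ≤
        q * #(univ.filter fun v => 1 ≤ D.r v ∧ #(Ea D v) ≤ j) :=
      mul_le_mul_of_nonneg_left h3 hq0
    refine le_trans ?_ h4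
    have h5 : 0 ≤ τ * n * (η * (1 - q)) := by
      have : 0 ≤ 1 - q := by linarith
      positivity
    nlinarith
  have hgoal : τ * (#(SL x θ) - (η + 4 * RL n ε x θ) * n) = τ * (σ - 4 * R - η) * n := by
    rw [← hR, hσS]; ring
  rw [hgoal]
  have hτn : 0 ≤ τ * n := by positivity
  have fin : ∀ c : ℝ, σ - 4 * R ≤ c → τ * (c - η) * n ≤
      ∑ z ∈ SL x θ, P D (fun y => Real.exp (x y)) z →
      τ * (σ - 4 * R - η) * n ≤ ∑ z ∈ SL x θ, P D (fun y => Real.exp (x y)) z := by
    intro c hc h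
    refine le_trans ?_ h
    nlinarith
  by_cases hcase : (k : ℝ) * d ≤ (1 - ε / 2) * #(SL x θ)
  · have hkk : ((k : ℝ) + 1) / (k + 1) = 1 := div_self hk0.ne'
    by_cases h12 : 1 / 2 ≤ σ
    · -- second bound
      set q := (1 - D.α) * (σ / (σ + R)) + D.α * (1 - (k + 1) * (1 - σ)) with hqdef
      have hRf : R / (σ + R) ≤ 2 * R := by
        rw [div_le_iff₀ (by linarith)]
        nlinarith
      have hq2 : σ - 2 * R ≤ q := by
        have h1 : D.α * (k + 1) * (1 - σ) ≤ 1 / 2 * (1 - σ) :=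
          mul_le_mul_of_nonneg_right (by linarith [hS.α2]) (by linarith)
        have h2 : 0 ≤ D.α * (1 - σ / (σ + R)) := mul_nonneg hα0.le (by linarith)
        have h3 : q = σ / (σ + R) + D.α * (1 - σ / (σ + R)) - D.α * (k + 1) * (1 - σ) := by
          rw [hqdef]; ring
        linarith
      by_cases hq0 : 0 ≤ q
      · have hq1 : q ≤ 1 := by
          have h1 : (1 - D.α) * (σ / (σ + R)) ≤ (1 - D.α) * 1 :=
            mul_le_mul_of_nonneg_left hρ1 (by linarith)
          have h2 : 0 ≤ D.α * ((k + 1) * (1 - σ)) := by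
            have : 0 ≤ 1 - σ := by linarith
            positivity
          rw [hqdef]
          nlinarith
        have h1 := key k le_rfl hcase q hq0 hq1 (Or.inr le_rfl)
        rw [hkk, mul_one] at h1
        exact fin q (by linarith) h1
      · have h1 := key k le_rfl hcase 0 le_rfl (by norm_num)
          (Or.inl (mul_nonneg (by linarith) hρ0))
        rw [zero_mul] at h1
        exact fin 0 (by linarith) h1
    · push Not at h12
      by_cases hR4 : R ≤ 1 / 4
      · have h1 := key k le_rfl hcase σ hσ0.le hσ1 (Or.inl (by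
          rw [mul_div_assoc', le_div_iff₀ (by linarith)]
          nlinarith))
        rw [hkk, mul_one] at h1
        exact fin σ (by linarith) h1
      · push Not at hR4
        have h1 := key k le_rfl hcase 0 le_rfl (by norm_num)
          (Or.inl (mul_nonneg (by linarith) hρ0))
        rw [zero_mul] at h1
        exact fin 0 (by linarith) h1
  · -- the largest `j`
    classical
    have hex : ∃ j : ℕ, (1 - ε / 2) * #(SL x θ) < ((j : ℝ) + 1) * d := by
      refine ⟨k, ?_⟩
      push Not at hcase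
      have := hS.d0
      nlinarith
    obtain ⟨j, hj, hjmin⟩ : ∃ j : ℕ, (1 - ε / 2) * #(SL x θ) < ((j : ℝ) + 1) * d ∧
        ∀ i < j, ¬ ((1 - ε / 2) * #(SL x θ) < ((i : ℝ) + 1) * d) :=
      ⟨Nat.find hex, Nat.find_spec hex, fun i hi => Nat.find_min hex hi⟩
    have hjk : j ≤ k := by
      by_contra h
      push Not at h
      have h1 := hjmin k h
      push Not at h1 hcase
      have := hS.d0
      nlinarith
    have hjd : (j : ℝ) * d ≤ (1 - ε / 2) * #(SL x θ) := by
      rcases Nat.eq_zero_or_pos j with h | h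
      · rw [h, Nat.cast_zero, zero_mul]
        have : 0 ≤ 1 - ε / 2 := by linarith
        exact mul_nonneg this hSpos.le
      · have h1 := hjmin (j - 1) (by omega)
        push Not at h1
        have h2 : ((j - 1 : ℕ) : ℝ) + 1 = j := by
          rw [Nat.cast_sub h]; push_cast; ring
        rwa [h2] at h1
    have hc : (1 + ε / 2) * σ ≤ ((j : ℝ) + 1) / (k + 1) := by
      rw [le_div_iff₀ hk0]
      have hdpos : 0 < d := by
        by_contra hd
        have hd0 : d = 0 := le_antisymm (not_lt.mp hd) hS.d0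
        rw [hd0, mul_zero] at hj
        have : 0 ≤ (1 - ε / 2) * #(SL x θ) := by
          have : 0 ≤ 1 - ε / 2 := by linarith
          exact mul_nonneg this hSpos.le
        linarith
      have h1 := hS.hd
      rw [hσS] at hj
      -- compare after multiplication with d
      have h2 : (1 + ε / 2) * σ * (k + 1) * d ≤ (j + 1) * d := by
        have h3 : (1 + ε / 2) * σ * ((k + 1) * d) ≤ (1 + ε / 2) * σ * ((1 - ε) * n) :=
          mul_le_mul_of_nonneg_left h1 (by positivity)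
        have h4 : (1 + ε / 2) * σ * ((1 - ε) * n) ≤ (1 - ε / 2) * (σ * n) := by
          have h5 : (1 + ε / 2) * (1 - ε) ≤ 1 - ε / 2 := by nlinarith
          have h6 : 0 ≤ σ * n := by positivity
          nlinarith
        nlinarith
      exact le_of_mul_le_mul_right h2 hdpos
    have hq0 : 0 ≤ (1 - D.α) * (σ / (σ + R)) := mul_nonneg (by linarith) hρ0
    have hq1 : (1 - D.α) * (σ / (σ + R)) ≤ 1 := by
      nlinarith
    have h1 := key j hjk hjd _ hq0 hq1 (Or.inl le_rfl)
    refine fin _ ?_ h1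
    have h2 : (1 - D.α) * (σ / (σ + R)) * ((1 + ε / 2) * σ) ≤
        (1 - D.α) * (σ / (σ + R)) * (((j : ℝ) + 1) / (k + 1)) :=
      mul_le_mul_of_nonneg_left hc hq0
    have h3 : (1 : ℝ) ≤ (1 - D.α) * (1 + ε / 2) := by nlinarith
    have h4 : σ / (σ + R) * σ ≤ (1 - D.α) * (σ / (σ + R)) * ((1 + ε / 2) * σ) := by
      have h5 : 0 ≤ σ / (σ + R) * σ := by positivity
      nlinarith
    have h6 : σ - R ≤ σ / (σ + R) * σ := by
      have h7 : σ / (σ + R) * σ = σ - σ * (R / (σ + R)) := by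
        rw [← hρR]; ring
      have h8 : σ * (R / (σ + R)) ≤ R := by
        rw [mul_div_assoc', div_le_iff₀ (by linarith)]
        nlinarith
      linarith
    linarith

end Pool.Agent.Helper5.BEC.C
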