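import Pool.Agent.Helper5.BEC.C.Bounded
import Pool.Agent.Helper5.BEC.B.F
/-! Stage C, piece Main: the final theorem (`bounded` is in C/Bounded.lean). -/
set_option autoImplicit false
namespace Pool.Agent.Helper5.BEC.C
open Finset Pool.Agent.Helper5.BEC

/-- The asymptotic Bollobás–Eldridge–Catlin conjecture: `bec_const` (stage B) if both degree bounds
are at least `D₀`; otherwise `bounded` for the finitely many `k < D₀` (and the symmetric case; `k = 0`
is trivial). -/
theorem asymptotic (ε : ℝ) (h0 : 0 < ε) :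
    ∃ n₀ : ℕ, ∀ (V : Type) [Fintype V] (G₁ G₂ : SimpleGraph V) (D₁ D₂ : ℕ),
      n₀ ≤ Fintype.card V →
      (∀ v, (G₁.neighborSet v).ncard ≤ D₁) → (∀ v, (G₂.neighborSet v).ncard ≤ D₂) →
      ((D₁ : ℝ) + 1) * (D₂ + 1) ≤ (1 - ε) * Fintype.card V →
      ∃ τ : Equiv.Perm V, ∀ u v, G₁.Adj u v → ¬ G₂.Adj (τ u) (τ v) := by
  classical
  obtain ⟨D₀, hD₀⟩ := B.bec_const ε h0
  have hb : ∀ k : ℕ, ∃ n0 : ℕ, 1 ≤ k → ∀ n ≥ n0, ∀ (A B : Nb n) (d : ℝ), (∀ v, #(A.N v) ≤ k) →
      0 ≤ d → (∀ y, (#(B.N y) : ℝ) ≤ d) → (k + 1) * d ≤ (1 - min ε (1 / 2)) * n →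
      ∃ τ : Equiv.Perm (Fin n), ∀ u v, u ∈ A.N v → τ u ∉ B.N (τ v) := by
    intro k
    rcases Nat.eq_zero_or_pos k with h | h
    · exact ⟨0, fun h' => by omega⟩
    · obtain ⟨n0, hn0⟩ := bounded k h (min ε (1 / 2)) (lt_min h0 (by norm_num)) (min_le_right _ _)
      exact ⟨n0, fun _ => hn0⟩
  choose N hN using hb
  refine ⟨∑ k ∈ range ⌈D₀⌉₊, N k, ?_⟩
  intro V _ G₁ G₂ D₁ D₂ hV hd1 hd2 hDD
  have hVR : (0 : ℝ) ≤ Fintype.card V := Nat.cast_nonneg _
  have hDD' : ((D₁ : ℝ) + 1) * (D₂ + 1) ≤ (1 - min ε (1 / 2)) * Fintype.card V := by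
    refine hDD.trans (mul_le_mul_of_nonneg_right ?_ hVR)
    have := min_le_left ε (1 / 2)
    linarith
  have hD1 : (0 : ℝ) ≤ D₁ := Nat.cast_nonneg _
  have hD2 : (0 : ℝ) ≤ D₂ := Nat.cast_nonneg _
  obtain ⟨e⟩ : Nonempty (V ≃ Fin (Fintype.card V)) := ⟨Fintype.equivFin V⟩
  let mk : SimpleGraph V → Nb (Fintype.card V) := fun G =>
    { N := fun v => univ.filter fun u => G.Adj (e.symm v) (e.symm u)
      symm := fun u v h => by
        simp only [mem_filter, mem_univ, true_and] at h ⊢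
        exact h.symm
      irr := fun v => by simp }
  have hmk : ∀ (G : SimpleGraph V) u v, u ∈ (mk G).N v ↔ G.Adj (e.symm v) (e.symm u) := by
    intro G u v
    simp [mk]
  have hcard : ∀ (G : SimpleGraph V) v, #((mk G).N v) = (G.neighborSet (e.symm v)).ncard := by
    intro G v
    have h1 : ((mk G).N v : Set (Fin (Fintype.card V))) = e '' (G.neighborSet (e.symm v)) := by
      ext u
      simp only [mem_coe, hmk, Set.mem_image, SimpleGraph.mem_neighborSet]
      constructor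
      · intro h
        exact ⟨e.symm u, h, by simp⟩
      · rintro ⟨x, hx, rfl⟩
        simpa using hx
    rw [← Set.ncard_coe_finset, h1, Set.ncard_image_of_injective _ e.injective]
  -- one of the degree bounds is small
  have key : ∀ (G H : SimpleGraph V) (D E : ℕ), (∀ v, (G.neighborSet v).ncard ≤ D) →
      (∀ v, (H.neighborSet v).ncard ≤ E) → (D : ℝ) < D₀ →
      ((D : ℝ) + 1) * (E + 1) ≤ (1 - min ε (1 / 2)) * Fintype.card V →
      ∃ τ : Equiv.Perm V, ∀ u v, G.Adj u v → ¬ H.Adj (τ u) (τ v) := by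
    intro G H D E hG hH hD hle
    rcases Nat.eq_zero_or_pos D with h | h
    · refine ⟨Equiv.refl V, fun u v huv _ => ?_⟩
      have h1 : (G.neighborSet u).ncard = 0 := by
        have := hG u
        omega
      rw [Set.ncard_eq_zero (Set.toFinite _)] at h1
      have h2 : v ∈ G.neighborSet u := huv
      rw [h1] at h2
      exact h2
    · have hDm : D ∈ range ⌈D₀⌉₊ := mem_range.2 (Nat.lt_ceil.2 hD)
      have hND : N D ≤ Fintype.card V :=
        (single_le_sum (f := N) (fun _ _ => Nat.zero_le _) hDm).trans hV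
      have hD' : (0 : ℝ) ≤ D := Nat.cast_nonneg _
      have hE' : (0 : ℝ) ≤ E := Nat.cast_nonneg _
      obtain ⟨τ, hτ⟩ := hN D h (Fintype.card V) hND (mk G) (mk H) E
        (fun v => by rw [hcard]; exact hG _) hE'
        (fun y => by rw [hcard]; exact_mod_cast hH _) (by nlinarith)
      refine ⟨(e.trans τ).trans e.symm, ?_⟩
      intro u v huv h
      have h1 : e u ∈ (mk G).N (e v) := by
        rw [hmk]
        simpa using huv.symm
      have h2 := hτ _ _ h1
      apply h2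
      rw [hmk]
      simpa using h.symm
  rcases lt_or_ge (D₁ : ℝ) D₀ with h1 | h1
  · exact key G₁ G₂ D₁ D₂ hd1 hd2 h1 hDD'
  · rcases lt_or_ge (D₂ : ℝ) D₀ with h2 | h2
    · obtain ⟨τ, hτ⟩ := key G₂ G₁ D₂ D₁ hd2 hd1 h2 (by rw [mul_comm]; exact hDD')
      refine ⟨τ.symm, fun u v huv h => ?_⟩
      have := hτ _ _ h
      simp only [Equiv.apply_symm_apply] at this
      exact this huv
    · exact hD₀ V G₁ G₂ D₁ D₂ (fun v => by exact_mod_cast hd1 v) (fun v => by exact_mod_cast hd2 v)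
        h1 h2 (by nlinarith)

end Pool.Agent.Helper5.BEC.C
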