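import Pool.Agent.Helper5.BEC.C.Psi
/-! Stage C, piece RA: the real law; change of the functionals in expectation. -/
set_option autoImplicit false
namespace Pool.Agent.Helper5.BEC.C
open Finset Pool.Agent.Helper61.LE Pool.Agent.Helper5.BEC

variable {n k : ℕ} {D : Dat n} {w f : Fin n → ℝ} {ε d Λ b M : ℝ} {F : Finset (Fin n)}
  {H : Finset (Fin n → ℝ)}

theorem ra_sum_bd (hS : Std D k ε d) (hw : Wt w Λ) (hQ : QB H f F b)
    (hH : ∀ u φ, (fun z => ker D w (Xs D φ u) z) ∈ H) (φ : Cf n) (u : Fin n) :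
    |∑ z ∈ F, ker D w (Xs D φ u) z / f z - 1| ≤ b := by
  have h1 := hQ _ (hH u φ)
  rw [ker_sum hS hw _ (Xs_card' hS φ u)] at h1
  exact h1

/-- `∑_{z ∈ F} ker/f ≤ 1 + b` by `QB`, `(1-b)(1+b) ≤ 1` -/
theorem isProb_rl (hS : Std D k ε d) (hw : Wt w Λ) (hf : ∀ z, 0 < f z) (_hb0 : 0 ≤ b)
    (hb1 : b ≤ 1) (hQ : QB H f F b) (hH : ∀ u φ, (fun z => ker D w (Xs D φ u) z) ∈ H) (s : ℕ)
    (φ : Cf n) : IsProb (rl D w f F b s φ) := by
  constructor
  · intro u o
    unfold rl
    split_ifs with hu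
    · cases o with
      | none =>
        show 0 ≤ 1 - ∑ z ∈ F, (1 - b) * (ker D w (Xs D φ u) z / f z)
        rw [← Finset.mul_sum]
        have h1 := (abs_le.1 (ra_sum_bd hS hw hQ hH φ u)).2
        have h2 : (1 - b) * ∑ z ∈ F, ker D w (Xs D φ u) z / f z ≤ (1 - b) * (1 + b) :=
          mul_le_mul_of_nonneg_left (by linarith) (by linarith)
        nlinarith [sq_nonneg b]
      | some z =>
        show 0 ≤ if z ∈ F then (1 - b) * (ker D w (Xs D φ u) z / f z) else 0
        split_ifs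
        · exact mul_nonneg (by linarith) (div_nonneg (ker_nonneg hS hw _ z) (hf z).le)
        · exact le_rfl
    · cases o with
      | none => show (0 : ℝ) ≤ 1; norm_num
      | some z => show (0 : ℝ) ≤ 0; exact le_rfl
  · intro u
    rw [Fintype.sum_option]
    unfold rl
    split_ifs with hu
    · show (1 - ∑ z ∈ F, (1 - b) * (ker D w (Xs D φ u) z / f z)) +
        ∑ z, (if z ∈ F then (1 - b) * (ker D w (Xs D φ u) z / f z) else 0) = 1
      rw [Finset.sum_ite_mem, Finset.univ_inter]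
      ring
    · show (1 : ℝ) + ∑ z : Fin n, (0 : ℝ) = 1
      simp

/-- `|∑_{z ∈ F} h/f - ∑ h| ≤ b` for `h = ker · G` and `h = ker` -/
theorem rl_diff (hS : Std D k ε d) (hw : Wt w Λ) (_hf : ∀ z, 0 < f z) (hb0 : 0 ≤ b)
    (hb1 : b ≤ 1) (hQ : QB H f F b) (hH : ∀ u φ, (fun z => ker D w (Xs D φ u) z) ∈ H) (s : ℕ)
    (φ : Cf n) (u : Fin n) (G : Option (Fin n) → ℝ) (hG : ∀ o, 0 ≤ G o ∧ G o ≤ 1)
    (hGH : (fun z => ker D w (Xs D φ u) z * G (some z)) ∈ H) :
    |∑ o, (rl D w f F b s φ u o - idl D w s φ u o) * G o| ≤ 4 * b := by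
  rw [Fintype.sum_option]
  by_cases hu : D.r u = s
  · have e1 : rl D w f F b s φ u none = 1 - ∑ z ∈ F, (1 - b) * (ker D w (Xs D φ u) z / f z) := by
      unfold rl; rw [if_pos hu]
    have e2 : idl D w s φ u none = 0 := by
      unfold idl; rw [if_pos hu]
    have e3 : ∀ z, rl D w f F b s φ u (some z) =
        if z ∈ F then (1 - b) * (ker D w (Xs D φ u) z / f z) else 0 := by
      intro z
      unfold rl; rw [if_pos hu]
    have e4 : ∀ z, idl D w s φ u (some z) = ker D w (Xs D φ u) z := by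
      intro z
      unfold idl; rw [if_pos hu]
    rw [e1, e2]
    simp only [e3, e4]
    set K := ∑ z ∈ F, ker D w (Xs D φ u) z / f z with hK
    set A := ∑ z ∈ F, ker D w (Xs D φ u) z * G (some z) / f z with hA
    set B := ∑ z, ker D w (Xs D φ u) z * G (some z) with hB
    have hKb := abs_le.1 (ra_sum_bd hS hw hQ hH φ u)
    rw [← hK] at hKb
    have hAB := abs_le.1 (hQ _ hGH)
    have hAB' : A - B ≤ b ∧ -b ≤ A - B := ⟨hAB.2, hAB.1⟩
    have hB0 : 0 ≤ B := Finset.sum_nonneg fun z _ =>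
      mul_nonneg (ker_nonneg hS hw _ z) (hG _).1
    have hB1 : B ≤ 1 := by
      rw [← ker_sum hS hw _ (Xs_card' hS φ u)]
      refine Finset.sum_le_sum fun z _ => ?_
      exact mul_le_of_le_one_right (ker_nonneg hS hw _ z) (hG _).2
    have hsum : ∑ z, ((if z ∈ F then (1 - b) * (ker D w (Xs D φ u) z / f z) else 0) -
        ker D w (Xs D φ u) z) * G (some z) = (1 - b) * A - B := by
      have h0 : ∀ z, ((if z ∈ F then (1 - b) * (ker D w (Xs D φ u) z / f z) else 0) -
          ker D w (Xs D φ u) z) * G (some z) =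
          (if z ∈ F then (1 - b) * (ker D w (Xs D φ u) z * G (some z) / f z) else 0) -
            ker D w (Xs D φ u) z * G (some z) := by
        intro z
        split_ifs
        · ring
        · ring
      rw [Finset.sum_congr rfl fun z _ => h0 z, Finset.sum_sub_distrib, Finset.sum_ite_mem,
        Finset.univ_inter, hA, hB, Finset.mul_sum]
    have hK' : ∑ z ∈ F, (1 - b) * (ker D w (Xs D φ u) z / f z) = (1 - b) * K := by
      rw [hK, Finset.mul_sum]
    rw [hsum, hK', sub_zero]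
    obtain ⟨hG0, hG1⟩ := hG none
    have h1 : 0 ≤ 1 - (1 - b) * K := by nlinarith [sq_nonneg b, hKb.2]
    have h2 : 1 - (1 - b) * K ≤ 2 * b := by nlinarith [sq_nonneg b, hKb.1]
    have h3 : 0 ≤ (1 - (1 - b) * K) * G none := mul_nonneg h1 hG0
    have h4 : (1 - (1 - b) * K) * G none ≤ 2 * b := by nlinarith
    have h5 : |(1 - b) * A - B| ≤ 2 * b := by
      rw [abs_le]
      constructor
      · nlinarith [hAB'.2]
      · nlinarith [hAB'.1]
    have h6 := abs_le.1 h5
    rw [abs_le]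
    constructor
    · linarith [h6.1]
    · linarith [h6.2]
  · have e1 : ∀ o, rl D w f F b s φ u o = idl D w s φ u o := by
      intro o
      unfold rl idl
      rw [if_neg hu, if_neg hu]
    simp only [e1, sub_self, zero_mul, Finset.sum_const_zero, add_zero, abs_zero]
    linarith

/-- `hybrid` with `S = bal (1 + T) v`, `e u = 4 b`; the functional
`ω ↦ Psi (T-(s+1)) (s+1) q (upd (s+1) φ ω)` depends on `ω` in the ball only (`Psi_dep`), and
`upd (s+1) φ (update ω u (some z)) = update (upd (s+1) φ ω) u (some z)` for `r u = s+1`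
(nothing changes for the other `u`, where both laws agree), `Xs_upd`. -/
theorem roundA_mean (hS : Std D k ε d) (hw : Wt w Λ) (hf : ∀ z, 0 < f z) (hb0 : 0 ≤ b)
    (hb1 : b ≤ 1) (hQ : QB H f F b) (hH : ∀ u φ, (fun z => ker D w (Xs D φ u) z) ∈ H)
    (q : Cf n → ℝ) (hq : ∀ φ, 0 ≤ q φ ∧ q φ ≤ 1) (v : Fin n) (hdep : Dep q (bal D.A 1 v))
    (hT : ∀ u φ, ∀ s ≤ D.T, ∀ j ≤ D.T, tst D w q j s u φ ∈ H) (s : ℕ) (hs : s < D.T)
    (φ : Cf n) :
    |EE (rl D w f F b (s + 1) φ) (fun ω => Psi D w (D.T - (s + 1)) (s + 1) q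
      (upd D (s + 1) φ ω)) - Psi D w (D.T - s) s q φ| ≤ 4 * b * ((k : ℝ) + 1) ^ (D.T + 1) := by
  obtain ⟨j, hj⟩ : ∃ j, D.T - (s + 1) = j := ⟨_, rfl⟩
  have hj' : D.T - s = j + 1 := by omega
  rw [hj', hj]
  have hjT : j ≤ D.T := by omega
  have e0 : Psi D w (j + 1) s q φ =
      EE (idl D w (s + 1) φ) (fun ω => Psi D w j (s + 1) q (upd D (s + 1) φ ω)) := rfl
  rw [e0]
  have hD := Psi_dep hS hw 1 j (s + 1) v hdep
  have hdep' : Dep (fun ω => Psi D w j (s + 1) q (upd D (s + 1) φ ω)) (bal D.A (1 + j) v) := by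
    intro ω ω' h
    refine hD _ _ fun i hi => ?_
    unfold upd
    split_ifs
    · exact h i hi
    · rfl
  have key := hybrid (isProb_rl hS hw hf hb0 hb1 hQ hH (s + 1) φ)
    (isProb_idl hS hw (s + 1) φ) (bal D.A (1 + j) v) _ hdep' (fun _ => 4 * b) (by
      intro u _ ω
      by_cases hu : D.r u = s + 1
      · refine rl_diff hS hw hf hb0 hb1 hQ hH (s + 1) φ u
          (fun o => Psi D w j (s + 1) q (upd D (s + 1) φ (Function.update ω u o)))
          (fun o => Psi_bd hS hw hq j (s + 1) _) ?_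
        have h1 := hT u (upd D (s + 1) φ ω) (s + 1) (by omega) j hjT
        unfold tst at h1
        rw [Xs_upd φ ω u (s + 1) hu.le] at h1
        have h2 : ∀ z, upd D (s + 1) φ (Function.update ω u (some z)) =
            Function.update (upd D (s + 1) φ ω) u (some z) := by
          intro z
          funext x
          by_cases hx : x = u
          · subst hx
            simp [upd, hu]
          · simp [upd, Function.update_of_ne hx]
        simp only [h2]
        exact h1
      · have e1 : ∀ o, rl D w f F b (s + 1) φ u o = idl D w (s + 1) φ u o := by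
          intro o
          unfold rl idl
          rw [if_neg hu, if_neg hu]
        simp only [e1, sub_self, zero_mul, Finset.sum_const_zero, abs_zero]
        linarith)
  refine key.trans ?_
  rw [Finset.sum_const, nsmul_eq_mul]
  have h1 : (#(bal D.A (1 + j) v) : ℝ) ≤ ((k : ℝ) + 1) ^ (1 + j) := by
    exact_mod_cast bal_card hS.dA (1 + j) v
  have h2 : ((k : ℝ) + 1) ^ (1 + j) ≤ ((k : ℝ) + 1) ^ (D.T + 1) := by
    refine pow_le_pow_right₀ ?_ (by omega)
    have : (0 : ℝ) ≤ k := Nat.cast_nonneg k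
    linarith
  have h3 : (#(bal D.A (1 + j) v) : ℝ) * (4 * b) ≤ ((k : ℝ) + 1) ^ (D.T + 1) * (4 * b) :=
    mul_le_mul_of_nonneg_right (h1.trans h2) (by linarith)
  linarith

end Pool.Agent.Helper5.BEC.C
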