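import Pool.Agent.Helper5.BEC.C.Psi
import Pool.Agent.Helper5.BEC.St.T1
/-! Stage C, piece RAc: concentration of the functionals. -/
set_option autoImplicit false
namespace Pool.Agent.Helper5.BEC.C
open Finset Pool.Agent.Helper61.LE Pool.Agent.Helper5.BEC

variable {n k : ℕ} {D : Dat n} {w f : Fin n → ℝ} {ε d Λ b M t : ℝ}

/-- changing one coordinate of the outcome changes the functional by at most the size of a ball -/
private theorem roundA_lip (hS : Std D k ε d) (hw : Wt w Λ) (q : Fin n → Cf n → ℝ)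
    (hq : ∀ v φ, 0 ≤ q v φ ∧ q v φ ≤ 1) (hdep : ∀ v, Dep (q v) (bal D.A 1 v)) (s : ℕ)
    (hs : s < D.T) (φ : Cf n) (u : Fin n) (ω : Fin n → Option (Fin n)) (a b : Option (Fin n)) :
    |Psi D w (D.T - (s + 1)) (s + 1) (fun φ => ∑ v, q v φ)
        (upd D (s + 1) φ (Function.update ω u a)) -
      Psi D w (D.T - (s + 1)) (s + 1) (fun φ => ∑ v, q v φ)
        (upd D (s + 1) φ (Function.update ω u b))| ≤ ((k : ℝ) + 1) ^ (D.T + 1) := by
  have e : ∀ ψ, Psi D w (D.T - (s + 1)) (s + 1) (fun φ => ∑ v, q v φ) ψ =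
      ∑ v, Psi D w (D.T - (s + 1)) (s + 1) (q v) ψ := fun ψ =>
    Psi_sum univ q (D.T - (s + 1)) (s + 1) ψ
  rw [e, e, ← sum_sub_distrib]
  have hterm : ∀ v, |Psi D w (D.T - (s + 1)) (s + 1) (q v)
        (upd D (s + 1) φ (Function.update ω u a)) -
      Psi D w (D.T - (s + 1)) (s + 1) (q v) (upd D (s + 1) φ (Function.update ω u b))| ≤
      if v ∈ bal D.A (D.T + 1) u then 1 else 0 := by
    intro v
    by_cases hv : v ∈ bal D.A (D.T + 1) u
    · rw [if_pos hv]
      have h1 := Psi_bd hS hw (hq v) (D.T - (s + 1)) (s + 1)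
        (upd D (s + 1) φ (Function.update ω u a))
      have h2 := Psi_bd hS hw (hq v) (D.T - (s + 1)) (s + 1)
        (upd D (s + 1) φ (Function.update ω u b))
      rw [abs_le]
      constructor <;> linarith [h1.1, h1.2, h2.1, h2.2]
    · rw [if_neg hv]
      have hd := Psi_dep hS hw 1 (D.T - (s + 1)) (s + 1) v (hdep v)
      have : Psi D w (D.T - (s + 1)) (s + 1) (q v) (upd D (s + 1) φ (Function.update ω u a)) =
          Psi D w (D.T - (s + 1)) (s + 1) (q v) (upd D (s + 1) φ (Function.update ω u b)) := by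
        refine hd _ _ fun p hp => ?_
        have hpu : p ≠ u := by
          rintro rfl
          exact hv (bal_symm (bal_mono (by omega) v hp))
        unfold upd
        split_ifs
        · rw [Function.update_of_ne hpu, Function.update_of_ne hpu]
        · rfl
      rw [this, sub_self, abs_zero]
  calc _ ≤ ∑ v, |Psi D w (D.T - (s + 1)) (s + 1) (q v)
        (upd D (s + 1) φ (Function.update ω u a)) -
      Psi D w (D.T - (s + 1)) (s + 1) (q v) (upd D (s + 1) φ (Function.update ω u b))| :=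
        abs_sum_le_sum_abs _ _
    _ ≤ ∑ v, (if v ∈ bal D.A (D.T + 1) u then (1 : ℝ) else 0) := sum_le_sum fun v _ => hterm v
    _ = #(bal D.A (D.T + 1) u) := by
        rw [sum_boole]
        congr 2
        ext v
        simp
    _ ≤ ((k : ℝ) + 1) ^ (D.T + 1) := by
        exact_mod_cast bal_card hS.dA (D.T + 1) u

/-- `tail` (T1) for the functional divided by `n`: changing the coordinate `u` changes only the
summands `v` with `u ∈ bal (T+1) v`, i.e. `v ∈ bal (T+1) u` (`Psi_dep`, `bal_symm`, `bal_card`),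
each by at most `1` (`Psi_bd`): costs `K0/(2n) = m` for all values, `L = K0/2`,
`K0 = (k+1)^(T+1)`: `t²/(16 m L) = t² n/(4 K0²)`. -/
theorem roundA_tail (hS : Std D k ε d) (hw : Wt w Λ) {μ : Fin n → Option (Fin n) → ℝ}
    (hμ : IsProb μ) (q : Fin n → Cf n → ℝ) (hq : ∀ v φ, 0 ≤ q v φ ∧ q v φ ≤ 1)
    (hdep : ∀ v, Dep (q v) (bal D.A 1 v)) (s : ℕ) (hs : s < D.T) (φ : Cf n) (ht : 0 ≤ t)
    (ht1 : t ≤ 1) :
    PP μ (fun ω => t * n ≤ |Psi D w (D.T - (s + 1)) (s + 1) (fun φ => ∑ v, q v φ)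
        (upd D (s + 1) φ ω) -
      EE μ (fun ω => Psi D w (D.T - (s + 1)) (s + 1) (fun φ => ∑ v, q v φ)
        (upd D (s + 1) φ ω))|) ≤
      2 * Real.exp (-(t ^ 2 * n / (4 * (((k : ℝ) + 1) ^ (D.T + 1)) ^ 2))) := by
  have hn : (0 : ℝ) < n := by exact_mod_cast hS.n1
  set F : (Fin n → Option (Fin n)) → ℝ := fun ω =>
    Psi D w (D.T - (s + 1)) (s + 1) (fun φ => ∑ v, q v φ) (upd D (s + 1) φ ω) with hF
  set K0 : ℝ := ((k : ℝ) + 1) ^ (D.T + 1) with hK0
  have hK1 : 1 ≤ K0 := one_le_pow₀ (by linarith [(Nat.cast_nonneg k : (0 : ℝ) ≤ k)])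
  have hK : 0 < K0 := by linarith
  have htail := tail hμ (fun _ _ => K0 / (2 * n)) (fun ω => (1 / (n : ℝ)) * F ω)
    (m := K0 / (2 * n)) (L := K0 / 2) (t := t) (fun _ _ => by positivity) (fun _ _ => le_rfl)
    (by positivity) (by
      have : ∀ i : Fin n, ∑ a, μ i a * (K0 / (2 * n)) = K0 / (2 * n) := fun i => by
        rw [← Finset.sum_mul, hμ.sum_one, one_mul]
      rw [Finset.sum_congr rfl fun i _ => this i, Finset.sum_const, Finset.card_univ,
        Fintype.card_fin, nsmul_eq_mul]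
      apply le_of_eq
      field_simp) (by positivity) ht (by linarith) (fun i ω a b => by
      have h1 := roundA_lip hS hw q hq hdep s hs φ i ω a b
      rw [← mul_sub, abs_mul, abs_of_pos (by positivity)]
      calc 1 / (n : ℝ) * |F (Function.update ω i a) - F (Function.update ω i b)|
          ≤ 1 / (n : ℝ) * K0 := mul_le_mul_of_nonneg_left h1 (by positivity)
        _ = K0 / (2 * n) + K0 / (2 * n) := by field_simp; ring)
  have e1 : EE μ (fun ω => (1 / (n : ℝ)) * F ω) = 1 / n * EE μ F := EE_const_mul _ _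
  have e2 : 16 * (K0 / (2 * n)) * (K0 / 2) = 4 * K0 ^ 2 / n := by field_simp; ring
  rw [e1, e2] at htail
  have e3 : t ^ 2 / (4 * K0 ^ 2 / n) = t ^ 2 * n / (4 * K0 ^ 2) := by
    rw [div_div_eq_mul_div]
  rw [e3] at htail
  refine le_trans (le_of_eq (PP_congr fun ω => ?_)) htail
  rw [← mul_sub, abs_mul, abs_of_pos (by positivity : 0 < 1 / (n : ℝ)), one_div_mul_eq_div,
    le_div_iff₀ hn]

end Pool.Agent.Helper5.BEC.C
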