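import Pool.Agent.Helper5.BEC.C.RB
/-! Stage C, piece RBc: test functions after one round: mean and concentration. -/
set_option autoImplicit false
namespace Pool.Agent.Helper5.BEC.C
open Finset Pool.Agent.Helper61.LE Pool.Agent.Helper5.BEC

variable {n k : ℕ} {D : Dat n} {w : Fin n → ℝ} {ε d Λ τ η ζ a b M t : ℝ}
  {Bs : Finset (Fin n)} {H : Finset (Fin n → ℝ)}

theorem fs_Bs {s : ℕ} {z : Fin n} (hz : z ∈ Bs) : fs D w Bs s z = 1 := by
  cases s with
  | zero => rfl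
  | succ s => simp [fs, hz]

theorem Wt.L1 (hw : Wt w Λ) (hn : 1 ≤ n) : 1 ≤ Λ :=
  (hw.w1 ⟨0, hn⟩).trans (hw.w2 ⟨0, hn⟩)

theorem Fr_subset {s : ℕ} {φ : Cf n} (hlab : ∀ u, φ u ≠ none → D.r u ≤ s) (ω : Cf n) :
    Fr Bs (upd D (s + 1) φ ω) ⊆ Fr Bs φ := by
  intro z hz
  rw [Fr, mem_filter] at hz ⊢
  refine ⟨mem_univ _, ?_⟩
  rcases hz.2 with h | h
  · exact Or.inl h
  · right
    intro u hu
    have h1 : D.r u ≤ s := hlab u (by rw [hu]; simp)
    have h2 := h u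
    rw [upd, if_neg (by omega)] at h2
    exact h2 hu

/-- `E ∑_{z ∈ F'} h/f' = ∑_{z ∈ F} (h/f') P(z ∈ F')` (`F' ⊆ F`), `surv`, `∑_{z ∈ F} h/f ≤ M/ζ`; for
`z ∈ Bs` nothing changes (`f = f' = 1`). -/
theorem roundB_mean (hS : Std D k ε d) (hw : Wt w Λ) (hM : M = Λ * (k + 1)) (hζ : 0 < ζ)
    (hζ1 : ζ ≤ 1) {s : ℕ} (hf : ∀ z, ζ ≤ fs D w Bs s z) (hf' : ∀ z, ζ ≤ fs D w Bs (s + 1) z)
    (φ : Cf n) (ha : 0 ≤ a) (hb0 : 0 ≤ b) (hb1 : b ≤ 1) (hl : IsProb (law D w Bs b s φ))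
    (hn : 2 * M ≤ ζ * n) (he : M * (a + b) / ζ + M ^ 2 / (ζ ^ 2 * n) ≤ 1)
    (hlab : ∀ u, φ u ≠ none → D.r u ≤ s)
    (hload : ∀ z, |ell D w (s + 1) z φ - load D w (s + 1) z| ≤ M * a)
    (h : Fin n → ℝ) (hh : ∀ z, 0 ≤ h z ∧ h z ≤ M / n) :
    |EE (law D w Bs b s φ) (fun ω => ∑ z ∈ Fr Bs (upd D (s + 1) φ ω), h z / fs D w Bs (s + 1) z) -
      ∑ z ∈ Fr Bs φ, h z / fs D w Bs s z| ≤
      2 * (M * (a + b) / ζ + M ^ 2 / (ζ ^ 2 * n)) * (M / ζ) := by
  have hn0 : (0 : ℝ) < n := by exact_mod_cast hS.n1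
  have hL1 := hw.L1 hS.n1
  have hk0 : (0 : ℝ) ≤ k := Nat.cast_nonneg k
  have hM0 : 0 < M := by rw [hM]; positivity
  have he0 : 0 ≤ M * (a + b) / ζ + M ^ 2 / (ζ ^ 2 * n) := by positivity
  set e := M * (a + b) / ζ + M ^ 2 / (ζ ^ 2 * n) with hedef
  have h1 : EE (law D w Bs b s φ)
      (fun ω => ∑ z ∈ Fr Bs (upd D (s + 1) φ ω), h z / fs D w Bs (s + 1) z) =
      ∑ z ∈ Fr Bs φ, h z / fs D w Bs (s + 1) z *
        PP (law D w Bs b s φ) (fun ω => z ∈ Fr Bs (upd D (s + 1) φ ω)) := by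
    have h2 : ∀ ω : Cf n, ∑ z ∈ Fr Bs (upd D (s + 1) φ ω), h z / fs D w Bs (s + 1) z =
        ∑ z ∈ Fr Bs φ, h z / fs D w Bs (s + 1) z *
          (if z ∈ Fr Bs (upd D (s + 1) φ ω) then 1 else 0) := by
      intro ω
      simp only [mul_ite, mul_one, mul_zero]
      rw [← sum_filter]
      refine sum_congr ?_ fun _ _ => rfl
      ext z
      rw [mem_filter]
      exact ⟨fun hz => ⟨Fr_subset hlab ω hz, hz⟩, fun hz => hz.2⟩
    simp only [h2]
    rw [EE_sum]
    refine sum_congr rfl fun z _ => ?_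
    rw [EE_const_mul, Pool.Agent.Helper5.AVD.EE_ind]
  rw [h1, ← sum_sub_distrib]
  have h3 : ∀ z ∈ Fr Bs φ, |h z / fs D w Bs (s + 1) z *
        PP (law D w Bs b s φ) (fun ω => z ∈ Fr Bs (upd D (s + 1) φ ω)) -
        h z / fs D w Bs s z| ≤ 2 * e * (M / n / ζ) := by
    intro z hz
    have hf0 : 0 < fs D w Bs s z := lt_of_lt_of_le hζ (hf z)
    have hf0' : 0 < fs D w Bs (s + 1) z := lt_of_lt_of_le hζ (hf' z)
    have hh1 : h z / fs D w Bs s z ≤ M / n / ζ :=
      div_le_div₀ (by positivity) (hh z).2 hζ (hf z)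
    have hh0 : 0 ≤ h z / fs D w Bs s z := div_nonneg (hh z).1 hf0.le
    by_cases hzB : z ∈ Bs
    · have hp : PP (law D w Bs b s φ) (fun ω => z ∈ Fr Bs (upd D (s + 1) φ ω)) = 1 := by
        have : ∀ ω : Cf n, z ∈ Fr Bs (upd D (s + 1) φ ω) := by
          intro ω
          rw [Fr, mem_filter]
          exact ⟨mem_univ _, Or.inl hzB⟩
        rw [PP]
        simp only [this, if_true]
        exact EE_const hl 1
      rw [hp, fs_Bs hzB, fs_Bs hzB, mul_one, sub_self, abs_zero]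
      positivity
    · have hs := surv hS hw hM hζ hζ1 hf φ ha hb0 hb1 hl hn he z hz hzB hlab (hload z)
      have h4 : h z / fs D w Bs (s + 1) z *
          PP (law D w Bs b s φ) (fun ω => z ∈ Fr Bs (upd D (s + 1) φ ω)) -
          h z / fs D w Bs s z = h z / fs D w Bs (s + 1) z *
          (PP (law D w Bs b s φ) (fun ω => z ∈ Fr Bs (upd D (s + 1) φ ω)) -
            fs D w Bs (s + 1) z / fs D w Bs s z) := by
        field_simp
      rw [h4, abs_mul, abs_of_nonneg (div_nonneg (hh z).1 hf0'.le)]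
      calc h z / fs D w Bs (s + 1) z * |PP (law D w Bs b s φ)
            (fun ω => z ∈ Fr Bs (upd D (s + 1) φ ω)) - fs D w Bs (s + 1) z / fs D w Bs s z|
          ≤ h z / fs D w Bs (s + 1) z * (2 * e * (fs D w Bs (s + 1) z / fs D w Bs s z)) :=
            mul_le_mul_of_nonneg_left hs (div_nonneg (hh z).1 hf0'.le)
        _ = 2 * e * (h z / fs D w Bs s z) := by field_simp
        _ ≤ 2 * e * (M / n / ζ) := mul_le_mul_of_nonneg_left hh1 (by positivity)
  refine (abs_sum_le_sum_abs _ _).trans ((sum_le_sum h3).trans ?_)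
  rw [sum_const, nsmul_eq_mul]
  have h5 : (#(Fr Bs φ) : ℝ) ≤ n := by
    have : #(Fr Bs φ) ≤ n := (card_le_univ _).trans (by simp)
    exact_mod_cast this
  calc (#(Fr Bs φ) : ℝ) * (2 * e * (M / n / ζ)) ≤ n * (2 * e * (M / n / ζ)) :=
        mul_le_mul_of_nonneg_right h5 (by positivity)
    _ = 2 * e * (M / ζ) := by field_simp

theorem Fr_none {s : ℕ} (φ ω : Cf n) (u : Fin n) (o : Option (Fin n)) :
    Fr Bs (upd D s φ (Function.update ω u o)) ⊆
      Fr Bs (upd D s φ (Function.update ω u none)) := by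
  intro z hz
  rw [Fr, mem_filter] at hz ⊢
  refine ⟨mem_univ _, ?_⟩
  rcases hz.2 with h | h
  · exact Or.inl h
  · right
    intro u'
    have h2 := h u'
    rw [upd] at h2 ⊢
    by_cases hr : D.r u' = s
    · rw [if_pos hr] at h2 ⊢
      by_cases hu : u' = u
      · subst hu
        simp
      · rw [Function.update_of_ne hu] at h2 ⊢
        exact h2
    · rw [if_neg hr] at h2 ⊢
      exact h2

theorem Fr_some {s : ℕ} (φ ω : Cf n) (u z0 : Fin n) :
    Fr Bs (upd D s φ (Function.update ω u none)) ⊆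
      insert z0 (Fr Bs (upd D s φ (Function.update ω u (some z0)))) := by
  intro z hz
  rw [mem_insert]
  by_cases hz0 : z = z0
  · exact Or.inl hz0
  · right
    rw [Fr, mem_filter] at hz ⊢
    refine ⟨mem_univ _, ?_⟩
    rcases hz.2 with h | h
    · exact Or.inl h
    · right
      intro u'
      have h2 := h u'
      rw [upd] at h2 ⊢
      by_cases hr : D.r u' = s
      · rw [if_pos hr] at h2 ⊢
        by_cases hu : u' = u
        · subst hu
          simp only [Function.update_self]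
          intro h3
          exact hz0 (Option.some.inj h3).symm
        · rw [Function.update_of_ne hu] at h2 ⊢
          exact h2
      · rw [if_neg hr] at h2 ⊢
        exact h2

theorem Fr_diff {s : ℕ} (φ ω : Cf n) (u : Fin n) (o o' : Option (Fin n)) (g : Fin n → ℝ)
    (c : ℝ) (hg : ∀ z, 0 ≤ g z ∧ g z ≤ c) (hc : 0 ≤ c) :
    |∑ z ∈ Fr Bs (upd D s φ (Function.update ω u o)), g z -
      ∑ z ∈ Fr Bs (upd D s φ (Function.update ω u o')), g z| ≤ c := by
  have h1 : ∀ o : Option (Fin n), ∑ z ∈ Fr Bs (upd D s φ (Function.update ω u o)), g z ≤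
      ∑ z ∈ Fr Bs (upd D s φ (Function.update ω u none)), g z := fun o =>
    sum_le_sum_of_subset_of_nonneg (Fr_none φ ω u o) fun z _ _ => (hg z).1
  have h2 : ∀ o : Option (Fin n), ∑ z ∈ Fr Bs (upd D s φ (Function.update ω u none)), g z ≤
      ∑ z ∈ Fr Bs (upd D s φ (Function.update ω u o)), g z + c := by
    intro o
    cases o with
    | none => linarith
    | some z0 =>
      refine (sum_le_sum_of_subset_of_nonneg (Fr_some φ ω u z0) fun z _ _ => (hg z).1).trans ?_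
      by_cases hz : z0 ∈ Fr Bs (upd D s φ (Function.update ω u (some z0)))
      · rw [insert_eq_of_mem hz]
        linarith
      · rw [sum_insert hz]
        linarith [(hg z0).2]
  rw [abs_le]
  constructor
  · linarith [h1 o', h2 o]
  · linarith [h1 o, h2 o']

/-- `tail` (T1): a pick `(u,z)` removes at most the summand `z`, cost `M/(ζ n) = m`; `L = M/ζ`:
`t²/(16 m L) = t² ζ² n/(16 M²)`. -/
theorem roundB_tail (hS : Std D k ε d) (hw : Wt w Λ) (hM : M = Λ * (k + 1)) (hζ : 0 < ζ)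
    (hζ1 : ζ ≤ 1) {s : ℕ} (hf' : ∀ z, ζ ≤ fs D w Bs (s + 1) z) (φ : Cf n)
    (hl : IsProb (law D w Bs b s φ)) (ht : 0 ≤ t) (ht1 : t ≤ 1)
    (hlab : ∀ u, φ u ≠ none → D.r u ≤ s)
    (h : Fin n → ℝ) (hh : ∀ z, 0 ≤ h z ∧ h z ≤ M / n) :
    PP (law D w Bs b s φ) (fun ω => t ≤
      |∑ z ∈ Fr Bs (upd D (s + 1) φ ω), h z / fs D w Bs (s + 1) z -
        EE (law D w Bs b s φ) (fun ω => ∑ z ∈ Fr Bs (upd D (s + 1) φ ω),
          h z / fs D w Bs (s + 1) z)|) ≤ 2 * Real.exp (-(t ^ 2 * ζ ^ 2 * n / (16 * M ^ 2))) := by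
  have hn0 : (0 : ℝ) < n := by exact_mod_cast hS.n1
  have hL1 := hw.L1 hS.n1
  have hk0 : (0 : ℝ) ≤ k := Nat.cast_nonneg k
  have hM1 : 1 ≤ M := by rw [hM]; nlinarith
  have hM0 : 0 < M := by linarith
  have hm : 0 < M / (ζ * n) := by positivity
  have key := tail hl (fun _ _ => M / (ζ * n))
    (fun ω => ∑ z ∈ Fr Bs (upd D (s + 1) φ ω), h z / fs D w Bs (s + 1) z)
    (m := M / (ζ * n)) (L := M / ζ) (t := t) (fun _ _ => hm.le) (fun _ _ => le_rfl) hm
    (by
      simp only [← sum_mul, hl.sum_one, one_mul]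
      rw [sum_const, card_univ, Fintype.card_fin, nsmul_eq_mul]
      apply le_of_eq
      field_simp) (by positivity) ht
    (by
      have : 1 ≤ M / ζ := by
        rw [le_div_iff₀ hζ]
        linarith
      linarith)
    (fun u ω o o' => by
      have hg : ∀ z, 0 ≤ h z / fs D w Bs (s + 1) z ∧
          h z / fs D w Bs (s + 1) z ≤ M / (ζ * n) := by
        intro z
        have hf0 : 0 < fs D w Bs (s + 1) z := lt_of_lt_of_le hζ (hf' z)
        refine ⟨div_nonneg (hh z).1 hf0.le, ?_⟩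
        have h1 : M / (ζ * n) = M / n / ζ := by field_simp
        rw [h1]
        exact div_le_div₀ (by positivity) (hh z).2 hζ (hf' z)
      have := Fr_diff (D := D) (Bs := Bs) (s := s + 1) φ ω u o o' _ _ hg hm.le
      linarith)
  have h2 : t ^ 2 / (16 * (M / (ζ * n)) * (M / ζ)) = t ^ 2 * ζ ^ 2 * n / (16 * M ^ 2) := by
    field_simp
  rw [h2] at key
  exact key

end Pool.Agent.Helper5.BEC.C
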